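import Pool.Agent.X234.TD.Appr
import Pool.Agent.X234.KR.Sum

/-!
Computable approximations of the cosine and the sine of the angles `2 π i / 2 ^ r`.
-/

set_option autoImplicit false

namespace Pool.Agent.X234.PJ

open Encodable Filter
open Pool.Agent.Helper446.RE Pool.Agent.X234.TD Pool.Agent.X234.KR

/-- the constant of the approximations -/
noncomputable def CA (m : ℕ) : ℕ := ⌈(m : ℝ) ^ 2 * Real.exp m⌉₊ + 1

theorem AA_abs (m i n j : ℕ) (hj : j < 2 ^ n) :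
    |(AA m i (n, j) : ℝ) - 2 ^ (3 * n) * phi m i (j / 2 ^ n)| ≤ CA m := by
  have h2 := AA_approx m i n j hj
  have hp : (0 : ℝ) < 2 ^ (3 * n) := by positivity
  have h4 := mul_le_mul_of_nonneg_left h2 hp.le
  rw [← abs_of_pos hp, ← abs_mul, abs_of_pos hp] at h4
  have h5 : (2 : ℝ) ^ (3 * n) * ((AA m i (n, j) : ℝ) / 2 ^ (3 * n) -
      phi m i (j / 2 ^ n)) = (AA m i (n, j) : ℝ) - 2 ^ (3 * n) * phi m i (j / 2 ^ n) := by
    field_simp
  rw [h5] at h4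
  refine h4.trans (le_of_eq ?_)
  unfold CA
  field_simp

theorem AA_sin (n j k : ℕ) (hj : j < 2 ^ n) : |(AA 4 9 (n + k, j * 2 ^ k) : ℝ) -
    2 ^ (3 * (n + k)) * (1 + Real.sin (4 * (j / 2 ^ n)))| ≤ CA 4 := by
  have h1 : j * 2 ^ k < 2 ^ (n + k) := by
    rw [pow_add]
    exact Nat.mul_lt_mul_of_pos_right hj (Nat.two_pow_pos _)
  have h2 := AA_abs 4 9 (n + k) (j * 2 ^ k) h1
  have h3 : phi 4 9 (((j * 2 ^ k : ℕ) : ℝ) / 2 ^ (n + k)) = 1 + Real.sin (4 * (j / 2 ^ n)) := by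
    unfold phi
    rw [if_neg (by norm_num)]
    norm_num
    congr 2
    rw [pow_add]
    field_simp
  rw [h3] at h2
  exact h2

theorem exists_big (δ : ℝ) (hδ : 0 < δ) (C : ℕ) (n : ℕ) :
    ∃ k : ℕ, 2 * (C : ℝ) < 2 ^ (3 * (n + k)) * δ := by
  obtain ⟨k, hk⟩ := pow_unbounded_of_one_lt (2 * (C : ℝ) / δ) (show (1 : ℝ) < 2 by norm_num)
  refine ⟨k, ?_⟩
  rw [div_lt_iff₀ hδ] at hk
  refine hk.trans_le (mul_le_mul_of_nonneg_right ?_ hδ.le)
  exact pow_le_pow_right₀ (by norm_num) (by omega)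

theorem comp_AAk : Computable fun x : (ℕ × ℕ) × ℕ => AA 4 9 (x.1.1 + x.2, x.1.2 * 2 ^ x.2) := by
  have hAA : Computable (AA 4 9) := AA_comp 4 9
  refine hAA.comp (g := fun x : (ℕ × ℕ) × ℕ => (x.1.1 + x.2, x.1.2 * 2 ^ x.2)) ?_
  exact cpair (cadd (by fun_prop) (by fun_prop)) (cmul (by fun_prop) (comp_pow2 (by fun_prop)))

theorem comp_Pk : Computable fun x : (ℕ × ℕ) × ℕ => 2 ^ (3 * (x.1.1 + x.2)) :=
  comp_pow2 (by fun_prop)

theorem re_pos : REPred fun x : ℕ × ℕ => x.2 < 2 ^ x.1 ∧ 0 < Real.sin (4 * (x.2 / 2 ^ x.1)) := by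
  have h1 : REPred fun x : ℕ × ℕ => ∃ k : ℕ, x.2 < 2 ^ x.1 ∧
      2 ^ (3 * (x.1 + k)) + CA 4 < AA 4 9 (x.1 + k, x.2 * 2 ^ k) := by
    refine exN (p := fun (x : ℕ × ℕ) k => x.2 < 2 ^ x.1 ∧
      2 ^ (3 * (x.1 + k)) + CA 4 < AA 4 9 (x.1 + k, x.2 * 2 ^ k)) ?_
    refine Pool.Agent.Helper446.RE.and (Pool.Agent.Helper446.RE.lt (by fun_prop)
      (comp_pow2 (by fun_prop))) (Pool.Agent.Helper446.RE.lt (cadd comp_Pk (cconst _)) comp_AAk)
  refine h1.of_eq fun x => ?_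
  obtain ⟨n, j⟩ := x
  simp only
  constructor
  · rintro ⟨k, hj, hk⟩
    refine ⟨hj, ?_⟩
    have h2 := abs_le.1 (AA_sin n j k hj)
    have h3 : (2 : ℝ) ^ (3 * (n + k)) + CA 4 < AA 4 9 (n + k, j * 2 ^ k) := by exact_mod_cast hk
    have hp : (0 : ℝ) < 2 ^ (3 * (n + k)) := by positivity
    by_contra hc
    push Not at hc
    nlinarith [h2.2, mul_le_mul_of_nonneg_left hc hp.le]
  · rintro ⟨hj, hs⟩
    obtain ⟨k, hk⟩ := exists_big _ hs (CA 4) n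
    refine ⟨k, hj, ?_⟩
    have h2 := abs_le.1 (AA_sin n j k hj)
    have : (2 : ℝ) ^ (3 * (n + k)) + CA 4 < AA 4 9 (n + k, j * 2 ^ k) := by linarith [h2.1]
    exact_mod_cast this

theorem re_neg : REPred fun x : ℕ × ℕ => x.2 < 2 ^ x.1 ∧ Real.sin (4 * (x.2 / 2 ^ x.1)) < 0 := by
  have h1 : REPred fun x : ℕ × ℕ => ∃ k : ℕ, x.2 < 2 ^ x.1 ∧
      AA 4 9 (x.1 + k, x.2 * 2 ^ k) + CA 4 < 2 ^ (3 * (x.1 + k)) := by
    refine exN (p := fun (x : ℕ × ℕ) k => x.2 < 2 ^ x.1 ∧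
      AA 4 9 (x.1 + k, x.2 * 2 ^ k) + CA 4 < 2 ^ (3 * (x.1 + k))) ?_
    refine Pool.Agent.Helper446.RE.and (Pool.Agent.Helper446.RE.lt (by fun_prop)
      (comp_pow2 (by fun_prop))) (Pool.Agent.Helper446.RE.lt (cadd comp_AAk (cconst _)) comp_Pk)
  refine h1.of_eq fun x => ?_
  obtain ⟨n, j⟩ := x
  simp only
  constructor
  · rintro ⟨k, hj, hk⟩
    refine ⟨hj, ?_⟩
    have h2 := abs_le.1 (AA_sin n j k hj)
    have h3 : (AA 4 9 (n + k, j * 2 ^ k) : ℝ) + CA 4 < 2 ^ (3 * (n + k)) := by exact_mod_cast hk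
    have hp : (0 : ℝ) < 2 ^ (3 * (n + k)) := by positivity
    by_contra hc
    push Not at hc
    nlinarith [h2.1, mul_le_mul_of_nonneg_left hc hp.le]
  · rintro ⟨hj, hs⟩
    obtain ⟨k, hk⟩ := exists_big (-Real.sin (4 * (j / 2 ^ n))) (by linarith) (CA 4) n
    refine ⟨k, hj, ?_⟩
    have h2 := abs_le.1 (AA_sin n j k hj)
    have : (AA 4 9 (n + k, j * 2 ^ k) : ℝ) + CA 4 < 2 ^ (3 * (n + k)) := by linarith [h2.2]
    exact_mod_cast this

/-- approximations of `π / 4` -/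
theorem exists_pi : ∃ p : ℕ → ℕ, Computable p ∧ ∀ n, (p n : ℝ) < 2 ^ (n + 4) * (Real.pi / 4) ∧
    2 ^ (n + 4) * (Real.pi / 4) < p n + 2 := by
  have h1 : REPred fun x : ℕ × ℕ => (x.2 < 2 ^ (x.1 + 4) ∧
      0 < Real.sin (4 * (x.2 / 2 ^ (x.1 + 4)))) ∧ ((x.2 + 2) < 2 ^ (x.1 + 4) ∧
        Real.sin (4 * (((x.2 + 2 : ℕ) : ℝ) / 2 ^ (x.1 + 4))) < 0) := by
    refine Pool.Agent.Helper446.RE.and ?_ ?_
    · exact Pool.Agent.Helper446.RE.comp re_pos (f := fun x : ℕ × ℕ => (x.1 + 4, x.2))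
        (by fun_prop)
    · exact Pool.Agent.Helper446.RE.comp re_neg (f := fun x : ℕ × ℕ => (x.1 + 4, x.2 + 2))
        (by fun_prop)
  obtain ⟨f, hf, hd, hr⟩ := uniformize (r := fun n j : ℕ => (j < 2 ^ (n + 4) ∧
      0 < Real.sin (4 * (j / 2 ^ (n + 4)))) ∧ ((j + 2) < 2 ^ (n + 4) ∧
        Real.sin (4 * (((j + 2 : ℕ) : ℝ) / 2 ^ (n + 4))) < 0)) h1
  have hpi1 := Real.pi_gt_three
  have hpi2 := Real.pi_lt_d2
  have hex : ∀ n, (f n).Dom := by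
    intro n
    rw [hd]
    obtain ⟨y, hy⟩ : ∃ y : ℝ, y = 2 ^ (n + 4) * (Real.pi / 4) := ⟨_, rfl⟩
    have hp : (16 : ℝ) ≤ 2 ^ (n + 4) := by
      rw [pow_add]
      have : (1 : ℝ) ≤ 2 ^ n := one_le_pow₀ (by norm_num)
      linarith
    have hy1 : (12 : ℝ) ≤ y := by rw [hy]; nlinarith
    have hc := Nat.ceil_lt_add_one (by linarith : 0 ≤ y)
    have hc2 := Nat.le_ceil y
    have hc3 : 1 ≤ ⌈y⌉₊ := by
      have : (1 : ℝ) ≤ ⌈y⌉₊ := by linarith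
      exact_mod_cast this
    have hc4 : ((⌈y⌉₊ - 1 : ℕ) : ℝ) = (⌈y⌉₊ : ℝ) - 1 := by push_cast [hc3]; ring
    refine ⟨⌈y⌉₊ - 1, ⟨?_, ?_⟩, ?_, ?_⟩
    · have : ((⌈y⌉₊ - 1 : ℕ) : ℝ) < 2 ^ (n + 4) := by
        rw [hc4]; rw [hy] at hc; rw [hy]; nlinarith
      exact_mod_cast this
    · rw [hc4]
      apply Real.sin_pos_of_pos_of_lt_pi
      · apply mul_pos (by norm_num)
        apply div_pos (by linarith) (by positivity)
      · rw [← mul_div_assoc, div_lt_iff₀ (by positivity)]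
        rw [hy] at hc ⊢
        nlinarith
    · have : (((⌈y⌉₊ - 1 + 2 : ℕ)) : ℝ) < 2 ^ (n + 4) := by
        push_cast [hc3]
        rw [hy] at hc; rw [hy]; nlinarith
      exact_mod_cast this
    · have h2 : (((⌈y⌉₊ - 1 + 2 : ℕ)) : ℝ) = (⌈y⌉₊ : ℝ) + 1 := by push_cast [hc3]; ring
      rw [h2]
      have h3 : Real.sin (4 * (((⌈y⌉₊ : ℝ) + 1) / 2 ^ (n + 4)) - Real.pi) > 0 := by
        apply Real.sin_pos_of_pos_of_lt_pi
        · rw [← mul_div_assoc, sub_pos, lt_div_iff₀ (by positivity)]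
          rw [hy] at hc2 ⊢
          nlinarith
        · rw [← mul_div_assoc, sub_lt_iff_lt_add, div_lt_iff₀ (by positivity)]
          rw [hy] at hc ⊢
          nlinarith
      rw [Real.sin_sub_pi] at h3
      linarith
  refine ⟨fun n => (f n).get (hex n), ?_, fun n => ?_⟩
  · exact hf.of_eq_tot fun n => Part.get_mem (hex n)
  · obtain ⟨⟨h2, h3⟩, h4, h5⟩ := hr n _ (Part.get_mem (hex n))
    show (((f n).get (hex n) : ℕ) : ℝ) < 2 ^ (n + 4) * (Real.pi / 4) ∧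
      2 ^ (n + 4) * (Real.pi / 4) < (((f n).get (hex n) : ℕ) : ℝ) + 2
    obtain ⟨j, hj⟩ : ∃ j, j = (f n).get (hex n) := ⟨_, rfl⟩
    rw [← hj] at h2 h3 h4 h5 ⊢
    have hp : (0 : ℝ) < 2 ^ (n + 4) := by positivity
    have h2' : (j : ℝ) / 2 ^ (n + 4) < 1 := by
      rw [div_lt_one hp]; exact_mod_cast h2
    have h4' : ((j + 2 : ℕ) : ℝ) / 2 ^ (n + 4) < 1 := by
      rw [div_lt_one hp]; exact_mod_cast h4
    have h0 : (0 : ℝ) ≤ (j : ℝ) / 2 ^ (n + 4) := by positivity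
    have h0' : (0 : ℝ) ≤ ((j + 2 : ℕ) : ℝ) / 2 ^ (n + 4) := by positivity
    constructor
    · by_contra hc
      push Not at hc
      have h6 : Real.pi / 4 ≤ (j : ℝ) / 2 ^ (n + 4) := by rw [le_div_iff₀ hp]; linarith
      have h7 : 0 ≤ Real.sin (4 * ((j : ℝ) / 2 ^ (n + 4)) - Real.pi) := by
        apply Real.sin_nonneg_of_nonneg_of_le_pi <;> linarith
      rw [Real.sin_sub_pi] at h7
      linarith
    · by_contra hc
      push Not at hc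
      have h6 : ((j + 2 : ℕ) : ℝ) / 2 ^ (n + 4) ≤ Real.pi / 4 := by
        rw [div_le_iff₀ hp]; push_cast; linarith
      have h7 : 0 ≤ Real.sin (4 * (((j + 2 : ℕ) : ℝ) / 2 ^ (n + 4))) := by
        apply Real.sin_nonneg_of_nonneg_of_le_pi <;> linarith
      linarith

/-- approximations of `2 ^ r (1 + cos (2 π i / 2 ^ r))` and of the sine -/
theorem exists_cs : ∃ (P S : ℕ × ℕ → ℕ) (C : ℕ), Computable P ∧ Computable S ∧
    ∀ r i, i < 2 ^ r →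
      |(P (r, i) : ℝ) - 2 ^ r * (1 + Real.cos (2 * Real.pi * (i / 2 ^ r)))| ≤ C ∧
      |(S (r, i) : ℝ) - 2 ^ r * (1 + Real.sin (2 * Real.pi * (i / 2 ^ r)))| ≤ C := by
  obtain ⟨p, hp, hpi⟩ := exists_pi
  obtain ⟨jj, hjj⟩ : ∃ jj : ℕ × ℕ → ℕ, jj = fun x => 8 * p x.1 * x.2 / (7 * 2 ^ (x.1 + 4)) := ⟨_, rfl⟩
  have hdiv : ∀ {f g : ℕ × ℕ → ℕ}, Computable f → Computable g →
      Computable fun x => f x / g x := fun hf hg => Primrec.nat_div.to_comp.comp hf hg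
  have hjc : Computable jj := by
    rw [hjj]
    exact hdiv (cmul (cmul (cconst 8) (hp.comp Computable.fst)) Computable.snd)
      (cmul (cconst 7) (comp_pow2 (by fun_prop)))
  have hj1 : ∀ r i, i < 2 ^ r → jj (r, i) < 2 ^ r ∧
      |7 * ((jj (r, i) : ℝ) / 2 ^ r) - 2 * Real.pi * (i / 2 ^ r)| ≤ 14 / 2 ^ r := by
    intro r i hi
    have h1 := hpi r
    obtain ⟨h1a, h1b⟩ := h1
    have hR : (0 : ℝ) < 2 ^ r := by positivity
    have hi' : (i : ℝ) < 2 ^ r := by exact_mod_cast hi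
    have hi0 : (0 : ℝ) ≤ i := Nat.cast_nonneg i
    have hpi2 := Real.pi_lt_d2
    have e4 : (2 : ℝ) ^ (r + 4) = 16 * 2 ^ r := by rw [pow_add]; ring
    have hD : 0 < 7 * 2 ^ (r + 4) := by positivity
    have h2 : jj (r, i) * (7 * 2 ^ (r + 4)) ≤ 8 * p r * i := by
      rw [hjj]; exact Nat.div_mul_le_self _ _
    have h3 : 8 * p r * i < (jj (r, i) + 1) * (7 * 2 ^ (r + 4)) := by
      rw [hjj]; exact Nat.lt_mul_of_div_lt (Nat.lt_succ_self _) hD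
    have h2' : (jj (r, i) : ℝ) * (7 * 2 ^ (r + 4)) ≤ 8 * p r * i := by exact_mod_cast h2
    have h3' : (8 : ℝ) * p r * i < (jj (r, i) + 1) * (7 * 2 ^ (r + 4)) := by exact_mod_cast h3
    rw [e4] at h1a h1b h2' h3'
    have h4 : (p r : ℝ) * i ≤ 16 * 2 ^ r * (Real.pi / 4) * i :=
      mul_le_mul_of_nonneg_right h1a.le hi0
    have h5 : (16 * 2 ^ r * (Real.pi / 4) - 2) * i ≤ (p r : ℝ) * i :=
      mul_le_mul_of_nonneg_right (by linarith) hi0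
    constructor
    · have : (jj (r, i) : ℝ) < 2 ^ r := by
        by_contra hc
        push Not at hc
        have h6 : 2 ^ r * (7 * (16 * 2 ^ r)) ≤ (jj (r, i) : ℝ) * (7 * (16 * 2 ^ r)) :=
          mul_le_mul_of_nonneg_right hc (by positivity)
        have h7 : (16 : ℝ) * 2 ^ r * (Real.pi / 4) * i ≤ 16 * 2 ^ r * (Real.pi / 4) * 2 ^ r :=
          mul_le_mul_of_nonneg_left hi'.le (by positivity)
        have h8 : (0 : ℝ) < 2 ^ r * 2 ^ r := by positivity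
        nlinarith
      exact_mod_cast this
    · have h6 : 7 * ((jj (r, i) : ℝ) / 2 ^ r) - 2 * Real.pi * (i / 2 ^ r) =
          (7 * (jj (r, i) : ℝ) - 2 * Real.pi * i) / 2 ^ r := by ring
      rw [h6, abs_div, abs_of_pos hR]
      apply div_le_div_of_nonneg_right _ hR.le
      rw [abs_le]
      constructor
      · nlinarith
      · nlinarith
  have hlip : ∀ a b : ℝ, |Real.cos a - Real.cos b| ≤ |a - b| ∧ |Real.sin a - Real.sin b| ≤ |a - b| := by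
    intro a b
    constructor
    · rw [Real.cos_sub_cos]
      have h1 := Real.abs_sin_le_one ((a + b) / 2)
      have h2 : |Real.sin ((a - b) / 2)| ≤ |(a - b) / 2| := Real.abs_sin_le_abs
      rw [abs_mul, abs_mul]
      have h3 : |(a - b) / 2| = |a - b| / 2 := by rw [abs_div]; norm_num
      rw [h3] at h2
      have h4 := mul_le_mul h1 h2 (abs_nonneg _) (by norm_num)
      have h5 : |(-2 : ℝ)| = 2 := by norm_num
      rw [h5]
      linarith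
    · rw [Real.sin_sub_sin]
      have h1 := Real.abs_cos_le_one ((a + b) / 2)
      have h2 : |Real.sin ((a - b) / 2)| ≤ |(a - b) / 2| := Real.abs_sin_le_abs
      rw [abs_mul, abs_mul]
      have h3 : |(a - b) / 2| = |a - b| / 2 := by rw [abs_div]; norm_num
      rw [h3] at h2
      have h4 := mul_le_mul h2 h1 (abs_nonneg _) (by positivity)
      have h5 : |(2 : ℝ)| = 2 := by norm_num
      rw [h5]
      nlinarith
  have hgen : ∀ (m : ℕ) (F : ℝ → ℝ) (hF : ∀ a b, |F a - F b| ≤ |a - b|)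
      (hφ : ∀ x, phi 7 m x = 1 + F (7 * x)) (r i : ℕ), i < 2 ^ r →
      |((AA 7 m (r, jj (r, i)) / 2 ^ (2 * r) : ℕ) : ℝ) -
        2 ^ r * (1 + F (2 * Real.pi * (i / 2 ^ r)))| ≤ (CA 7 + 15 : ℕ) := by
    intro m F hF hφ r i hi
    obtain ⟨h1, h2⟩ := hj1 r i hi
    have h3 := abs_le.1 (AA_abs 7 m r (jj (r, i)) h1)
    rw [hφ] at h3
    obtain ⟨A, hA⟩ : ∃ A, A = AA 7 m (r, jj (r, i)) := ⟨_, rfl⟩
    rw [← hA] at h3 ⊢
    have hD : 0 < 2 ^ (2 * r) := by positivity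
    have h4 : A / 2 ^ (2 * r) * 2 ^ (2 * r) ≤ A := Nat.div_mul_le_self _ _
    have h5 : A < (A / 2 ^ (2 * r) + 1) * 2 ^ (2 * r) :=
      Nat.lt_mul_of_div_lt (Nat.lt_succ_self _) hD
    obtain ⟨q, hq⟩ : ∃ q, q = A / 2 ^ (2 * r) := ⟨_, rfl⟩
    rw [← hq] at h4 h5 ⊢
    have h4' : (q : ℝ) * 2 ^ (2 * r) ≤ A := by exact_mod_cast h4
    have h5' : (A : ℝ) < (q + 1) * 2 ^ (2 * r) := by exact_mod_cast h5
    have h6 := hF (7 * ((jj (r, i) : ℝ) / 2 ^ r)) (2 * Real.pi * (i / 2 ^ r))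
    have h7 := abs_le.1 (h6.trans h2)
    have hR : (1 : ℝ) ≤ 2 ^ r := one_le_pow₀ (by norm_num)
    have e3 : (2 : ℝ) ^ (3 * r) = 2 ^ r * 2 ^ (2 * r) := by rw [← pow_add]; congr 1; ring
    have hDr : (1 : ℝ) ≤ 2 ^ (2 * r) := one_le_pow₀ (by norm_num)
    rw [e3] at h3
    obtain ⟨X, hX⟩ : ∃ X, X = F (7 * ((jj (r, i) : ℝ) / 2 ^ r)) := ⟨_, rfl⟩
    obtain ⟨Y, hY⟩ : ∃ Y, Y = F (2 * Real.pi * (i / 2 ^ r)) := ⟨_, rfl⟩
    rw [← hX] at h3 h7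
    rw [← hY] at h7 ⊢
    have h8 : |2 ^ r * (X - Y)| ≤ 14 := by
      rw [abs_mul, abs_of_pos (by linarith : (0 : ℝ) < 2 ^ r)]
      have : |X - Y| ≤ 14 / 2 ^ r := abs_le.2 h7
      calc 2 ^ r * |X - Y| ≤ 2 ^ r * (14 / 2 ^ r) := mul_le_mul_of_nonneg_left this (by linarith)
        _ = 14 := by field_simp
    have h8' := abs_le.1 h8
    have hCA : (0 : ℝ) ≤ CA 7 := Nat.cast_nonneg _
    have h9 : (CA 7 : ℝ) ≤ CA 7 * 2 ^ (2 * r) := le_mul_of_one_le_right hCA hDr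
    rw [abs_le]
    push_cast
    constructor
    · -- lower bound
      have h10 : (2 : ℝ) ^ (2 * r) * (2 ^ r * (1 + X)) < 2 ^ (2 * r) * (q + 1 + CA 7) := by
        nlinarith [h3.1]
      have h11 := lt_of_mul_lt_mul_left h10 (by linarith)
      linarith [h8'.1]
    · have h10 : (2 : ℝ) ^ (2 * r) * q ≤ 2 ^ (2 * r) * (2 ^ r * (1 + X) + CA 7) := by
        nlinarith [h3.2]
      have h11 := le_of_mul_le_mul_left h10 (by linarith)
      linarith [h8'.2]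
  have hc1 : ∀ m, Computable fun x : ℕ × ℕ => AA 7 m (x.1, jj x) / 2 ^ (2 * x.1) := by
    intro m
    refine hdiv ?_ (comp_pow2 (by fun_prop))
    exact (AA_comp 7 m).comp (g := fun x : ℕ × ℕ => (x.1, jj x)) (cpair Computable.fst hjc)
  refine ⟨fun x => AA 7 14 (x.1, jj x) / 2 ^ (2 * x.1), fun x => AA 7 15 (x.1, jj x) / 2 ^ (2 * x.1),
    CA 7 + 15, hc1 14, hc1 15, fun r i hi => ⟨?_, ?_⟩⟩
  · refine hgen 14 Real.cos (fun a b => (hlip a b).1) (fun x => ?_) r i hi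
    unfold phi
    norm_num
  · refine hgen 15 Real.sin (fun a b => (hlip a b).2) (fun x => ?_) r i hi
    unfold phi
    norm_num

end Pool.Agent.X234.PJ
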