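import Pool.Agent.X234.PJ.Val

/-!
Two points have nearly equal projections only in few directions.
-/

set_option autoImplicit false

namespace Pool.Agent.X234.PJ

open Finset

theorem sin_lower {m h : ℕ} (hm : 0 < m) (hh : h < 2 * m) :
    ∃ l : ℕ, l < 3 ∧ 2 * |(h : ℝ) - l * m| / m ≤ |Real.sin (Real.pi * h / m)| := by
  have hm0 : (0 : ℝ) < m := by exact_mod_cast hm
  have hpi := Real.pi_pos
  have hh' : (h : ℝ) < 2 * m := by exact_mod_cast hh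
  have hh0 : (0 : ℝ) ≤ h := Nat.cast_nonneg h
  have key : ∀ l : ℕ, |(h : ℝ) - l * m| ≤ m / 2 →
      |Real.sin (Real.pi * h / m - l * Real.pi)| = |Real.sin (Real.pi * h / m)| →
      2 * |(h : ℝ) - l * m| / m ≤ |Real.sin (Real.pi * h / m)| := by
    intro l h1 h2
    rw [← h2]
    have h3 : Real.pi * h / m - l * Real.pi = Real.pi / m * (h - l * m) := by field_simp
    rw [h3]
    have h4 : |Real.pi / m * (h - l * m)| = Real.pi / m * |(h : ℝ) - l * m| := by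
      rw [abs_mul, abs_of_pos (by positivity)]
    have h5 : |Real.pi / m * (h - l * m)| ≤ Real.pi / 2 := by
      rw [h4]
      calc Real.pi / m * |(h : ℝ) - l * m| ≤ Real.pi / m * (m / 2) :=
            mul_le_mul_of_nonneg_left h1 (by positivity)
        _ = Real.pi / 2 := by field_simp
    refine le_trans (le_of_eq ?_) (Real.mul_abs_le_abs_sin h5)
    rw [h4]
    field_simp
  rcases le_or_gt (h : ℝ) (m / 2) with h1 | h1
  · refine ⟨0, by norm_num, key 0 ?_ (by simp)⟩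
    simp only [Nat.cast_zero, zero_mul, sub_zero]
    rw [abs_of_nonneg hh0]
    exact h1
  · rcases le_or_gt (h : ℝ) (3 * m / 2) with h2 | h2
    · refine ⟨1, by norm_num, key 1 ?_ ?_⟩
      · rw [abs_le]; push_cast; constructor <;> linarith
      · push_cast
        rw [one_mul, Real.sin_sub_pi, abs_neg]
    · refine ⟨2, by norm_num, key 2 ?_ ?_⟩
      · rw [abs_le]; push_cast; constructor <;> linarith
      · push_cast
        rw [Real.sin_sub_two_pi]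

theorem card_aux {r : ℕ} (hr : 1 ≤ r) {J : Finset ℕ} (hJ : J ⊆ Finset.range (2 ^ r)) {D M : ℝ}
    (hD : 0 < D) (hD2 : D ≤ 2 ^ r) (hM : 0 ≤ M)
    (h : ∀ i ∈ J, ∀ i' ∈ J, i ≤ i' →
      D * |Real.sin (2 * Real.pi * ((i' : ℝ) / 2 ^ r) - 2 * Real.pi * ((i : ℝ) / 2 ^ r))| ≤ 4 * M) :
    D * J.card ≤ (6 * M + 3) * 2 ^ r := by
  classical
  rcases J.eq_empty_or_nonempty with h0 | h0
  · rw [h0]; simp; positivity
  obtain ⟨i0, hi0, hmin⟩ : ∃ i0 ∈ J, ∀ i ∈ J, i0 ≤ i := ⟨J.min' h0, J.min'_mem h0, fun i hi => J.min'_le i hi⟩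
  obtain ⟨m, hm⟩ : ∃ m, 2 ^ r = 2 * m := ⟨2 ^ (r - 1), by rw [← pow_succ']; congr 1; omega⟩
  have hm1 : 0 < m := by
    have : 0 < 2 ^ r := Nat.two_pow_pos _
    omega
  have hmr : (2 : ℝ) ^ r = 2 * m := by exact_mod_cast hm
  have hm0 : (0 : ℝ) < m := by exact_mod_cast hm1
  obtain ⟨H, hH⟩ : ∃ H : ℝ, H = 2 * M * m / D := ⟨_, rfl⟩
  have hH0 : 0 ≤ H := by rw [hH]; positivity
  have hsub : J ⊆ (Finset.range 3).biUnion fun l =>
      (Finset.Icc (l * m - ⌊H⌋₊) (l * m + ⌊H⌋₊)).image fun t => t + i0 := by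
    intro i hi
    have h1 := hmin i hi
    have h2 := Finset.mem_range.1 (hJ hi)
    obtain ⟨l, hl, hl2⟩ := sin_lower (m := m) (h := i - i0) hm1 (by omega)
    rw [Finset.mem_biUnion]
    refine ⟨l, Finset.mem_range.2 hl, ?_⟩
    rw [Finset.mem_image]
    refine ⟨i - i0, ?_, by omega⟩
    have h3 := h i0 hi0 i hi h1
    have h4 : 2 * Real.pi * ((i : ℝ) / 2 ^ r) - 2 * Real.pi * ((i0 : ℝ) / 2 ^ r) =
        Real.pi * ((i - i0 : ℕ) : ℝ) / m := by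
      rw [Nat.cast_sub h1, hmr]
      field_simp
    rw [h4] at h3
    have h5 : D * (2 * |((i - i0 : ℕ) : ℝ) - l * m| / m) ≤ 4 * M :=
      (mul_le_mul_of_nonneg_left hl2 hD.le).trans h3
    have h6 : |((i - i0 : ℕ) : ℝ) - l * m| ≤ H := by
      rw [hH, le_div_iff₀ hD]
      have h7 : D * (2 * |((i - i0 : ℕ) : ℝ) - l * m| / m) =
          2 * (|((i - i0 : ℕ) : ℝ) - l * m| * D) / m := by ring
      rw [h7, div_le_iff₀ hm0] at h5
      linarith
    have h7 := abs_le.1 h6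
    rw [Finset.mem_Icc]
    constructor
    · rw [Nat.sub_le_iff_le_add]
      by_contra hc
      push Not at hc
      have h8 : i - i0 + ⌊H⌋₊ + 1 ≤ l * m := hc
      have h9 : (((i - i0 : ℕ) : ℝ)) + ⌊H⌋₊ + 1 ≤ l * m := by exact_mod_cast h8
      have h10 := Nat.lt_floor_add_one H
      linarith [h7.1]
    · by_contra hc
      push Not at hc
      have h8 : l * m + ⌊H⌋₊ + 1 ≤ i - i0 := hc
      have h9 : (l : ℝ) * m + ⌊H⌋₊ + 1 ≤ ((i - i0 : ℕ) : ℝ) := by exact_mod_cast h8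
      have h10 := Nat.lt_floor_add_one H
      linarith [h7.2]
  have hcard : J.card ≤ 3 * (2 * ⌊H⌋₊ + 1) := by
    refine (Finset.card_le_card hsub).trans (Finset.card_biUnion_le.trans ?_)
    refine (Finset.sum_le_card_nsmul _ _ (2 * ⌊H⌋₊ + 1) fun l _ => ?_).trans ?_
    · refine Finset.card_image_le.trans ?_
      rw [Nat.card_Icc]
      omega
    · rw [Finset.card_range, smul_eq_mul]
  have h1 : (J.card : ℝ) ≤ 3 * (2 * H + 1) := by
    have h2 : (J.card : ℝ) ≤ 3 * (2 * ⌊H⌋₊ + 1) := by exact_mod_cast hcard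
    have h3 := Nat.floor_le hH0
    linarith
  have h2 : D * H = 2 * M * m := by rw [hH]; field_simp
  calc D * J.card ≤ D * (3 * (2 * H + 1)) := mul_le_mul_of_nonneg_left h1 hD.le
    _ = 6 * (D * H) + 3 * D := by ring
    _ ≤ _ := by rw [h2, hmr]; rw [hmr] at hD2; nlinarith

/-- the specification of the approximate values -/
def Spec (z1 z2 : ℤ) (v : ℕ × ℕ × ℕ × ℕ → ℕ) (L M : ℕ) : Prop :=
    ∀ r a b i : ℕ, a < 2 ^ r → b < 2 ^ r → i < 2 ^ r → ∀ y1 y2 θ : ℝ,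
      z1 + (a : ℝ) / 2 ^ r ≤ y1 → y1 ≤ z1 + ((a : ℝ) + 1) / 2 ^ r →
      z2 + (b : ℝ) / 2 ^ r ≤ y2 → y2 ≤ z2 + ((b : ℝ) + 1) / 2 ^ r →
      (i : ℝ) / 2 ^ r ≤ θ → θ ≤ ((i : ℝ) + 1) / 2 ^ r →
      |(v (r, a, b, i) : ℝ) - 2 ^ r * (y1 * Real.cos (2 * Real.pi * θ) +
        y2 * Real.sin (2 * Real.pi * θ) + L)| ≤ M

theorem spec_corner {z1 z2 : ℤ} {v : ℕ × ℕ × ℕ × ℕ → ℕ} {L M : ℕ} (hv : Spec z1 z2 v L M)
    {r a b i : ℕ} (ha : a < 2 ^ r) (hb : b < 2 ^ r) (hi : i < 2 ^ r) :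
    |(v (r, a, b, i) : ℝ) - ((z1 * 2 ^ r + a) * Real.cos (2 * Real.pi * ((i : ℝ) / 2 ^ r)) +
      (z2 * 2 ^ r + b) * Real.sin (2 * Real.pi * ((i : ℝ) / 2 ^ r)) + 2 ^ r * L)| ≤ M := by
  have hp : (0 : ℝ) < 2 ^ r := by positivity
  have h1 := hv r a b i ha hb hi (z1 + (a : ℝ) / 2 ^ r) (z2 + (b : ℝ) / 2 ^ r) ((i : ℝ) / 2 ^ r)
    le_rfl (by gcongr; linarith) le_rfl (by gcongr; linarith) le_rfl (by gcongr; linarith)
  refine le_trans (le_of_eq ?_) h1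
  congr 1
  field_simp

/-- few directions give equal approximate values -/
theorem count_eq {z1 z2 : ℤ} {v : ℕ × ℕ × ℕ × ℕ → ℕ} {L M : ℕ} (hv : Spec z1 z2 v L M)
    {r a b a' b' : ℕ} (ha : a < 2 ^ r) (hb : b < 2 ^ r) (ha' : a' < 2 ^ r) (hb' : b' < 2 ^ r) :
    |(a : ℝ) - a'| * ((Finset.range (2 ^ r)).filter fun i => v (r, a, b, i) = v (r, a', b', i)).card ≤
      (6 * M + 3) * 2 ^ r ∧
    |(b : ℝ) - b'| * ((Finset.range (2 ^ r)).filter fun i => v (r, a, b, i) = v (r, a', b', i)).card ≤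
      (6 * M + 3) * 2 ^ r := by
  have haR : (a : ℝ) < 2 ^ r := by exact_mod_cast ha
  have hbR : (b : ℝ) < 2 ^ r := by exact_mod_cast hb
  have haR' : (a' : ℝ) < 2 ^ r := by exact_mod_cast ha'
  have hbR' : (b' : ℝ) < 2 ^ r := by exact_mod_cast hb'
  have ha0 : (0 : ℝ) ≤ a := Nat.cast_nonneg _
  have hb0 : (0 : ℝ) ≤ b := Nat.cast_nonneg _
  have ha0' : (0 : ℝ) ≤ a' := Nat.cast_nonneg _
  have hb0' : (0 : ℝ) ≤ b' := Nat.cast_nonneg _
  obtain ⟨J, hJ⟩ : ∃ J, J = (Finset.range (2 ^ r)).filter fun i => v (r, a, b, i) = v (r, a', b', i) :=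
    ⟨_, rfl⟩
  have hM0 : (0 : ℝ) ≤ M := Nat.cast_nonneg M
  obtain ⟨A, hA⟩ : ∃ A : ℝ, A = (a : ℝ) - a' := ⟨_, rfl⟩
  obtain ⟨B, hB⟩ : ∃ B : ℝ, B = (b : ℝ) - b' := ⟨_, rfl⟩
  have h1 : ∀ i ∈ J, |A * Real.cos (2 * Real.pi * ((i : ℝ) / 2 ^ r)) +
      B * Real.sin (2 * Real.pi * ((i : ℝ) / 2 ^ r))| ≤ 2 * M := by
    intro i hi
    rw [hJ, Finset.mem_filter, Finset.mem_range] at hi
    have h2 := abs_le.1 (spec_corner hv ha hb hi.1)
    have h3 := abs_le.1 (spec_corner hv ha' hb' hi.1)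
    rw [hi.2] at h2
    rw [hA, hB, abs_le]
    constructor
    · linarith [h2.1, h3.2]
    · linarith [h2.2, h3.1]
  have h2 : ∀ i ∈ J, ∀ i' ∈ J,
      |A| * |Real.sin (2 * Real.pi * ((i' : ℝ) / 2 ^ r) - 2 * Real.pi * ((i : ℝ) / 2 ^ r))| ≤ 4 * M ∧
      |B| * |Real.sin (2 * Real.pi * ((i' : ℝ) / 2 ^ r) - 2 * Real.pi * ((i : ℝ) / 2 ^ r))| ≤ 4 * M := by
    intro i hi i' hi'
    have e1 := h1 i hi
    have e2 := h1 i' hi'
    obtain ⟨x, hx⟩ : ∃ x, x = 2 * Real.pi * ((i : ℝ) / 2 ^ r) := ⟨_, rfl⟩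
    obtain ⟨y, hy⟩ : ∃ y, y = 2 * Real.pi * ((i' : ℝ) / 2 ^ r) := ⟨_, rfl⟩
    rw [← hx] at e1 ⊢
    rw [← hy] at e2 ⊢
    obtain ⟨p, hp⟩ : ∃ p, p = A * Real.cos x + B * Real.sin x := ⟨_, rfl⟩
    obtain ⟨q, hq⟩ : ∃ q, q = A * Real.cos y + B * Real.sin y := ⟨_, rfl⟩
    rw [← hp] at e1
    rw [← hq] at e2
    have g1 : A * Real.sin (y - x) = p * Real.sin y - q * Real.sin x := by
      rw [Real.sin_sub, hp, hq]; ring
    have g2 : B * Real.sin (y - x) = q * Real.cos x - p * Real.cos y := by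
      rw [Real.sin_sub, hp, hq]; ring
    have hle : ∀ s t c d : ℝ, |s| ≤ 2 * M → |t| ≤ 2 * M → |c| ≤ 1 → |d| ≤ 1 →
        |s * c - t * d| ≤ 4 * M := by
      intro s t c d hs ht hc hd
      have k1 : |s * c| ≤ 2 * M := by
        rw [abs_mul]
        calc |s| * |c| ≤ 2 * M * 1 := mul_le_mul hs hc (abs_nonneg _) (by positivity)
          _ = _ := by ring
      have k2 : |t * d| ≤ 2 * M := by
        rw [abs_mul]
        calc |t| * |d| ≤ 2 * M * 1 := mul_le_mul ht hd (abs_nonneg _) (by positivity)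
          _ = _ := by ring
      have k1' := abs_le.1 k1
      have k2' := abs_le.1 k2
      rw [abs_le]
      constructor
      · linarith [k1'.1, k2'.2]
      · linarith [k1'.2, k2'.1]
    constructor
    · rw [← abs_mul, g1]
      exact hle _ _ _ _ e1 e2 (Real.abs_sin_le_one _) (Real.abs_sin_le_one _)
    · rw [← abs_mul, g2]
      exact hle _ _ _ _ e2 e1 (Real.abs_cos_le_one _) (Real.abs_cos_le_one _)
  have hJr : J ⊆ Finset.range (2 ^ r) := by rw [hJ]; exact Finset.filter_subset _ _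
  have hfin : ∀ D : ℝ, |D| < 2 ^ r → (D ≠ 0 → 1 ≤ r) →
      (∀ i ∈ J, ∀ i' ∈ J, i ≤ i' →
      |D| * |Real.sin (2 * Real.pi * ((i' : ℝ) / 2 ^ r) - 2 * Real.pi * ((i : ℝ) / 2 ^ r))| ≤ 4 * M) →
      |D| * J.card ≤ (6 * M + 3) * 2 ^ r := by
    intro D hD hr h3
    rcases eq_or_ne D 0 with h0 | h0
    · rw [h0, abs_zero, zero_mul]; positivity
    · exact card_aux (hr h0) hJr (abs_pos.2 h0) hD.le hM0 h3
  have hr1 : ∀ s t : ℕ, s < 2 ^ r → t < 2 ^ r → (s : ℝ) - t ≠ 0 → 1 ≤ r := by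
    intro s t hs ht hne
    by_contra hc
    have : r = 0 := by omega
    subst this
    have h1 : s = 0 := by simpa using hs
    have h2 : t = 0 := by simpa using ht
    rw [h1, h2] at hne
    simp at hne
  rw [← hJ, ← hA, ← hB]
  constructor
  · refine hfin A (by rw [hA, abs_lt]; constructor <;> linarith) (by rw [hA]; exact hr1 a a' ha ha')
      fun i hi i' hi' _ => (h2 i hi i' hi').1
  · refine hfin B (by rw [hB, abs_lt]; constructor <;> linarith) (by rw [hB]; exact hr1 b b' hb hb')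
      fun i hi i' hi' _ => (h2 i hi i' hi').2

end Pool.Agent.X234.PJ
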