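import Pool.Agent.X234.PJ.Tree

/-!
Effective coverings with few elements; short descriptions.
-/

set_option autoImplicit false

namespace Pool.Agent.X234.PJ

open Finset Pool.Agent.Helper227 Encodable
open Pool.Agent.Helper446.RE Pool.Agent.X234.KR Pool.Agent.X234.MC

section comp
variable {e : ℕ → ℕ} {B : ℕ → List Bool → Bool}

/-- tables of contents -/
abbrev Tab := List ((ℕ × List Bool) × ℕ)

/-- a correct entry of a table -/
def Good (e : ℕ → ℕ) (B : ℕ → List Bool → Bool) (j n : ℕ) (T : Tab) (t : (ℕ × List Bool) × ℕ) : Prop :=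
  (t.1.1 = 0 ∧ t.2 = (B j t.1.2).toNat) ∨
    ∃ q : ℕ × ℕ × ℕ, ((t.1.1 = q.1 + 1 ∧ ((q.1, t.1.2 ++ [false]), q.2.1) ∈ T) ∧
      ((q.1, t.1.2 ++ [true]), q.2.2) ∈ T) ∧ t.2 = min (2 ^ (e n - e t.1.2.length)) (q.2.1 + q.2.2)

theorem cont_zero (j n : ℕ) (x : List Bool) : cont e (B j) n 0 x = (B j x).toNat := by
  rw [cont]
  cases B j x <;> simp

theorem good_mono {j n : ℕ} {T T' : Tab} (h : ∀ t ∈ T, t ∈ T') {t : (ℕ × List Bool) × ℕ}
    (ht : Good e B j n T t) : Good e B j n T' t := by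
  rcases ht with ht | ⟨q, ⟨⟨h1, h2⟩, h3⟩, h4⟩
  · exact Or.inl ht
  · exact Or.inr ⟨q, ⟨⟨h1, h _ h2⟩, h _ h3⟩, h4⟩

theorem good_correct {j n : ℕ} {T : Tab} (hT : ∀ t ∈ T, Good e B j n T t) :
    ∀ (d : ℕ) (x : List Bool) (v : ℕ), ((d, x), v) ∈ T → cont e (B j) n d x = v := by
  intro d
  induction d with
  | zero =>
    intro x v h
    rcases hT _ h with ⟨_, h2⟩ | ⟨q, ⟨⟨h1, _⟩, _⟩, _⟩
    · rw [cont_zero]; exact h2.symm
    · simp at h1
  | succ d ih =>
    intro x v h
    rcases hT _ h with ⟨h1, _⟩ | ⟨⟨d', v0, v1⟩, ⟨⟨h1, h2⟩, h3⟩, h4⟩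
    · simp at h1
    · simp only at h1 h2 h3 h4
      obtain rfl : d = d' := by omega
      rw [cont, ih _ _ h2, ih _ _ h3, h4]

theorem exists_table (j n : ℕ) : ∀ (d : ℕ) (x : List Bool),
    ∃ T : Tab, ((d, x), cont e (B j) n d x) ∈ T ∧ ∀ t ∈ T, Good e B j n T t := by
  intro d
  induction d with
  | zero =>
    intro x
    refine ⟨[((0, x), cont e (B j) n 0 x)], by simp, ?_⟩
    intro t ht
    rw [List.mem_singleton] at ht
    subst ht
    exact Or.inl ⟨rfl, cont_zero (e := e) j n x⟩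
  | succ d ih =>
    intro x
    obtain ⟨T0, h0, g0⟩ := ih (x ++ [false])
    obtain ⟨T1, h1, g1⟩ := ih (x ++ [true])
    refine ⟨((d + 1, x), cont e (B j) n (d + 1) x) :: (T0 ++ T1), by simp, ?_⟩
    intro t ht
    rw [List.mem_cons, List.mem_append] at ht
    rcases ht with rfl | ht | ht
    · refine Or.inr ⟨(d, cont e (B j) n d (x ++ [false]), cont e (B j) n d (x ++ [true])),
        ⟨⟨rfl, ?_⟩, ?_⟩, ?_⟩
      · simp [h0]
      · simp [h1]
      · simp only
        rw [cont]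
    · exact good_mono (fun s hs => by simp [hs]) (g0 t ht)
    · exact good_mono (fun s hs => by simp [hs]) (g1 t ht)

theorem good_re (he : Computable e) (hB : Computable₂ B) :
    REPred fun y : (ℕ × ℕ) × (Tab × ((ℕ × List Bool) × ℕ)) => Good e B y.1.1 y.1.2 y.2.1 y.2.2 := by
  unfold Good
  refine Pool.Agent.Helper446.RE.or ?_ ?_
  · refine Pool.Agent.Helper446.RE.and (Pool.Agent.Helper446.RE.eq (by fun_prop) (by fun_prop)) ?_
    refine Pool.Agent.Helper446.RE.eq (by fun_prop) ?_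
    refine comp_toNat ?_
    exact hB.comp (by fun_prop : Computable fun y : (ℕ × ℕ) × (Tab × ((ℕ × List Bool) × ℕ)) => y.1.1)
      (by fun_prop : Computable fun y : (ℕ × ℕ) × (Tab × ((ℕ × List Bool) × ℕ)) => y.2.2.1.2)
  · refine Pool.Agent.Helper446.RE.ex (p := fun (y : (ℕ × ℕ) × (Tab × ((ℕ × List Bool) × ℕ)))
      (q : ℕ × ℕ × ℕ) => ((y.2.2.1.1 = q.1 + 1 ∧ ((q.1, y.2.2.1.2 ++ [false]), q.2.1) ∈ y.2.1) ∧
      ((q.1, y.2.2.1.2 ++ [true]), q.2.2) ∈ y.2.1) ∧
        y.2.2.2 = min (2 ^ (e y.1.2 - e y.2.2.1.2.length)) (q.2.1 + q.2.2)) ?_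
    have hT : Computable fun z : ((ℕ × ℕ) × (Tab × ((ℕ × List Bool) × ℕ))) × (ℕ × ℕ × ℕ) =>
        z.1.2.1 := by fun_prop
    have hx : Computable fun z : ((ℕ × ℕ) × (Tab × ((ℕ × List Bool) × ℕ))) × (ℕ × ℕ × ℕ) =>
        z.1.2.2.1.2 := by fun_prop
    have hd : Computable fun z : ((ℕ × ℕ) × (Tab × ((ℕ × List Bool) × ℕ))) × (ℕ × ℕ × ℕ) =>
        z.2.1 := by fun_prop
    have h0 : Computable fun z : ((ℕ × ℕ) × (Tab × ((ℕ × List Bool) × ℕ))) × (ℕ × ℕ × ℕ) =>
        z.2.2.1 := by fun_prop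
    have h1 : Computable fun z : ((ℕ × ℕ) × (Tab × ((ℕ × List Bool) × ℕ))) × (ℕ × ℕ × ℕ) =>
        z.2.2.2 := by fun_prop
    have hn : Computable fun z : ((ℕ × ℕ) × (Tab × ((ℕ × List Bool) × ℕ))) × (ℕ × ℕ × ℕ) =>
        z.1.1.2 := by fun_prop
    have hv : Computable fun z : ((ℕ × ℕ) × (Tab × ((ℕ × List Bool) × ℕ))) × (ℕ × ℕ × ℕ) =>
        z.1.2.2.2 := by fun_prop
    have hdd : Computable fun z : ((ℕ × ℕ) × (Tab × ((ℕ × List Bool) × ℕ))) × (ℕ × ℕ × ℕ) =>
        z.1.2.2.1.1 := by fun_prop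
    refine Pool.Agent.Helper446.RE.and (Pool.Agent.Helper446.RE.and
      (Pool.Agent.Helper446.RE.and (Pool.Agent.Helper446.RE.eq hdd (cadd hd (cconst 1))) ?_) ?_) ?_
    · exact Pool.Agent.Helper446.RE.mem_list (cpair (cpair hd (cappend hx (cconst _))) h0) hT
    · exact Pool.Agent.Helper446.RE.mem_list (cpair (cpair hd (cappend hx (cconst _))) h1) hT
    · refine Pool.Agent.Helper446.RE.eq hv ?_
      exact cmin (comp_pow2 (csub (he.comp hn) (he.comp (clength hx)))) (cadd h0 h1)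

theorem cont_comp (he : Computable e) (hB : Computable₂ B) :
    Computable fun a : (ℕ × ℕ) × (ℕ × List Bool) => cont e (B a.1.1) a.1.2 a.2.1 a.2.2 := by
  have h1 : REPred fun x : ((ℕ × ℕ) × (ℕ × List Bool)) × ℕ =>
      ∃ T : Tab, (x.1.2, x.2) ∈ T ∧ ∀ t ∈ T, Good e B x.1.1.1 x.1.1.2 T t := by
    refine Pool.Agent.Helper446.RE.ex (p := fun (x : ((ℕ × ℕ) × (ℕ × List Bool)) × ℕ) (T : Tab) =>
      (x.1.2, x.2) ∈ T ∧ ∀ t ∈ T, Good e B x.1.1.1 x.1.1.2 T t) ?_
    refine Pool.Agent.Helper446.RE.and ?_ ?_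
    · exact Pool.Agent.Helper446.RE.mem_list (by fun_prop) (by fun_prop)
    · refine Pool.Agent.Helper446.RE.all_mem (p := fun (x : (((ℕ × ℕ) × (ℕ × List Bool)) × ℕ) × Tab)
        (t : (ℕ × List Bool) × ℕ) => Good e B x.1.1.1.1 x.1.1.1.2 x.2 t) ?_ (by fun_prop)
      exact Pool.Agent.Helper446.RE.comp (good_re he hB)
        (f := fun x : ((((ℕ × ℕ) × (ℕ × List Bool)) × ℕ) × Tab) × ((ℕ × List Bool) × ℕ) =>
          ((x.1.1.1.1.1, x.1.1.1.1.2), (x.1.2, x.2))) (by fun_prop)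
  refine computable_of_graph (h1.of_eq fun x => ?_)
  obtain ⟨⟨⟨j, n⟩, d, x⟩, v⟩ := x
  simp only
  constructor
  · rintro ⟨T, h1, h2⟩
    exact good_correct h2 d x v h1
  · rintro rfl
    exact exists_table j n d x

theorem sat_comp (he : Computable e) (hB : Computable₂ B) {α : Type*} [Primcodable α]
    {j n : α → ℕ} {x : α → List Bool} (hj : Computable j) (hn : Computable n) (hx : Computable x) :
    Computable fun a => sat e (B (j a)) (n a) (x a) := by
  unfold sat
  refine cand (comp_dle (by fun_prop) hn) (comp_dle (comp_pow2 (csub (he.comp hn)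
    (he.comp (clength hx)))) ?_)
  exact (cont_comp he hB).comp (g := fun a => ((j a, n a), (n a - (x a).length, x a)))
    (cpair (cpair hj hn) (cpair (csub hn (clength hx)) hx))

theorem act_comp (he : Computable e) (hB : Computable₂ B) {α : Type*} [Primcodable α]
    {j n : α → ℕ} {x : α → List Bool} (hj : Computable j) (hn : Computable n) (hx : Computable x) :
    Computable fun a => act e (B (j a)) (n a) (x a) := by
  unfold act
  refine cand (sat_comp he hB hj hn hx) ?_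
  refine Pool.Agent.Helper344.CL.list_all (comp_lrange (clength hx)) ?_
  refine cnot (sat_comp he hB (hj.comp Computable.fst) (hn.comp Computable.fst) ?_)
  exact comp_take (hx.comp Computable.fst) Computable.snd

end comp

theorem cover {U : List Bool →. List Bool} (hU : IsUniversal U) {e : ℕ → ℕ}
    {B : ℕ → List Bool → Bool} (hec : Computable e) (hBc : Computable₂ B)
    (he : ∀ m, e m ≤ e (m + 1)) (he' : ∀ m, e (m + 1) ≤ e m + 1)
    (hB : ∀ j x b, B j x = true → B j (x ++ [b]) = true) {b : ℕ} (hb : 0 < b) (a : ℕ)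
    (hmass : ∀ (j r : ℕ) (w : List Bool → ℝ), Frost e (2 * r) w →
      (∀ x, x.length = 2 * r → w x ≠ 0 → B j x = true) →
        ∑ x ∈ St (2 * r), w x ≤ 2 ^ a * (1 / 4) ^ j) :
    ∃ C : ℕ, ∀ (j : ℕ) (x : List Bool), B j x = true →
      ∃ k ≤ x.length, KU U (x.take k) + j ≤ e k + k / (2 * b) + C := by
  classical
  have hmono : ∀ m k, m ≤ k → e m ≤ e k := fun m k h => monotone_nat_of_le_succ he h
  -- the number of active nodes
  have hcount : ∀ j r k, k ≤ 2 * r → (ea e (B j) (2 * r) k [] : ℝ) ≤ 2 ^ e k * (2 ^ a * (1 / 4) ^ j) := by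
    intro j r k hk
    obtain ⟨w, w1, w2, w3, w4⟩ := exists_weight (B := B j) he (2 * r) (2 * r) [] (by simp)
      ((cont e (B j) (2 * r) (2 * r) [] : ℝ) * (1 / 2) ^ e (2 * r)) (by positivity) le_rfl
    have h1 := hmass j r w ⟨w1, fun k hk ρ hρ => by
      have := w4 k hk ρ hρ
      simpa using this⟩ (fun x _ hx => w2 x hx)
    rw [w3] at h1
    have h2 := ea_le he he' (hB j) (2 * r) k [] (by simpa using hk)
    simp only [List.length_nil, Nat.zero_add, Nat.sub_zero] at h2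
    have h3 : (ea e (B j) (2 * r) k [] : ℝ) * 2 ^ (e (2 * r) - e k) ≤
        (cont e (B j) (2 * r) (2 * r) [] : ℝ) := by exact_mod_cast h2
    have h4 : (2 : ℝ) ^ (e (2 * r) - e k) = 2 ^ e (2 * r) * (1 / 2) ^ e k := by
      have h5 : (2 : ℝ) ^ e (2 * r) = 2 ^ (e (2 * r) - e k) * 2 ^ e k := by
        rw [← pow_add]; congr 1; have := hmono _ _ hk; omega
      rw [h5, mul_assoc, ← mul_pow]
      norm_num
    have h5 : (1 / 2 : ℝ) ^ e (2 * r) * 2 ^ e (2 * r) = 1 := by rw [← mul_pow]; norm_num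
    have h6 : (1 / 2 : ℝ) ^ e k * 2 ^ e k = 1 := by rw [← mul_pow]; norm_num
    have h7 : (ea e (B j) (2 * r) k [] : ℝ) * (1 / 2) ^ e k ≤ 2 ^ a * (1 / 4) ^ j := by
      refine le_trans ?_ h1
      have h8 := mul_le_mul_of_nonneg_right h3 (by positivity : (0 : ℝ) ≤ (1 / 2) ^ e (2 * r))
      refine le_trans (le_of_eq ?_) h8
      rw [h4]
      calc (ea e (B j) (2 * r) k [] : ℝ) * (1 / 2) ^ e k =
          (ea e (B j) (2 * r) k [] : ℝ) * (1 / 2) ^ e k * ((1 / 2) ^ e (2 * r) * 2 ^ e (2 * r)) := by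
            rw [h5, mul_one]
        _ = _ := by ring
    calc (ea e (B j) (2 * r) k [] : ℝ) = (ea e (B j) (2 * r) k [] : ℝ) * ((1 / 2) ^ e k * 2 ^ e k) := by
          rw [h6, mul_one]
      _ = (ea e (B j) (2 * r) k [] : ℝ) * (1 / 2) ^ e k * 2 ^ e k := by ring
      _ ≤ 2 ^ a * (1 / 4) ^ j * 2 ^ e k := mul_le_mul_of_nonneg_right h7 (by positivity)
      _ = _ := by ring
  obtain ⟨A, hA⟩ : ∃ A, A = a + 3 + b := ⟨_, rfl⟩
  obtain ⟨C, hC⟩ := kc_re hU (fun x => ∃ j, ∃ n, act e (B j) n x.1 = true ∧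
      x.2 = e x.1.length + x.1.length / (2 * b) + A - j) (by
    refine exN (p := fun (x : List Bool × ℕ) j => ∃ n, act e (B j) n x.1 = true ∧
      x.2 = e x.1.length + x.1.length / (2 * b) + A - j) ?_
    refine exN (p := fun (y : (List Bool × ℕ) × ℕ) n => act e (B y.2) n y.1.1 = true ∧
      y.1.2 = e y.1.1.length + y.1.1.length / (2 * b) + A - y.2) ?_
    refine Pool.Agent.Helper446.RE.and (Pool.Agent.Helper446.RE.of_bool ?_)
      (Pool.Agent.Helper446.RE.eq (by fun_prop) ?_)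
    · exact act_comp hec hBc (by fun_prop) (by fun_prop) (by fun_prop)
    · refine csub (cadd (cadd (hec.comp (by fun_prop)) ?_) (cconst _)) (by fun_prop)
      exact Primrec.nat_div.to_comp.comp (by fun_prop) (cconst _)) (by
    intro T hT
    choose! jf nf hact hreq using hT
    obtain ⟨N, hN⟩ : ∃ N, N = T.sup nf := ⟨_, rfl⟩
    have hNle : ∀ x ∈ T, nf x ≤ N := fun x hx => by rw [hN]; exact Finset.le_sup hx
    have hlen : ∀ x ∈ T, x.1.length ≤ N := fun x hx =>
      (sat_iff.1 (act_iff.1 (hact x hx)).1).1.trans (hNle x hx)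
    obtain ⟨J, hJ⟩ : ∃ J, J = T.sup jf := ⟨_, rfl⟩
    have hJle : ∀ x ∈ T, jf x ≤ J := fun x hx => by rw [hJ]; exact Finset.le_sup hx
    rw [← Finset.sum_fiberwise_of_maps_to (s := T)
      (t := Finset.range (J + 1) ×ˢ Finset.range (N + 1)) (g := fun x => (jf x, x.1.length))
      (fun x hx => by
        rw [Finset.mem_product, Finset.mem_range, Finset.mem_range]
        have := hJle x hx
        have := hlen x hx
        simp only
        omega)]
    have hfib : ∀ p ∈ Finset.range (J + 1) ×ˢ Finset.range (N + 1),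
        ∑ x ∈ T.filter (fun x => (jf x, x.1.length) = p), (1 / 2 : ℝ) ^ x.2 ≤
          (2 ^ a * (1 / 2) ^ A) * ((1 / 2) ^ p.1 * (1 / 2) ^ (p.2 / (2 * b))) := by
      rintro ⟨j, k⟩ hp
      rw [Finset.mem_product, Finset.mem_range, Finset.mem_range] at hp
      simp only at hp ⊢
      rcases (T.filter (fun x => (jf x, x.1.length) = (j, k))).eq_empty_or_nonempty with h0 | h0
      · rw [h0, Finset.sum_empty]; positivity
      have hcard : ((T.filter (fun x => (jf x, x.1.length) = (j, k))).card : ℝ) ≤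
          2 ^ e k * (2 ^ a * (1 / 4) ^ j) := by
        refine le_trans ?_ (hcount j N k (by omega))
        have : (T.filter (fun x => (jf x, x.1.length) = (j, k))).card ≤ ea e (B j) (2 * N) k [] := by
          unfold ea
          refine Finset.card_le_card_of_injOn Prod.fst ?_ ?_
          · intro x hx
            rw [Finset.mem_coe, Finset.mem_filter, Prod.mk.injEq] at hx
            obtain ⟨hx, hxj, hxk⟩ := hx
            rw [Finset.mem_coe, Finset.mem_filter, mem_St]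
            refine ⟨hxk, nf x, by have := hNle x hx; omega, ?_⟩
            rw [List.nil_append, ← hxj]
            exact hact x hx
          · intro x hx y hy hxy
            rw [Finset.mem_coe, Finset.mem_filter, Prod.mk.injEq] at hx hy
            refine Prod.ext hxy ?_
            rw [hreq x hx.1, hreq y hy.1, hx.2.1, hx.2.2, hy.2.1, hy.2.2]
        exact_mod_cast this
      have hj2 : 2 * j ≤ e k + a := by
        have h1 : (1 : ℝ) ≤ 2 ^ e k * (2 ^ a * (1 / 4) ^ j) := by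
          refine le_trans ?_ hcard
          exact_mod_cast h0.card_pos
        have h2 : (2 : ℝ) ^ (2 * j) ≤ 2 ^ (e k + a) := by
          have h3 : (1 / 4 : ℝ) ^ j * 2 ^ (2 * j) = 1 := by
            rw [pow_mul, ← mul_pow]; norm_num
          calc (2 : ℝ) ^ (2 * j) = 1 * 2 ^ (2 * j) := by ring
            _ ≤ 2 ^ e k * (2 ^ a * (1 / 4) ^ j) * 2 ^ (2 * j) :=
                mul_le_mul_of_nonneg_right h1 (by positivity)
            _ = 2 ^ e k * 2 ^ a * ((1 / 4) ^ j * 2 ^ (2 * j)) := by ring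
            _ = _ := by rw [h3, mul_one, pow_add]
        by_contra hc
        push Not at hc
        exact absurd h2 (not_le.2 (pow_lt_pow_right₀ (by norm_num) hc))
      have hval : ∀ x ∈ T.filter (fun x => (jf x, x.1.length) = (j, k)), (1 / 2 : ℝ) ^ x.2 =
          (1 / 2) ^ (e k + k / (2 * b) + A) * 2 ^ j := by
        intro x hx
        rw [Finset.mem_filter, Prod.mk.injEq] at hx
        rw [hreq x hx.1, hx.2.1, hx.2.2]
        have h1 : e k + k / (2 * b) + A = (e k + k / (2 * b) + A - j) + j := by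
          obtain ⟨m, hm⟩ : ∃ m, m = k / (2 * b) := ⟨_, rfl⟩
          rw [← hm]
          omega
        have h2 : (1 / 2 : ℝ) ^ j * 2 ^ j = 1 := by rw [← mul_pow]; norm_num
        conv_rhs => rw [h1, pow_add, mul_assoc, h2, mul_one]
      rw [Finset.sum_congr rfl hval, Finset.sum_const, nsmul_eq_mul]
      calc _ ≤ (2 ^ e k * (2 ^ a * (1 / 4) ^ j)) * ((1 / 2) ^ (e k + k / (2 * b) + A) * 2 ^ j) :=
            mul_le_mul_of_nonneg_right hcard (by positivity)
        _ = ((2 * (1 / 2)) ^ e k) * (2 ^ a * (1 / 2) ^ A) * (((1 / 4) * 2) ^ j *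
              (1 / 2) ^ (k / (2 * b))) := by
            rw [pow_add, pow_add, mul_pow, mul_pow]; ring
        _ = _ := by norm_num
    refine (Finset.sum_le_sum hfib).trans ?_
    rw [← Finset.mul_sum, Finset.sum_product]
    simp only
    have h1 : ∑ j ∈ Finset.range (J + 1), ∑ k ∈ Finset.range (N + 1),
        (1 / 2 : ℝ) ^ j * (1 / 2) ^ (k / (2 * b)) =
        (∑ j ∈ Finset.range (J + 1), (1 / 2 : ℝ) ^ j) *
          ∑ k ∈ Finset.range (N + 1), (1 / 2 : ℝ) ^ (k / (2 * b)) := by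
      rw [Finset.sum_mul_sum]
    rw [h1]
    have h2 : ∑ j ∈ Finset.range (J + 1), (1 / 2 : ℝ) ^ j ≤ 2 := by
      have := Pool.Agent.X234.TD.geom_half (Finset.range (J + 1))
      have h3 : ∑ j ∈ Finset.range (J + 1), (1 / 2 : ℝ) ^ (j + 1) =
          (1 / 2) * ∑ j ∈ Finset.range (J + 1), (1 / 2 : ℝ) ^ j := by
        rw [Finset.mul_sum]
        exact Finset.sum_congr rfl fun j _ => by rw [pow_succ]; ring
      rw [h3] at this
      linarith
    have h3 := geo_div (b := 2 * b) (by omega) (N + 1)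
    have h4 : (b : ℝ) ≤ 2 ^ b := by exact_mod_cast (Nat.lt_two_pow_self (n := b)).le
    calc 2 ^ a * (1 / 2) ^ A * ((∑ j ∈ Finset.range (J + 1), (1 / 2 : ℝ) ^ j) *
          ∑ k ∈ Finset.range (N + 1), (1 / 2 : ℝ) ^ (k / (2 * b)))
        ≤ 2 ^ a * (1 / 2) ^ A * (2 * (2 * ((2 * b : ℕ) : ℝ))) := by
          refine mul_le_mul_of_nonneg_left ?_ (by positivity)
          exact mul_le_mul h2 h3 (Finset.sum_nonneg fun _ _ => by positivity) (by norm_num)
      _ = 2 ^ a * (1 / 2) ^ A * (8 * b) := by push_cast; ring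
      _ ≤ 2 ^ a * (1 / 2) ^ A * (8 * 2 ^ b) := by gcongr
      _ = 1 := by
          rw [hA, pow_add, pow_add]
          have e1 : (2 : ℝ) ^ a * (1 / 2) ^ a = 1 := by rw [← mul_pow]; norm_num
          have e2 : (1 / 2 : ℝ) ^ b * 2 ^ b = 1 := by rw [← mul_pow]; norm_num
          calc (2 : ℝ) ^ a * ((1 / 2) ^ a * (1 / 2) ^ 3 * (1 / 2) ^ b) * (8 * 2 ^ b)
              = (2 ^ a * (1 / 2) ^ a) * ((1 / 2) ^ b * 2 ^ b) * ((1 / 2) ^ 3 * 8) := by ring
            _ = 1 := by rw [e1, e2]; norm_num)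
  refine ⟨A + C, fun j x hx => ?_⟩
  -- the first saturated initial segment
  have hsx : sat e (B j) x.length x = true := by
    rw [sat_iff]
    refine ⟨le_rfl, ?_⟩
    rw [Nat.sub_self, cont, if_pos hx]
    simp
  have hex : ∃ k, sat e (B j) x.length (x.take k) = true := ⟨x.length, by rw [List.take_length]; exact hsx⟩
  obtain ⟨k, hk⟩ : ∃ k, k = Nat.find hex := ⟨_, rfl⟩
  have hk1 : sat e (B j) x.length (x.take k) = true := by rw [hk]; exact Nat.find_spec hex
  have hk2 : k ≤ x.length := by rw [hk]; exact Nat.find_le (by rw [List.take_length]; exact hsx)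
  have hlen : (x.take k).length = k := by rw [List.length_take]; omega
  have hact : act e (B j) x.length (x.take k) = true := by
    rw [act_iff]
    refine ⟨hk1, fun i hi => ?_⟩
    rw [hlen] at hi
    rw [List.take_take, min_eq_left hi.le, ← Bool.not_eq_true]
    exact Nat.find_min hex (by rw [← hk]; exact hi)
  refine ⟨k, hk2, ?_⟩
  have h1 := hC (x.take k, e k + k / (2 * b) + A - j) ⟨j, x.length, hact, by rw [hlen]⟩
  simp only at h1
  -- `j` is small
  have hj2 : 2 * j ≤ e k + a := by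
    have h2 : (1 : ℝ) ≤ ea e (B j) (2 * x.length) k [] := by
      have : 0 < ea e (B j) (2 * x.length) k [] := by
        unfold ea
        rw [Finset.card_pos]
        refine ⟨x.take k, ?_⟩
        rw [Finset.mem_filter, mem_St]
        exact ⟨hlen, x.length, by omega, by rw [List.nil_append]; exact hact⟩
      exact_mod_cast this
    have h3 := h2.trans (hcount j x.length k (by omega))
    have h4 : (2 : ℝ) ^ (2 * j) ≤ 2 ^ (e k + a) := by
      have h3' : (1 / 4 : ℝ) ^ j * 2 ^ (2 * j) = 1 := by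
        rw [pow_mul, ← mul_pow]; norm_num
      calc (2 : ℝ) ^ (2 * j) = 1 * 2 ^ (2 * j) := by ring
        _ ≤ 2 ^ e k * (2 ^ a * (1 / 4) ^ j) * 2 ^ (2 * j) :=
            mul_le_mul_of_nonneg_right h3 (by positivity)
        _ = 2 ^ e k * 2 ^ a * ((1 / 4) ^ j * 2 ^ (2 * j)) := by ring
        _ = _ := by rw [h3', mul_one, pow_add]
    by_contra hc
    push Not at hc
    exact absurd h4 (not_le.2 (pow_lt_pow_right₀ (by norm_num) hc))
  obtain ⟨m, hm⟩ : ∃ m, m = k / (2 * b) := ⟨_, rfl⟩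
  rw [← hm] at h1 ⊢
  omega

end Pool.Agent.X234.PJ
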