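import Pool.Agent.Helper227.Meas
import Pool.Agent.X234.KR.Sum

/-!
Strings as nodes of the dyadic trees.
-/

set_option autoImplicit false

namespace Pool.Agent.X234.PJ

open Finset Pool.Agent.Helper227
open Pool.Agent.Helper446.RE Pool.Agent.X234.KR

/-- the strings of length `n` -/
def St (n : ℕ) : Finset (List Bool) := (allStr n).toFinset

@[simp] theorem mem_St {n : ℕ} {x : List Bool} : x ∈ St n ↔ x.length = n := by
  unfold St
  rw [List.mem_toFinset, mem_allStr]

theorem card_St (n : ℕ) : (St n).card = 2 ^ n := by
  unfold St
  rw [List.toFinset_card_of_nodup (nodup_allStr n), length_allStr]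

theorem sum_St_succ {R : Type*} [AddCommMonoid R] (n : ℕ) (F : List Bool → R) :
    ∑ x ∈ St (n + 1), F x = ∑ x ∈ St n, F (false :: x) + ∑ x ∈ St n, F (true :: x) := by
  classical
  have h1 : St (n + 1) = ((St n).image (List.cons false)) ∪ ((St n).image (List.cons true)) := by
    ext x
    rw [Finset.mem_union, Finset.mem_image, Finset.mem_image, mem_St]
    constructor
    · intro h
      cases x with
      | nil => simp at h
      | cons b x =>
        have hx : x ∈ St n := by rw [mem_St]; simpa using h
        cases b
        · exact Or.inl ⟨x, hx, rfl⟩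
        · exact Or.inr ⟨x, hx, rfl⟩
    · rintro (⟨y, hy, rfl⟩ | ⟨y, hy, rfl⟩) <;>
      · rw [mem_St] at hy
        simp [hy]
  rw [h1, Finset.sum_union, Finset.sum_image, Finset.sum_image]
  · intro x _ y _ h; simpa using h
  · intro x _ y _ h; simpa using h
  · rw [Finset.disjoint_left]
    intro x hx hy
    obtain ⟨y, _, rfl⟩ := Finset.mem_image.1 hx
    obtain ⟨z, _, h⟩ := Finset.mem_image.1 hy
    simp at h

/-- the binary digits of `u`, the last `r` ones -/
def nb : ℕ → ℕ → List Bool
  | 0, _ => []
  | r + 1, u => nb r (u / 2) ++ [decide (u % 2 = 1)]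

@[simp] theorem length_nb (r u : ℕ) : (nb r u).length = r := by
  induction r generalizing u with
  | zero => rfl
  | succ r ih => simp [nb, ih]

theorem nb_take {r s : ℕ} (h : s ≤ r) (u : ℕ) : (nb r u).take s = nb s (u / 2 ^ (r - s)) := by
  induction r generalizing u with
  | zero =>
    obtain rfl : s = 0 := by omega
    rfl
  | succ r ih =>
    rcases Nat.lt_or_ge r s with h1 | h1
    · obtain rfl : s = r + 1 := by omega
      rw [Nat.sub_self, pow_zero, Nat.div_one, List.take_of_length_le (by simp)]
    · rw [nb, List.take_append_of_le_length (by simpa using h1), ih h1, Nat.div_div_eq_div_mul,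
        ← pow_succ', show r - s + 1 = r + 1 - s by omega]

theorem nb_mod (r u : ℕ) : nb r (u % 2 ^ r) = nb r u := by
  induction r generalizing u with
  | zero => rfl
  | succ r ih =>
    rw [nb, nb]
    have h1 : u % 2 ^ (r + 1) / 2 = u / 2 % 2 ^ r := by
      rw [pow_succ', Nat.mod_mul_right_div_self]
    have h2 : u % 2 ^ (r + 1) % 2 = u % 2 := by
      rw [pow_succ']
      exact Nat.mod_mul_right_mod _ _ _
    rw [h1, h2, ih]

theorem nb_inj {r u u' : ℕ} (hu : u < 2 ^ r) (hu' : u' < 2 ^ r) (h : nb r u = nb r u') : u = u' := by
  induction r generalizing u u' with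
  | zero => omega
  | succ r ih =>
    rw [nb, nb] at h
    have h1 := List.append_inj h (by simp)
    have h2 : u / 2 = u' / 2 := ih (by rw [pow_succ] at hu; omega) (by rw [pow_succ] at hu'; omega) h1.1
    have h3 : decide (u % 2 = 1) = decide (u' % 2 = 1) := by simpa using h1.2
    have h4 : (u % 2 = 1) ↔ (u' % 2 = 1) := decide_eq_decide.1 h3
    omega

theorem exists_nb {r : ℕ} {x : List Bool} (hx : x.length = r) : ∃ u < 2 ^ r, nb r u = x := by
  classical
  have h1 : (Finset.range (2 ^ r)).image (nb r) = St r := by
    refine Finset.eq_of_subset_of_card_le ?_ ?_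
    · intro y hy
      obtain ⟨u, _, rfl⟩ := Finset.mem_image.1 hy
      simp
    · rw [Finset.card_image_of_injOn, card_St, Finset.card_range]
      intro u hu u' hu' h
      rw [Finset.mem_coe, Finset.mem_range] at hu hu'
      exact nb_inj hu hu' h
  have h2 : x ∈ (Finset.range (2 ^ r)).image (nb r) := by rw [h1, mem_St]; exact hx
  obtain ⟨u, hu, h3⟩ := Finset.mem_image.1 h2
  exact ⟨u, Finset.mem_range.1 hu, h3⟩

theorem card_nb (r : ℕ) (p : List Bool → Bool) :
    ((Finset.range (2 ^ r)).filter fun u => p (nb r u) = true).card =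
      ((St r).filter fun x => p x = true).card := by
  classical
  refine Finset.card_bij (fun u _ => nb r u) ?_ ?_ ?_
  · intro u hu
    rw [Finset.mem_filter] at hu ⊢
    exact ⟨by simp, hu.2⟩
  · intro u hu u' hu' h
    rw [Finset.mem_filter, Finset.mem_range] at hu hu'
    exact nb_inj hu.1 hu'.1 h
  · intro x hx
    rw [Finset.mem_filter, mem_St] at hx
    obtain ⟨u, hu, rfl⟩ := exists_nb hx.1
    exact ⟨u, Finset.mem_filter.2 ⟨Finset.mem_range.2 hu, hx.2⟩, rfl⟩

theorem card_nb_mul (r K : ℕ) (p : List Bool → Bool) :
    ((Finset.range (K * 2 ^ r)).filter fun u => p (nb r u) = true).card =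
      K * ((St r).filter fun x => p x = true).card := by
  classical
  induction K with
  | zero => simp
  | succ K ih =>
    have h1 : (Finset.range ((K + 1) * 2 ^ r)).filter (fun u => p (nb r u) = true) =
        ((Finset.range (K * 2 ^ r)).filter fun u => p (nb r u) = true) ∪
        (((Finset.range (2 ^ r)).filter fun u => p (nb r u) = true).image fun u => u + K * 2 ^ r) := by
      ext u
      rw [Finset.mem_union, Finset.mem_image, Finset.mem_filter, Finset.mem_filter,
        Finset.mem_range, Finset.mem_range]
      have hnb : ∀ t, nb r (t + K * 2 ^ r) = nb r t := by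
        intro t
        rw [← nb_mod r (t + K * 2 ^ r), Nat.add_mul_mod_self_right, nb_mod]
      constructor
      · rintro ⟨h2, h3⟩
        rcases Nat.lt_or_ge u (K * 2 ^ r) with h4 | h4
        · exact Or.inl ⟨h4, h3⟩
        · right
          refine ⟨u - K * 2 ^ r, ?_, by omega⟩
          rw [Finset.mem_filter, Finset.mem_range]
          refine ⟨by rw [Nat.add_mul] at h2; omega, ?_⟩
          rw [← hnb, show u - K * 2 ^ r + K * 2 ^ r = u by omega]
          exact h3
      · rintro (⟨h2, h3⟩ | ⟨t, ht, rfl⟩)
        · exact ⟨by rw [Nat.add_mul]; omega, h3⟩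
        · rw [Finset.mem_filter, Finset.mem_range] at ht
          refine ⟨by rw [Nat.add_mul]; omega, ?_⟩
          rw [hnb]
          exact ht.2
    rw [h1, Finset.card_union_of_disjoint, ih, Finset.card_image_of_injective, card_nb, Nat.add_mul,
      one_mul]
    · intro s t h
      simpa using h
    · rw [Finset.disjoint_left]
      intro u hu hu'
      rw [Finset.mem_filter, Finset.mem_range] at hu
      obtain ⟨t, _, rfl⟩ := Finset.mem_image.1 hu'
      omega

/-- the value of the even digits -/
def evn (x : List Bool) : ℕ → ℕ
  | 0 => 0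
  | r + 1 => 2 * evn x r + (x.getD (2 * r) false).toNat

/-- the value of the odd digits -/
def odn (x : List Bool) : ℕ → ℕ
  | 0 => 0
  | r + 1 => 2 * odn x r + (x.getD (2 * r + 1) false).toNat

theorem evn_lt (x : List Bool) (r : ℕ) : evn x r < 2 ^ r := by
  induction r with
  | zero => simp [evn]
  | succ r ih =>
    rw [evn, pow_succ]
    have := Bool.toNat_le (x.getD (2 * r) false)
    omega

theorem odn_lt (x : List Bool) (r : ℕ) : odn x r < 2 ^ r := by
  induction r with
  | zero => simp [odn]
  | succ r ih =>
    rw [odn, pow_succ]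
    have := Bool.toNat_le (x.getD (2 * r + 1) false)
    omega

theorem getD_take' {x : List Bool} {i k : ℕ} (h : i < k) : (x.take k).getD i false = x.getD i false := by
  simp only [List.getD_eq_getElem?_getD, List.getElem?_take]
  rw [if_pos h]

theorem evn_take {x : List Bool} {r k : ℕ} (h : 2 * r ≤ k) : evn (x.take k) r = evn x r := by
  induction r with
  | zero => rfl
  | succ r ih => rw [evn, evn, ih (by omega), getD_take' (by omega)]

theorem odn_take {x : List Bool} {r k : ℕ} (h : 2 * r ≤ k) : odn (x.take k) r = odn x r := by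
  induction r with
  | zero => rfl
  | succ r ih => rw [odn, odn, ih (by omega), getD_take' (by omega)]

theorem evn_div {x : List Bool} {r k : ℕ} (h : k ≤ r) : evn x r / 2 ^ (r - k) = evn x k := by
  induction r with
  | zero =>
    obtain rfl : k = 0 := by omega
    simp
  | succ r ih =>
    rcases Nat.lt_or_ge r k with h1 | h1
    · obtain rfl : k = r + 1 := by omega
      simp
    · rw [show r + 1 - k = (r - k) + 1 by omega, pow_succ', ← Nat.div_div_eq_div_mul, evn]
      have := Bool.toNat_le (x.getD (2 * r) false)
      rw [show (2 * evn x r + (x.getD (2 * r) false).toNat) / 2 = evn x r by omega]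
      exact ih h1

theorem odn_div {x : List Bool} {r k : ℕ} (h : k ≤ r) : odn x r / 2 ^ (r - k) = odn x k := by
  induction r with
  | zero =>
    obtain rfl : k = 0 := by omega
    simp
  | succ r ih =>
    rcases Nat.lt_or_ge r k with h1 | h1
    · obtain rfl : k = r + 1 := by omega
      simp
    · rw [show r + 1 - k = (r - k) + 1 by omega, pow_succ', ← Nat.div_div_eq_div_mul, odn]
      have := Bool.toNat_le (x.getD (2 * r + 1) false)
      rw [show (2 * odn x r + (x.getD (2 * r + 1) false).toNat) / 2 = odn x r by omega]
      exact ih h1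

theorem evn_bits {x y : List Bool} {r : ℕ} (h : evn x r = evn y r) :
    ∀ i < r, x.getD (2 * i) false = y.getD (2 * i) false := by
  induction r with
  | zero => intro i hi; omega
  | succ r ih =>
    rw [evn, evn] at h
    have h1 := Bool.toNat_le (x.getD (2 * r) false)
    have h2 := Bool.toNat_le (y.getD (2 * r) false)
    have h3 : evn x r = evn y r := by omega
    have h4 : (x.getD (2 * r) false).toNat = (y.getD (2 * r) false).toNat := by omega
    intro i hi
    rcases Nat.lt_or_ge i r with h5 | h5
    · exact ih h3 i h5
    · obtain rfl : i = r := by omega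
      revert h4
      cases x.getD (2 * i) false <;> cases y.getD (2 * i) false <;> simp

theorem odn_bits {x y : List Bool} {r : ℕ} (h : odn x r = odn y r) :
    ∀ i < r, x.getD (2 * i + 1) false = y.getD (2 * i + 1) false := by
  induction r with
  | zero => intro i hi; omega
  | succ r ih =>
    rw [odn, odn] at h
    have h1 := Bool.toNat_le (x.getD (2 * r + 1) false)
    have h2 := Bool.toNat_le (y.getD (2 * r + 1) false)
    have h3 : odn x r = odn y r := by omega
    have h4 : (x.getD (2 * r + 1) false).toNat = (y.getD (2 * r + 1) false).toNat := by omega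
    intro i hi
    rcases Nat.lt_or_ge i r with h5 | h5
    · exact ih h3 i h5
    · obtain rfl : i = r := by omega
      revert h4
      cases x.getD (2 * i + 1) false <;> cases y.getD (2 * i + 1) false <;> simp

theorem eq_of_evn_odn {x y : List Bool} {r : ℕ} (hx : x.length = 2 * r) (hy : y.length = 2 * r)
    (h1 : evn x r = evn y r) (h2 : odn x r = odn y r) : x = y := by
  refine List.ext_getElem (by rw [hx, hy]) fun i hi hi' => ?_
  have e1 : x[i] = x.getD i false := by rw [List.getD_eq_getElem _ _ hi]
  have e2 : y[i] = y.getD i false := by rw [List.getD_eq_getElem _ _ hi']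
  rw [e1, e2]
  rcases Nat.even_or_odd' i with ⟨j, hj | hj⟩
  · rw [hj]; exact evn_bits h1 j (by omega)
  · rw [hj]; exact odn_bits h2 j (by omega)

/-! ### computability -/

theorem comp_getDb {α : Type*} [Primcodable α] {x : α → List Bool} {i : α → ℕ} (hx : Computable x)
    (hi : Computable i) : Computable fun a => (x a).getD (i a) false :=
  (Primrec.list_getD false).to_comp.comp hx hi

theorem comp_toNat {α : Type*} [Primcodable α] {x : α → Bool} (hx : Computable x) :
    Computable fun a => (x a).toNat :=
  (Primrec.dom_bool Bool.toNat).to_comp.comp hx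

theorem comp_evn {α : Type*} [Primcodable α] {x : α → List Bool} {r : α → ℕ} (hx : Computable x)
    (hr : Computable r) : Computable fun a => evn (x a) (r a) := by
  have h1 : Computable fun a => (Nat.rec 0 (fun k IH => 2 * IH + ((x a).getD (2 * k) false).toNat)
      (r a) : ℕ) := by
    refine Computable.nat_rec (f := r) (g := fun _ => (0 : ℕ))
      (h := fun a p => 2 * p.2 + ((x a).getD (2 * p.1) false).toNat) hr (Computable.const _) ?_
    have hx' : Computable fun p : α × (ℕ × ℕ) => x p.1 := hx.comp Computable.fst
    exact cadd (cmul (cconst 2) (by fun_prop)) (comp_toNat (comp_getDb hx' (by fun_prop)))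
  refine h1.of_eq fun a => ?_
  induction r a with
  | zero => rfl
  | succ k ih => simp only [ih, evn]

theorem comp_odn {α : Type*} [Primcodable α] {x : α → List Bool} {r : α → ℕ} (hx : Computable x)
    (hr : Computable r) : Computable fun a => odn (x a) (r a) := by
  have h1 : Computable fun a => (Nat.rec 0 (fun k IH => 2 * IH + ((x a).getD (2 * k + 1) false).toNat)
      (r a) : ℕ) := by
    refine Computable.nat_rec (f := r) (g := fun _ => (0 : ℕ))
      (h := fun a p => 2 * p.2 + ((x a).getD (2 * p.1 + 1) false).toNat) hr (Computable.const _) ?_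
    have hx' : Computable fun p : α × (ℕ × ℕ) => x p.1 := hx.comp Computable.fst
    exact cadd (cmul (cconst 2) (by fun_prop)) (comp_toNat (comp_getDb hx' (by fun_prop)))
  refine h1.of_eq fun a => ?_
  induction r a with
  | zero => rfl
  | succ k ih => simp only [ih, odn]

theorem nb_eq_map (r u : ℕ) : nb r u = (List.range r).map fun i => decide (u / 2 ^ (r - 1 - i) % 2 = 1) := by
  induction r generalizing u with
  | zero => rfl
  | succ r ih =>
    rw [nb, ih, List.range_succ, List.map_append]
    congr 1
    · refine List.map_congr_left fun i hi => ?_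
      rw [List.mem_range] at hi
      rw [Nat.div_div_eq_div_mul, ← pow_succ', show r - 1 - i + 1 = r + 1 - 1 - i by omega]
    · simp

theorem comp_nb {α : Type*} [Primcodable α] {r u : α → ℕ} (hr : Computable r)
    (hu : Computable u) : Computable fun a => nb (r a) (u a) := by
  have h1 : Computable fun a => (List.range (r a)).map fun i =>
      decide (u a / 2 ^ (r a - 1 - i) % 2 = 1) := by
    refine Pool.Agent.Helper344.CL.list_map (comp_lrange hr) ?_
    show Computable fun p : α × ℕ => decide (u p.1 / 2 ^ (r p.1 - 1 - p.2) % 2 = 1)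
    have hr' : Computable fun p : α × ℕ => r p.1 := hr.comp Computable.fst
    have hu' : Computable fun p : α × ℕ => u p.1 := hu.comp Computable.fst
    have h2 : Computable fun p : α × ℕ => u p.1 / 2 ^ (r p.1 - 1 - p.2) :=
      Primrec.nat_div.to_comp.comp hu' (comp_pow2 (csub (csub hr' (cconst 1)) Computable.snd))
    exact Pool.Agent.Helper344.CL.decide_eq'.comp (Primrec.nat_mod.to_comp.comp h2 (cconst 2))
      (cconst 1)
  exact h1.of_eq fun a => (nb_eq_map _ _).symm

end Pool.Agent.X234.PJ
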