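import Pool.Agent.X234.PJ.Cnt
import Pool.Agent.X234.PJ.Str

/-!
The energy estimate.
-/

set_option autoImplicit false

namespace Pool.Agent.X234.PJ

open Finset Pool.Agent.Helper227

/-- the exponents of the costs -/
def ex (b m : ℕ) : ℕ := m / 2 + (m + 1) / (2 * b)

theorem ex_two (b k : ℕ) : ex b (2 * k) = k + k / b := by
  unfold ex
  rw [← Nat.div_div_eq_div_mul]
  rw [show (2 * k + 1) / 2 = k by omega, show 2 * k / 2 = k by omega]

theorem ex_mono (b m : ℕ) : ex b m ≤ ex b (m + 1) := by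
  unfold ex
  have h1 : (m + 1) / (2 * b) ≤ (m + 1 + 1) / (2 * b) := Nat.div_le_div_right (by omega)
  omega

theorem ex_succ {b : ℕ} (hb : 0 < b) (m : ℕ) : ex b (m + 1) ≤ ex b m + 1 := by
  unfold ex
  rcases Nat.even_or_odd' m with ⟨k, hk | hk⟩
  · rw [hk, show (2 * k + 1) / 2 = k by omega, show 2 * k / 2 = k by omega]
    have h1 : (2 * k + 1 + 1) / (2 * b) = (k + 1) / b := by
      rw [← Nat.div_div_eq_div_mul, show (2 * k + 1 + 1) / 2 = k + 1 by omega]
    have h2 : (2 * k + 1) / (2 * b) = k / b := by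
      rw [← Nat.div_div_eq_div_mul, show (2 * k + 1) / 2 = k by omega]
    rw [h1, h2]
    have h3 : (k + 1) / b ≤ k / b + 1 := by
      calc (k + 1) / b ≤ (k + b) / b := Nat.div_le_div_right (by omega)
        _ = k / b + 1 := Nat.add_div_right k hb
    omega
  · rw [hk, show (2 * k + 1 + 1) / 2 = k + 1 by omega, show (2 * k + 1) / 2 = k by omega]
    have h1 : (2 * k + 1 + 1 + 1) / (2 * b) = (k + 1) / b := by
      rw [← Nat.div_div_eq_div_mul, show (2 * k + 1 + 1 + 1) / 2 = k + 1 by omega]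
    have h2 : (2 * k + 1 + 1) / (2 * b) = (k + 1) / b := by
      rw [← Nat.div_div_eq_div_mul, show (2 * k + 1 + 1) / 2 = k + 1 by omega]
    rw [h1, h2]
    omega

theorem geo_div {b : ℕ} (hb : 0 < b) (n : ℕ) :
    ∑ k ∈ Finset.range n, (1 / 2 : ℝ) ^ (k / b) ≤ 2 * b := by
  have h1 : ∀ M : ℕ, ∑ k ∈ Finset.range (b * M), (1 / 2 : ℝ) ^ (k / b) = 2 * b * (1 - (1 / 2) ^ M) := by
    intro M
    induction M with
    | zero => simp
    | succ M ih =>
      rw [Nat.mul_succ, Finset.sum_range_add, ih]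
      have h2 : ∀ i ∈ Finset.range b, (1 / 2 : ℝ) ^ ((b * M + i) / b) = (1 / 2) ^ M := by
        intro i hi
        rw [Finset.mem_range] at hi
        congr 1
        rw [Nat.mul_add_div hb, Nat.div_eq_of_lt hi, add_zero]
      rw [Finset.sum_congr rfl h2, Finset.sum_const, Finset.card_range, nsmul_eq_mul, pow_succ]
      ring
  have h2 : Finset.range n ⊆ Finset.range (b * n) :=
    Finset.range_subset_range.2 (Nat.le_mul_of_pos_left n hb)
  refine (Finset.sum_le_sum_of_subset_of_nonneg h2 fun _ _ _ => by positivity).trans ?_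
  rw [h1]
  have h3 : (0 : ℝ) ≤ (1 / 2) ^ n := by positivity
  have h4 : (0 : ℝ) ≤ b := Nat.cast_nonneg b
  nlinarith

/-- Frostman condition for weights on the strings of length `n` -/
def Frost (e : ℕ → ℕ) (n : ℕ) (w : List Bool → ℝ) : Prop :=
  (∀ x, 0 ≤ w x) ∧ ∀ k ≤ n, ∀ ρ : List Bool, ρ.length = k →
    ∑ x ∈ (St n).filter (fun x => x.take k = ρ), w x ≤ (1 / 2) ^ e k

/-- `x` and `y` have distance at most `2 ^ (-k)` -/
def Near (r k : ℕ) (x y : List Bool) : Prop :=
  (evn x r ≤ evn y r + 2 ^ (r - k) ∧ evn y r ≤ evn x r + 2 ^ (r - k)) ∧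
    (odn x r ≤ odn y r + 2 ^ (r - k) ∧ odn y r ≤ odn x r + 2 ^ (r - k))

theorem div_near {a c s : ℕ} (h : a ≤ c + 2 ^ s) : a / 2 ^ s ≤ c / 2 ^ s + 1 := by
  calc a / 2 ^ s ≤ (c + 2 ^ s) / 2 ^ s := Nat.div_le_div_right h
    _ = c / 2 ^ s + 1 := Nat.add_div_right c (Nat.two_pow_pos s)

open Classical in
/-- a Frostman weight is small on small squares -/
theorem near_weight {e : ℕ → ℕ} {r k : ℕ} (hk : k ≤ r) {w : List Bool → ℝ}
    (hw : Frost e (2 * r) w) (x : List Bool) :
    ∑ y ∈ (St (2 * r)).filter (fun y => Near r k x y), w y ≤ 9 * (1 / 2) ^ e (2 * k) := by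
  obtain ⟨T, hT⟩ : ∃ T, T = ((St (2 * r)).filter (fun y => Near r k x y)).image
      fun y => y.take (2 * k) := ⟨_, rfl⟩
  have h1 : ∑ y ∈ (St (2 * r)).filter (fun y => Near r k x y), w y =
      ∑ ρ ∈ T, ∑ y ∈ ((St (2 * r)).filter (fun y => Near r k x y)).filter
        (fun y => y.take (2 * k) = ρ), w y := by
    rw [Finset.sum_fiberwise_of_maps_to]
    intro y hy
    rw [hT]
    exact Finset.mem_image_of_mem _ hy
  have h2 : ∀ ρ ∈ T, ∑ y ∈ ((St (2 * r)).filter (fun y => Near r k x y)).filter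
        (fun y => y.take (2 * k) = ρ), w y ≤ (1 / 2) ^ e (2 * k) := by
    intro ρ hρ
    rw [hT] at hρ
    obtain ⟨y, hy, rfl⟩ := Finset.mem_image.1 hρ
    rw [Finset.mem_filter, mem_St] at hy
    refine le_trans ?_ (hw.2 (2 * k) (by omega) (y.take (2 * k)) (by
      rw [List.length_take]; omega))
    refine Finset.sum_le_sum_of_subset_of_nonneg ?_ fun _ _ _ => hw.1 _
    intro z hz
    rw [Finset.mem_filter, Finset.mem_filter] at hz
    rw [Finset.mem_filter]
    exact ⟨hz.1.1, hz.2⟩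
  have h3 : T.card ≤ 9 := by
    have h4 : T.card ≤ (Finset.Icc (evn x k - 1) (evn x k + 1) ×ˢ
        Finset.Icc (odn x k - 1) (odn x k + 1)).card := by
      refine Finset.card_le_card_of_injOn (fun ρ => (evn ρ k, odn ρ k)) ?_ ?_
      · intro ρ hρ
        rw [Finset.mem_coe, hT] at hρ
        obtain ⟨y, hy, rfl⟩ := Finset.mem_image.1 hρ
        rw [Finset.mem_filter, mem_St] at hy
        obtain ⟨_, ⟨n1, n2⟩, n3, n4⟩ := hy
        have m1 := div_near n1
        have m2 := div_near n2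
        have m3 := div_near n3
        have m4 := div_near n4
        rw [evn_div hk, evn_div hk] at m1 m2
        rw [odn_div hk, odn_div hk] at m3 m4
        rw [Finset.mem_coe, Finset.mem_product, Finset.mem_Icc, Finset.mem_Icc]
        simp only [evn_take le_rfl, odn_take le_rfl]
        omega
      · intro ρ hρ ρ' hρ' h
        rw [Finset.mem_coe, hT] at hρ hρ'
        obtain ⟨y, hy, rfl⟩ := Finset.mem_image.1 hρ
        obtain ⟨y', hy', rfl⟩ := Finset.mem_image.1 hρ'
        rw [Finset.mem_filter, mem_St] at hy hy'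
        simp only [Prod.mk.injEq] at h
        exact eq_of_evn_odn (by rw [List.length_take]; omega) (by rw [List.length_take]; omega)
          h.1 h.2
    rw [Finset.card_product, Nat.card_Icc, Nat.card_Icc] at h4
    have h5 : evn x k + 1 + 1 - (evn x k - 1) ≤ 3 := by omega
    have h6 : odn x k + 1 + 1 - (odn x k - 1) ≤ 3 := by omega
    exact h4.trans (Nat.mul_le_mul h5 h6)
  rw [h1]
  refine (Finset.sum_le_card_nsmul _ _ _ h2).trans ?_
  rw [nsmul_eq_mul]
  have h4 : (T.card : ℝ) ≤ 9 := by exact_mod_cast h3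
  exact mul_le_mul_of_nonneg_right h4 (by positivity)

/-- the number of directions in which `x` and `y` have equal approximate projections -/
def NN (v : ℕ × ℕ × ℕ × ℕ → ℕ) (r : ℕ) (x y : List Bool) : ℕ :=
  ((Finset.range (2 ^ r)).filter fun i =>
    v (r, evn x r, odn x r, i) = v (r, evn y r, odn y r, i)).card

open Classical in
theorem NN_le {z1 z2 : ℤ} {v : ℕ × ℕ × ℕ × ℕ → ℕ} {L M : ℕ} (hv : Spec z1 z2 v L M)
    (r : ℕ) (x y : List Bool) :
    (NN v r x y : ℝ) ≤ ∑ k ∈ Finset.range (r + 1),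
      if Near r k x y then ((12 * M + 6) * 2 ^ k : ℝ) else 0 := by
  obtain ⟨hA, hB⟩ := count_eq hv (evn_lt x r) (odn_lt x r) (evn_lt y r) (odn_lt y r)
  change _ * (NN v r x y : ℝ) ≤ _ at hA
  change _ * (NN v r x y : ℝ) ≤ _ at hB
  have hx1 := evn_lt x r
  have hx2 := odn_lt x r
  have hy1 := evn_lt y r
  have hy2 := odn_lt y r
  obtain ⟨D, hD⟩ : ∃ D : ℕ, D = max (max (evn x r - evn y r) (evn y r - evn x r))
    (max (odn x r - odn y r) (odn y r - odn x r)) := ⟨_, rfl⟩
  have hDr : D ≤ 2 ^ r := by omega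
  have hN0 : (0 : ℝ) ≤ NN v r x y := Nat.cast_nonneg _
  have hNr : (NN v r x y : ℝ) ≤ 2 ^ r := by
    have : NN v r x y ≤ 2 ^ r := by
      unfold NN
      refine (Finset.card_filter_le _ _).trans ?_
      rw [Finset.card_range]
    exact_mod_cast this
  have hM0 : (0 : ℝ) ≤ M := Nat.cast_nonneg M
  -- the product with the distance
  have hDN : (D : ℝ) * NN v r x y ≤ (6 * M + 3) * 2 ^ r := by
    have hcast : ∀ s t : ℕ, ((s - t : ℕ) : ℝ) ≤ |(s : ℝ) - t| ∧ ((t - s : ℕ) : ℝ) ≤ |(s : ℝ) - t| := by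
      intro s t
      rcases Nat.le_total s t with h | h
      · rw [Nat.sub_eq_zero_of_le h, Nat.cast_sub h]
        refine ⟨by simp, ?_⟩
        rw [abs_sub_comm]
        exact le_abs_self _
      · rw [Nat.sub_eq_zero_of_le h, Nat.cast_sub h]
        exact ⟨le_abs_self _, by simp⟩
    have h1 : (D : ℝ) ≤ |(evn x r : ℝ) - evn y r| ∨ (D : ℝ) ≤ |(odn x r : ℝ) - odn y r| := by
      have c1 := hcast (evn x r) (evn y r)
      have c2 := hcast (odn x r) (odn y r)
      have h2 : D = evn x r - evn y r ∨ D = evn y r - evn x r ∨ D = odn x r - odn y r ∨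
          D = odn y r - odn x r := by omega
      rcases h2 with h | h | h | h
      · left; rw [h]; exact c1.1
      · left; rw [h]; exact c1.2
      · right; rw [h]; exact c2.1
      · right; rw [h]; exact c2.2
    rcases h1 with h | h
    · exact (mul_le_mul_of_nonneg_right h hN0).trans hA
    · exact (mul_le_mul_of_nonneg_right h hN0).trans hB
  obtain ⟨s, hs⟩ : ∃ s, s = Nat.clog 2 D := ⟨_, rfl⟩
  have hs1 : D ≤ 2 ^ s := by rw [hs]; exact Nat.le_pow_clog (by norm_num) D
  have hs2 : s ≤ r := by rw [hs]; exact Nat.clog_le_of_le_pow hDr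
  have hnear : Near r (r - s) x y := by
    unfold Near
    rw [show r - (r - s) = s by omega]
    omega
  have hle : (NN v r x y : ℝ) ≤ (12 * M + 6) * 2 ^ (r - s) := by
    rcases Nat.eq_zero_or_pos s with h0 | h0
    · rw [h0, Nat.sub_zero]
      have : (0 : ℝ) ≤ 2 ^ r := by positivity
      nlinarith
    · have h1 : 2 ^ (s - 1) < D := by
        by_contra hc
        push Not at hc
        have := Nat.clog_le_of_le_pow hc
        omega
      have h2 : (2 : ℝ) ^ (s - 1) ≤ D := by exact_mod_cast h1.le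
      have h3 : (2 : ℝ) ^ (s - 1) * NN v r x y ≤ (6 * M + 3) * 2 ^ r :=
        (mul_le_mul_of_nonneg_right h2 hN0).trans hDN
      have h4 : (2 : ℝ) ^ r = 2 ^ (s - 1) * (2 * 2 ^ (r - s)) := by
        rw [← pow_succ', ← pow_add]; congr 1; omega
      rw [h4] at h3
      have h5 : (0 : ℝ) < 2 ^ (s - 1) := by positivity
      have h6 : (2 : ℝ) ^ (s - 1) * NN v r x y ≤ 2 ^ (s - 1) * ((12 * M + 6) * 2 ^ (r - s)) := by
        linarith
      exact le_of_mul_le_mul_left h6 h5
  refine hle.trans ?_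
  have h1 := Finset.single_le_sum (f := fun k => if Near r k x y then ((12 * M + 6) * 2 ^ k : ℝ) else 0)
    (s := Finset.range (r + 1)) (fun k _ => by
      show (0 : ℝ) ≤ if Near r k x y then ((12 * M + 6) * 2 ^ k : ℝ) else 0
      split_ifs
      · positivity
      · exact le_rfl) (Finset.mem_range.2 (by omega : r - s < r + 1))
  rw [if_pos hnear] at h1
  exact h1

/-- the energy of a Frostman weight is bounded by its mass -/
theorem energy {z1 z2 : ℤ} {v : ℕ × ℕ × ℕ × ℕ → ℕ} {L M : ℕ} (hv : Spec z1 z2 v L M) {b : ℕ}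
    (hb : 0 < b) (r : ℕ) (w : List Bool → ℝ) (hw : Frost (ex b) (2 * r) w) :
    ∑ x ∈ St (2 * r), ∑ y ∈ St (2 * r), w x * w y * NN v r x y ≤
      (9 * (12 * M + 6) * (2 * b)) * ∑ x ∈ St (2 * r), w x := by
  classical
  rw [Finset.mul_sum]
  refine Finset.sum_le_sum fun x _ => ?_
  have hM0 : (0 : ℝ) ≤ M := Nat.cast_nonneg M
  have h1 : ∑ y ∈ St (2 * r), w x * w y * NN v r x y ≤ w x * ∑ k ∈ Finset.range (r + 1),
      (12 * M + 6) * 2 ^ k * ∑ y ∈ (St (2 * r)).filter (fun y => Near r k x y), w y := by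
    have h2 : ∀ y ∈ St (2 * r), w x * w y * (NN v r x y : ℝ) ≤
        w x * ∑ k ∈ Finset.range (r + 1), if Near r k x y then ((12 * M + 6) * 2 ^ k * w y : ℝ) else 0 := by
      intro y _
      have h3 := mul_le_mul_of_nonneg_left (NN_le hv r x y) (mul_nonneg (hw.1 x) (hw.1 y))
      refine h3.trans (le_of_eq ?_)
      rw [mul_assoc]
      congr 1
      rw [Finset.mul_sum]
      refine Finset.sum_congr rfl fun k _ => ?_
      split_ifs <;> ring
    refine (Finset.sum_le_sum h2).trans (le_of_eq ?_)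
    rw [← Finset.mul_sum, Finset.sum_comm]
    congr 1
    refine Finset.sum_congr rfl fun k _ => ?_
    rw [← Finset.sum_filter, Finset.mul_sum]
  refine h1.trans ?_
  rw [mul_comm (_ : ℝ) (w x)]
  refine mul_le_mul_of_nonneg_left ?_ (hw.1 x)
  have h2 : ∀ k ∈ Finset.range (r + 1), (12 * M + 6 : ℝ) * 2 ^ k *
      ∑ y ∈ (St (2 * r)).filter (fun y => Near r k x y), w y ≤
        9 * (12 * M + 6) * (1 / 2) ^ (k / b) := by
    intro k hk
    rw [Finset.mem_range] at hk
    have h3 := near_weight (by omega : k ≤ r) hw x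
    rw [ex_two] at h3
    calc (12 * M + 6 : ℝ) * 2 ^ k * ∑ y ∈ (St (2 * r)).filter (fun y => Near r k x y), w y
        ≤ (12 * M + 6 : ℝ) * 2 ^ k * (9 * (1 / 2) ^ (k + k / b)) :=
          mul_le_mul_of_nonneg_left h3 (by positivity)
      _ = 9 * (12 * M + 6) * ((2 ^ k * (1 / 2) ^ k) * (1 / 2) ^ (k / b)) := by rw [pow_add]; ring
      _ = _ := by rw [← mul_pow]; norm_num
  refine (Finset.sum_le_sum h2).trans ?_
  rw [← Finset.mul_sum]
  exact mul_le_mul_of_nonneg_left (geo_div hb _) (by positivity)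

/-- the mass of a Frostman weight on the points which have many projections in a small set -/
theorem mass_le {z1 z2 : ℤ} {v : ℕ × ℕ × ℕ × ℕ → ℕ} {L M : ℕ} (hv : Spec z1 z2 v L M) {b : ℕ}
    (hb : 0 < b) (r : ℕ) (w : List Bool → ℝ) (hw : Frost (ex b) (2 * r) w)
    (G : ℕ → ℕ → Prop) [∀ i y, Decidable (G i y)] (Y : ℕ)
    (hY : ∀ x i, i < 2 ^ r → v (r, evn x r, odn x r, i) < Y) {η ε : ℝ} (hη : 0 ≤ η)
    (hG : ∀ i, i < 2 ^ r → (((Finset.range Y).filter fun y => G i y).card : ℝ) ≤ ε * 2 ^ r)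
    (hx : ∀ x, x.length = 2 * r → w x ≠ 0 → η * 2 ^ r ≤
      (((Finset.range (2 ^ r)).filter fun i => G i (v (r, evn x r, odn x r, i))).card : ℝ)) :
    η ^ 2 * ∑ x ∈ St (2 * r), w x ≤ (9 * (12 * M + 6) * (2 * b)) * ε := by
  classical
  obtain ⟨W, hW⟩ : ∃ W, W = ∑ x ∈ St (2 * r), w x := ⟨_, rfl⟩
  have hW0 : 0 ≤ W := by rw [hW]; exact Finset.sum_nonneg fun x _ => hw.1 x
  obtain ⟨g, hg⟩ : ∃ g : ℕ × ℕ → ℝ, g = fun p => ∑ x ∈ (St (2 * r)).filter
      (fun x => v (r, evn x r, odn x r, p.1) = p.2), w x := ⟨_, rfl⟩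
  obtain ⟨Φ, hΦ⟩ : ∃ Φ : ℝ, Φ = ∑ x ∈ St (2 * r), w x *
      (((Finset.range (2 ^ r)).filter fun i => G i (v (r, evn x r, odn x r, i))).card : ℝ) := ⟨_, rfl⟩
  have h1 : η * 2 ^ r * W ≤ Φ := by
    rw [hW, hΦ, Finset.mul_sum]
    refine Finset.sum_le_sum fun x hx' => ?_
    rw [mem_St] at hx'
    rcases eq_or_ne (w x) 0 with h | h
    · rw [h]; simp
    · rw [mul_comm]
      exact mul_le_mul_of_nonneg_left (hx x hx' h) (hw.1 x)
  have h2 : Φ = ∑ p ∈ Finset.range (2 ^ r) ×ˢ Finset.range Y, (if G p.1 p.2 then (1 : ℝ) else 0) * g p := by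
    rw [hΦ, Finset.sum_product]
    have h3 : ∀ x ∈ St (2 * r), w x *
      (((Finset.range (2 ^ r)).filter fun i => G i (v (r, evn x r, odn x r, i))).card : ℝ) =
        ∑ i ∈ Finset.range (2 ^ r), if G i (v (r, evn x r, odn x r, i)) then w x else 0 := by
      intro x _
      rw [Finset.card_filter]
      push_cast
      rw [Finset.mul_sum]
      refine Finset.sum_congr rfl fun i _ => ?_
      split_ifs <;> simp
    rw [Finset.sum_congr rfl h3, Finset.sum_comm]
    refine Finset.sum_congr rfl fun i hi => ?_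
    rw [Finset.mem_range] at hi
    have h4 : ∀ y ∈ Finset.range Y, (if G i y then (1 : ℝ) else 0) * g (i, y) =
        ∑ x ∈ St (2 * r), if v (r, evn x r, odn x r, i) = y then (if G i y then w x else 0) else 0 := by
      intro y _
      rw [hg]
      simp only
      rw [Finset.sum_filter, Finset.mul_sum]
      refine Finset.sum_congr rfl fun x _ => ?_
      split_ifs <;> simp
    rw [Finset.sum_congr rfl h4, Finset.sum_comm]
    refine Finset.sum_congr rfl fun x _ => ?_
    rw [Finset.sum_ite_eq, if_pos (Finset.mem_range.2 (hY x i hi))]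
  have h3 : Φ ^ 2 ≤ (∑ p ∈ Finset.range (2 ^ r) ×ˢ Finset.range Y, (if G p.1 p.2 then (1 : ℝ) else 0) ^ 2) *
      ∑ p ∈ Finset.range (2 ^ r) ×ˢ Finset.range Y, g p ^ 2 := by
    rw [h2]
    exact Finset.sum_mul_sq_le_sq_mul_sq _ _ _
  have h4 : (∑ p ∈ Finset.range (2 ^ r) ×ˢ Finset.range Y, (if G p.1 p.2 then (1 : ℝ) else 0) ^ 2) ≤
      2 ^ r * (ε * 2 ^ r) := by
    rw [Finset.sum_product]
    have h5 : ∀ i ∈ Finset.range (2 ^ r), ∑ y ∈ Finset.range Y, (if G i y then (1 : ℝ) else 0) ^ 2 ≤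
        ε * 2 ^ r := by
      intro i hi
      rw [Finset.mem_range] at hi
      refine le_trans (le_of_eq ?_) (hG i hi)
      rw [Finset.card_filter]
      push_cast
      refine Finset.sum_congr rfl fun y _ => ?_
      split_ifs <;> simp
    refine (Finset.sum_le_sum h5).trans ?_
    rw [Finset.sum_const, Finset.card_range, nsmul_eq_mul]
    push_cast
    exact le_rfl
  have h5 : ∑ p ∈ Finset.range (2 ^ r) ×ˢ Finset.range Y, g p ^ 2 =
      ∑ x ∈ St (2 * r), ∑ y ∈ St (2 * r), w x * w y * NN v r x y := by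
    rw [Finset.sum_product]
    have h6 : ∀ i ∈ Finset.range (2 ^ r), ∑ y ∈ Finset.range Y, g (i, y) ^ 2 =
        ∑ x ∈ St (2 * r), ∑ x' ∈ St (2 * r), if v (r, evn x r, odn x r, i) = v (r, evn x' r, odn x' r, i)
          then w x * w x' else 0 := by
      intro i hi
      rw [Finset.mem_range] at hi
      have h7 : ∀ y ∈ Finset.range Y, g (i, y) ^ 2 = ∑ x ∈ St (2 * r), ∑ x' ∈ St (2 * r),
          if v (r, evn x r, odn x r, i) = y then (if v (r, evn x' r, odn x' r, i) = y then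
            w x * w x' else 0) else 0 := by
        intro y _
        rw [hg]
        simp only
        rw [sq, Finset.sum_filter, Finset.sum_mul_sum]
        refine Finset.sum_congr rfl fun x _ => Finset.sum_congr rfl fun x' _ => ?_
        split_ifs <;> simp
      rw [Finset.sum_congr rfl h7, Finset.sum_comm]
      refine Finset.sum_congr rfl fun x _ => ?_
      rw [Finset.sum_comm]
      refine Finset.sum_congr rfl fun x' _ => ?_
      rw [Finset.sum_ite_eq, if_pos (Finset.mem_range.2 (hY x i hi))]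
      by_cases h : v (r, evn x r, odn x r, i) = v (r, evn x' r, odn x' r, i)
      · rw [if_pos h, if_pos h.symm]
      · rw [if_neg h, if_neg (Ne.symm h)]
    rw [Finset.sum_congr rfl h6, Finset.sum_comm]
    refine Finset.sum_congr rfl fun x _ => ?_
    rw [Finset.sum_comm]
    refine Finset.sum_congr rfl fun x' _ => ?_
    unfold NN
    rw [Finset.card_filter]
    push_cast
    rw [Finset.mul_sum]
    refine Finset.sum_congr rfl fun i _ => ?_
    split_ifs <;> simp
  have h6 := energy hv hb r w hw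
  rw [← h5, ← hW] at h6
  have hε : 0 ≤ ε * 2 ^ r := by
    have := hG 0 (Nat.two_pow_pos r)
    exact le_trans (Nat.cast_nonneg _) this
  have h7 : (η * 2 ^ r * W) ^ 2 ≤ 2 ^ r * (ε * 2 ^ r) * ((9 * (12 * M + 6) * (2 * b)) * W) := by
    have h8 : (η * 2 ^ r * W) ^ 2 ≤ Φ ^ 2 := pow_le_pow_left₀ (by positivity) h1 2
    refine h8.trans (h3.trans ?_)
    have h9 : 0 ≤ ∑ p ∈ Finset.range (2 ^ r) ×ˢ Finset.range Y, g p ^ 2 :=
      Finset.sum_nonneg fun _ _ => sq_nonneg _
    exact mul_le_mul h4 h6 h9 (by positivity)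
  rw [← hW]
  rcases hW0.eq_or_lt with h8 | h8
  · rw [← h8, mul_zero]
    have : 0 ≤ ε := by
      have h9 : (0 : ℝ) < 2 ^ r := by positivity
      by_contra hc
      push Not at hc
      nlinarith
    positivity
  · have h9 : (0 : ℝ) < 2 ^ r * 2 ^ r * W := by positivity
    have h10 : (2 ^ r * 2 ^ r * W) * (η ^ 2 * W) ≤ (2 ^ r * 2 ^ r * W) *
        ((9 * (12 * M + 6) * (2 * b)) * ε) := by
      calc (2 ^ r * 2 ^ r * W) * (η ^ 2 * W) = (η * 2 ^ r * W) ^ 2 := by ring
        _ ≤ _ := h7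
        _ = _ := by ring
    exact le_of_mul_le_mul_left h10 h9

end Pool.Agent.X234.PJ
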