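import Pool.Agent.X234.PJ.Test
import Pool.Agent.W968.SSC.Code

/-!
The sets of points with many projections in the test, and the test for the directions.
-/

set_option autoImplicit false

namespace Pool.Agent.X234.PJ

open Finset Pool.Agent.Helper227 Encodable MeasureTheory
open Pool.Agent.Helper446.RE Pool.Agent.X234.KR
open scoped ENNReal

/-- the projection of the node `x` in the direction number `i` is well inside the test -/
def TT (v : ℕ × ℕ × ℕ × ℕ → ℕ) (K e0 j : ℕ) (x : List Bool) (i : ℕ) : Bool :=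
  (List.range (v (x.length / 2, evn x (x.length / 2), odn x (x.length / 2), i) + K + 1)).all fun u =>
    !(decide (v (x.length / 2, evn x (x.length / 2), odn x (x.length / 2), i) ≤ u + K)) ||
      PR e0 (4 * j) (nb (x.length / 2) i) (nb (x.length / 2) u)

theorem TT_iff {v : ℕ × ℕ × ℕ × ℕ → ℕ} {K e0 j : ℕ} {x : List Bool} {i r : ℕ}
    (hr : x.length / 2 = r) : TT v K e0 j x i = true ↔
      ∀ u, u ≤ v (r, evn x r, odn x r, i) + K → v (r, evn x r, odn x r, i) ≤ u + K →
        PR e0 (4 * j) (nb r i) (nb r u) = true := by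
  unfold TT
  rw [hr, List.all_eq_true]
  constructor
  · intro h u h1 h2
    have h3 := h u (List.mem_range.2 (by omega))
    rw [Bool.or_eq_true, Bool.not_eq_true', decide_eq_false_iff_not] at h3
    rcases h3 with h3 | h3
    · exact absurd h2 h3
    · exact h3
  · intro h u hu
    rw [List.mem_range] at hu
    rw [Bool.or_eq_true, Bool.not_eq_true', decide_eq_false_iff_not]
    by_cases h2 : v (r, evn x r, odn x r, i) ≤ u + K
    · exact Or.inr (h u (by omega) h2)
    · exact Or.inl h2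

/-- many directions -/
def BT (v : ℕ × ℕ × ℕ × ℕ → ℕ) (K e0 j : ℕ) (x : List Bool) : Bool :=
  decide (2 ^ (x.length / 2) < 2 ^ (j + 1) *
    ∑ i ∈ Finset.range (2 ^ (x.length / 2)), (TT v K e0 j x i).toNat)

theorem sum_toNat (s : Finset ℕ) (p : ℕ → Bool) :
    ∑ i ∈ s, (p i).toNat = (s.filter fun i => p i = true).card := by
  rw [Finset.card_filter]
  refine Finset.sum_congr rfl fun i _ => ?_
  cases p i <;> simp

/-! ### computability -/

section comp
variable {α : Type*} [Primcodable α]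

theorem comp_dec2 {α : Type*} [Primcodable α] {f g : α → ℕ} (hf : Computable f) (hg : Computable g) :
    Computable fun a => decide (f a = g a) := Pool.Agent.Helper344.CL.decide_eq'.comp hf hg

theorem PU_comp (e0 : ℕ) {c : α → ℕ} {σ τ : α → List Bool} (hc : Computable c)
    (hσ : Computable σ) (hτ : Computable τ) : Computable fun a => PU e0 (c a) (σ a) (τ a) := by
  unfold PU
  refine Pool.Agent.Helper344.CL.list_any (comp_lrange (cadd (clength hσ) (cconst 1))) ?_
  show Computable fun p : α × ℕ => (List.range ((σ p.1).length + 1)).any fun b =>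
    wst (List Bool × ℕ × List Bool) e0 (σ p.1).length ((σ p.1).take p.2, c p.1 + 1, (τ p.1).take b)
  have hσ1 : Computable fun p : α × ℕ => σ p.1 := hσ.comp Computable.fst
  refine Pool.Agent.Helper344.CL.list_any (comp_lrange (cadd (clength hσ1) (cconst 1))) ?_
  show Computable fun p : (α × ℕ) × ℕ =>
    wst (List Bool × ℕ × List Bool) e0 (σ p.1.1).length
      ((σ p.1.1).take p.1.2, c p.1.1 + 1, (τ p.1.1).take p.2)
  have hσ2 : Computable fun p : (α × ℕ) × ℕ => σ p.1.1 := hσ.comp (Computable.fst.comp Computable.fst)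
  have hτ2 : Computable fun p : (α × ℕ) × ℕ => τ p.1.1 := hτ.comp (Computable.fst.comp Computable.fst)
  have hc2 : Computable fun p : (α × ℕ) × ℕ => c p.1.1 := hc.comp (Computable.fst.comp Computable.fst)
  exact wst_comp.comp (f := fun p : (ℕ × ℕ) × (List Bool × ℕ × List Bool) =>
      wst (List Bool × ℕ × List Bool) p.1.1 p.1.2 p.2)
    (g := fun p : (α × ℕ) × ℕ => ((e0, (σ p.1.1).length),
      ((σ p.1.1).take p.1.2, c p.1.1 + 1, (τ p.1.1).take p.2)))
    (cpair (cpair (cconst _) (clength hσ2)) (cpair (comp_take hσ2 (by fun_prop))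
      (cpair (cadd hc2 (cconst 1)) (comp_take hτ2 (by fun_prop)))))

theorem RR_comp {c : α → ℕ} {τ : α → List Bool} (hc : Computable c)
    (hτ : Computable τ) : Computable fun a => RR (c a) (τ a) := by
  unfold RR
  refine Pool.Agent.Helper344.CL.list_any (comp_lrange (cadd (clength hτ) (cconst 1))) ?_
  show Computable fun p : α × ℕ => decide (2 * p.2 + c p.1 + 3 ≤ (τ p.1).length) &&
    (List.range (p.2 + c p.1 + 3)).all fun i => (τ p.1).getD (p.2 + i) false
  have hτ1 : Computable fun p : α × ℕ => τ p.1 := hτ.comp Computable.fst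
  have hc1 : Computable fun p : α × ℕ => c p.1 := hc.comp Computable.fst
  refine cand (comp_dle (by fun_prop) (clength hτ1)) ?_
  refine Pool.Agent.Helper344.CL.list_all (comp_lrange (by fun_prop)) ?_
  show Computable fun p : (α × ℕ) × ℕ => (τ p.1.1).getD (p.1.2 + p.2) false
  have hτ2 : Computable fun p : (α × ℕ) × ℕ => τ p.1.1 := hτ.comp (Computable.fst.comp Computable.fst)
  exact comp_getDb hτ2 (by fun_prop)

theorem PR_comp (e0 : ℕ) {c : α → ℕ} {σ τ : α → List Bool} (hc : Computable c)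
    (hσ : Computable σ) (hτ : Computable τ) : Computable fun a => PR e0 (c a) (σ a) (τ a) := by
  unfold PR
  exact cor (PU_comp e0 hc hσ hτ) (RR_comp hc hτ)

theorem comp_half {f : α → ℕ} (hf : Computable f) : Computable fun a => f a / 2 :=
  Primrec.nat_div.to_comp.comp hf (cconst 2)

theorem TT_comp {v : ℕ × ℕ × ℕ × ℕ → ℕ} (hv : Computable v) (K e0 : ℕ) {j i : α → ℕ}
    {x : α → List Bool} (hj : Computable j) (hx : Computable x) (hi : Computable i) :
    Computable fun a => TT v K e0 (j a) (x a) (i a) := by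
  unfold TT
  have hr : Computable fun a => (x a).length / 2 := comp_half (clength hx)
  have hvv : Computable fun a => v ((x a).length / 2, evn (x a) ((x a).length / 2),
      odn (x a) ((x a).length / 2), i a) :=
    hv.comp (cpair hr (cpair (comp_evn hx hr) (cpair (comp_odn hx hr) hi)))
  refine Pool.Agent.Helper344.CL.list_all (comp_lrange (cadd (cadd hvv (cconst K)) (cconst 1))) ?_
  have hvv1 : Computable fun p : α × ℕ => v ((x p.1).length / 2, evn (x p.1) ((x p.1).length / 2),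
      odn (x p.1) ((x p.1).length / 2), i p.1) := hvv.comp Computable.fst
  have hr1 : Computable fun p : α × ℕ => (x p.1).length / 2 := hr.comp Computable.fst
  have hi1 : Computable fun p : α × ℕ => i p.1 := hi.comp Computable.fst
  have hj1 : Computable fun p : α × ℕ => j p.1 := hj.comp Computable.fst
  exact cor (cnot (comp_dle hvv1 (cadd Computable.snd (cconst K))))
    (PR_comp e0 (cmul (cconst 4) hj1) (comp_nb hr1 hi1) (comp_nb hr1 Computable.snd))

theorem BT_comp {v : ℕ × ℕ × ℕ × ℕ → ℕ} (hv : Computable v) (K e0 : ℕ) :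
    Computable₂ (BT v K e0) := by
  show Computable fun p : ℕ × List Bool => BT v K e0 p.1 p.2
  unfold BT
  have hr : Computable fun p : ℕ × List Bool => p.2.length / 2 := comp_half (by fun_prop)
  refine comp_dlt (comp_pow2 hr) (cmul (comp_pow2 (by fun_prop)) ?_)
  refine comp_csum (comp_pow2 hr) ?_
  show Computable fun p : (ℕ × List Bool) × ℕ => (TT v K e0 p.1.1 p.1.2 p.2).toNat
  exact comp_toNat (TT_comp hv K e0 (by fun_prop) (by fun_prop) (by fun_prop))

end comp

/-! ### monotonicity -/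

section mono
variable {z1 z2 : ℤ} {v : ℕ × ℕ × ℕ × ℕ → ℕ} {L M e0 : ℕ}

theorem evn_append {x : List Bool} {s : Bool} {r : ℕ} (h : 2 * r ≤ x.length) :
    evn (x ++ [s]) r = evn x r := by
  rw [← evn_take (x := x ++ [s]) (k := x.length) h, List.take_left]

theorem odn_append {x : List Bool} {s : Bool} {r : ℕ} (h : 2 * r ≤ x.length) :
    odn (x ++ [s]) r = odn x r := by
  rw [← odn_take (x := x ++ [s]) (k := x.length) h, List.take_left]

theorem TT_mono (hv : Spec z1 z2 v L M) (j : ℕ) (x : List Bool) (s : Bool) (r r' i : ℕ)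
    (hr : x.length / 2 = r) (hr' : (x ++ [s]).length / 2 = r') (hi : i < 2 ^ r')
    (h : TT v (3 * M + 1) e0 j x (i / 2 ^ (r' - r)) = true) :
    TT v (3 * M + 1) e0 j (x ++ [s]) i = true := by
  rw [List.length_append, List.length_singleton] at hr'
  rcases Nat.lt_or_ge r r' with h1 | h1
  · obtain rfl : r' = r + 1 := by omega
    rw [show r + 1 - r = 1 by omega, pow_one] at h
    rw [TT_iff hr] at h
    rw [TT_iff (r := r + 1) (by rw [List.length_append, List.length_singleton]; exact hr')]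
    intro u hu1 hu2
    have hae : evn (x ++ [s]) (r + 1) / 2 = evn x r := by
      have := evn_div (x := x ++ [s]) (r := r + 1) (k := r) (by omega)
      rw [show r + 1 - r = 1 by omega, pow_one, evn_append (x := x) (s := s) (r := r) (by omega)] at this
      exact this
    have hao : odn (x ++ [s]) (r + 1) / 2 = odn x r := by
      have := odn_div (x := x ++ [s]) (r := r + 1) (k := r) (by omega)
      rw [show r + 1 - r = 1 by omega, pow_one, odn_append (x := x) (s := s) (r := r) (by omega)] at this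
      exact this
    obtain ⟨a', ha'⟩ : ∃ a', a' = evn (x ++ [s]) (r + 1) := ⟨_, rfl⟩
    obtain ⟨b', hb'⟩ : ∃ b', b' = odn (x ++ [s]) (r + 1) := ⟨_, rfl⟩
    obtain ⟨a, ha⟩ : ∃ a, a = evn x r := ⟨_, rfl⟩
    obtain ⟨b, hb⟩ : ∃ b, b = odn x r := ⟨_, rfl⟩
    have ha1 : a < 2 ^ r := by rw [ha]; exact evn_lt x r
    have hb1 : b < 2 ^ r := by rw [hb]; exact odn_lt x r
    have ha1' : a' < 2 ^ (r + 1) := by rw [ha']; exact evn_lt _ _
    have hb1' : b' < 2 ^ (r + 1) := by rw [hb']; exact odn_lt _ _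
    rw [← ha', ← ha] at hae
    rw [← hb', ← hb] at hao
    rw [← ha', ← hb'] at hu1 hu2
    rw [← ha, ← hb] at h
    have hi1 : i / 2 < 2 ^ r := by rw [pow_succ] at hi; omega
    have hR : (0 : ℝ) < 2 ^ r := by positivity
    have hhalf : ∀ c c' : ℕ, c' / 2 = c → (c : ℝ) / 2 ^ r ≤ (c' : ℝ) / 2 ^ (r + 1) ∧
        (c' : ℝ) / 2 ^ (r + 1) ≤ ((c : ℝ) + 1) / 2 ^ r := by
      intro c c' hc
      have h2 : 2 * c ≤ c' := by omega
      have h3 : c' ≤ 2 * c + 1 := by omega
      have h2' : (2 : ℝ) * c ≤ c' := by exact_mod_cast h2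
      have h3' : (c' : ℝ) ≤ 2 * c + 1 := by exact_mod_cast h3
      rw [pow_succ]
      constructor
      · rw [div_le_div_iff₀ hR (by positivity)]; nlinarith
      · rw [div_le_div_iff₀ (by positivity) hR]; nlinarith
    have A1 := hhalf a a' hae
    have A2 := hhalf b b' hao
    have A3 := hhalf (i / 2) i rfl
    have hR' : (0 : ℝ) < 2 ^ (r + 1) := by positivity
    have e1 := abs_le.1 (hv r a b (i / 2) ha1 hb1 hi1 (z1 + (a' : ℝ) / 2 ^ (r + 1))
      (z2 + (b' : ℝ) / 2 ^ (r + 1)) ((i : ℝ) / 2 ^ (r + 1)) (by linarith [A1.1]) (by linarith [A1.2])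
      (by linarith [A2.1]) (by linarith [A2.2]) A3.1 A3.2)
    have e2 := abs_le.1 (hv (r + 1) a' b' i ha1' hb1' hi (z1 + (a' : ℝ) / 2 ^ (r + 1))
      (z2 + (b' : ℝ) / 2 ^ (r + 1)) ((i : ℝ) / 2 ^ (r + 1)) le_rfl (by gcongr; linarith)
      le_rfl (by gcongr; linarith) le_rfl (by gcongr; linarith))
    obtain ⟨T, hT⟩ : ∃ T : ℝ, T = (z1 + (a' : ℝ) / 2 ^ (r + 1)) * Real.cos (2 * Real.pi * ((i : ℝ) / 2 ^ (r + 1))) +
      (z2 + (b' : ℝ) / 2 ^ (r + 1)) * Real.sin (2 * Real.pi * ((i : ℝ) / 2 ^ (r + 1))) + L := ⟨_, rfl⟩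
    rw [← hT] at e1 e2
    obtain ⟨V, hV⟩ : ∃ V, V = v (r, a, b, i / 2) := ⟨_, rfl⟩
    obtain ⟨V', hV'⟩ : ∃ V', V' = v (r + 1, a', b', i) := ⟨_, rfl⟩
    rw [← hV] at e1 h
    rw [← hV'] at e2 hu1 hu2
    rw [pow_succ] at e2
    have f1 : (V' : ℝ) ≤ 2 * V + 3 * M := by linarith [e1.1, e2.2]
    have f2 : (2 : ℝ) * V ≤ V' + 3 * M := by linarith [e1.2, e2.1]
    have f1' : V' ≤ 2 * V + 3 * M := by exact_mod_cast f1
    have f2' : 2 * V ≤ V' + 3 * M := by exact_mod_cast f2
    have h2 := h (u / 2) (by omega) (by omega)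
    refine PR_mono (by simp) ?_ ?_ h2
    · rw [nb]; exact List.prefix_append _ _
    · rw [nb]; exact List.prefix_append _ _
  · obtain rfl : r' = r := by omega
    rw [Nat.sub_self, pow_zero, Nat.div_one] at h
    rw [TT_iff hr] at h
    rw [TT_iff (r := r') (by rw [List.length_append, List.length_singleton]; exact hr')]
    rw [evn_append (by omega), odn_append (by omega)]
    exact h

theorem BT_mono (hv : Spec z1 z2 v L M) (j : ℕ) (x : List Bool) (s : Bool)
    (h : BT v (3 * M + 1) e0 j x = true) : BT v (3 * M + 1) e0 j (x ++ [s]) = true := by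
  unfold BT at *
  rw [decide_eq_true_eq] at *
  obtain ⟨r, hr⟩ : ∃ r, x.length / 2 = r := ⟨_, rfl⟩
  obtain ⟨r', hr'⟩ : ∃ r', (x ++ [s]).length / 2 = r' := ⟨_, rfl⟩
  rw [hr] at h
  rw [hr']
  have hlen : (x ++ [s]).length = x.length + 1 := by simp
  have hle : ∀ i < 2 ^ r', (TT v (3 * M + 1) e0 j x (i / 2 ^ (r' - r))).toNat ≤
      (TT v (3 * M + 1) e0 j (x ++ [s]) i).toNat := by
    intro i hi
    cases hT : TT v (3 * M + 1) e0 j x (i / 2 ^ (r' - r)) with
    | false => exact Nat.zero_le _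
    | true => rw [TT_mono hv j x s r r' i hr hr' hi hT]
  have hsum : 2 ^ (r' - r) * ∑ i ∈ Finset.range (2 ^ r), (TT v (3 * M + 1) e0 j x i).toNat ≤
      ∑ i ∈ Finset.range (2 ^ r'), (TT v (3 * M + 1) e0 j (x ++ [s]) i).toNat := by
    refine le_trans ?_ (Finset.sum_le_sum fun i hi => hle i (Finset.mem_range.1 hi))
    rcases Nat.lt_or_ge r r' with h1 | h1
    · obtain rfl : r' = r + 1 := by omega
      rw [show r + 1 - r = 1 by omega, pow_one, pow_succ', Pool.Agent.X234.TD.sum_pairs,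
        Finset.mul_sum]
      refine Finset.sum_le_sum fun k _ => ?_
      rw [show 2 * k / 2 = k by omega, show (2 * k + 1) / 2 = k by omega]
      omega
    · obtain rfl : r' = r := by omega
      simp
  calc 2 ^ r' = 2 ^ (r' - r) * 2 ^ r := by rw [← pow_add]; congr 1; omega
    _ < 2 ^ (r' - r) * (2 ^ (j + 1) * ∑ i ∈ Finset.range (2 ^ r), (TT v (3 * M + 1) e0 j x i).toNat) :=
        Nat.mul_lt_mul_of_pos_left h (Nat.two_pow_pos _)
    _ = 2 ^ (j + 1) * (2 ^ (r' - r) * ∑ i ∈ Finset.range (2 ^ r), (TT v (3 * M + 1) e0 j x i).toNat) := by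
        ring
    _ ≤ _ := Nat.mul_le_mul_left _ hsum

end mono

/-- an upper bound for the approximate values -/
theorem v_lt {z1 z2 : ℤ} {v : ℕ × ℕ × ℕ × ℕ → ℕ} {L M : ℕ} (hv : Spec z1 z2 v L M) :
    ∃ Y0 : ℕ, ∀ r a b i : ℕ, a < 2 ^ r → b < 2 ^ r → i < 2 ^ r → v (r, a, b, i) < Y0 * 2 ^ r := by
  obtain ⟨Y0, hY0⟩ := exists_nat_gt (|(z1 : ℝ)| + 1 + (|(z2 : ℝ)| + 1) + L + M + 1)
  refine ⟨Y0, fun r a b i ha hb hi => ?_⟩
  have h1 := abs_le.1 (spec_corner hv ha hb hi)
  have ha' : (a : ℝ) < 2 ^ r := by exact_mod_cast ha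
  have hb' : (b : ℝ) < 2 ^ r := by exact_mod_cast hb
  have hR : (1 : ℝ) ≤ 2 ^ r := one_le_pow₀ (by norm_num)
  obtain ⟨R, hRR⟩ : ∃ R : ℝ, R = 2 ^ r := ⟨_, rfl⟩
  rw [← hRR] at h1 ha' hb' hR
  obtain ⟨θ, hθ⟩ : ∃ θ : ℝ, θ = 2 * Real.pi * ((i : ℝ) / R) := ⟨_, rfl⟩
  rw [← hθ] at h1
  have key : ∀ (z : ℤ) (c : ℕ) (s : ℝ), (c : ℝ) < R → |s| ≤ 1 →
      (z * R + c) * s ≤ (|(z : ℝ)| + 1) * R := by
    intro z c s hc hs
    have h2 : |((z : ℝ) * R + c) * s| ≤ (|(z : ℝ)| + 1) * R := by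
      rw [abs_mul]
      have h3 : |(z : ℝ) * R + c| ≤ (|(z : ℝ)| + 1) * R := by
        refine (abs_add_le _ _).trans ?_
        rw [abs_mul, abs_of_pos (by linarith : 0 < R),
          abs_of_nonneg (Nat.cast_nonneg c : (0 : ℝ) ≤ (c : ℝ))]
        linarith
      calc |(z : ℝ) * R + c| * |s| ≤ (|(z : ℝ)| + 1) * R * 1 :=
            mul_le_mul h3 hs (abs_nonneg _) (by positivity)
        _ = _ := mul_one _
    exact (le_abs_self _).trans h2
  have k1 := key z1 a (Real.cos θ) ha' (Real.abs_cos_le_one θ)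
  have k2 := key z2 b (Real.sin θ) hb' (Real.abs_sin_le_one θ)
  have hM : (M : ℝ) ≤ M * R := le_mul_of_one_le_right (Nat.cast_nonneg M) hR
  have h2 : (v (r, a, b, i) : ℝ) < Y0 * R := by
    calc (v (r, a, b, i) : ℝ) ≤ (|(z1 : ℝ)| + 1) * R + (|(z2 : ℝ)| + 1) * R + R * L + M * R := by
          linarith [h1.2]
      _ < (|(z1 : ℝ)| + 1 + (|(z2 : ℝ)| + 1) + L + M + 1) * R := by nlinarith
      _ ≤ Y0 * R := mul_le_mul_of_nonneg_right hY0.le (by linarith)
  rw [hRR] at h2
  exact_mod_cast h2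

/-- the mass estimate -/
theorem BT_mass {E : List Bool × ℕ × List Bool → Prop} {e0 : ℕ}
    (hE0 : ∀ x, E x ↔ ∃ s, wst (List Bool × ℕ × List Bool) e0 s x = true)
    (hEm : ∀ A n, lam (UE E A n) ≤ (1 / 2) ^ n) {z1 z2 : ℤ} {v : ℕ × ℕ × ℕ × ℕ → ℕ} {L M : ℕ}
    (hv : Spec z1 z2 v L M) {b : ℕ} (hb : 0 < b) : ∃ a : ℕ, ∀ (j r : ℕ) (w : List Bool → ℝ),
      Frost (ex b) (2 * r) w → (∀ x, x.length = 2 * r → w x ≠ 0 → BT v (3 * M + 1) e0 j x = true) →
        ∑ x ∈ St (2 * r), w x ≤ 2 ^ a * (1 / 4) ^ j := by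
  obtain ⟨Y0, hY0⟩ := v_lt hv
  obtain ⟨a, ha⟩ : ∃ a : ℕ, (9 * (12 * M + 6) * (2 * b) : ℝ) * Y0 * 4 ≤ 2 ^ a := by
    obtain ⟨a, ha⟩ := pow_unbounded_of_one_lt ((9 * (12 * M + 6) * (2 * b) : ℝ) * Y0 * 4)
      (show (1 : ℝ) < 2 by norm_num)
    exact ⟨a, ha.le⟩
  refine ⟨a, fun j r w hw hx => ?_⟩
  have h1 := mass_le hv hb r w hw (fun i y => PR e0 (4 * j) (nb r i) (nb r y) = true) (Y0 * 2 ^ r)
    (fun x i hi => hY0 r _ _ i (evn_lt x r) (odn_lt x r) hi) (η := (1 / 2) ^ (j + 1))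
    (ε := Y0 * (1 / 2) ^ (4 * j)) (by positivity) ?_ ?_
  · have h2 : ((1 / 2 : ℝ) ^ (j + 1)) ^ 2 = 1 / 4 * (1 / 4) ^ j := by
      rw [← pow_mul, mul_comm (j + 1) 2, pow_mul]
      norm_num
      rw [pow_succ]
      ring
    have h3 : (1 / 2 : ℝ) ^ (4 * j) = (1 / 4) ^ j * (1 / 4) ^ j := by
      rw [pow_mul, ← mul_pow]; norm_num
    rw [h2, h3] at h1
    obtain ⟨p, hp⟩ : ∃ p : ℝ, p = (1 / 4) ^ j := ⟨_, rfl⟩
    have hp0 : 0 < p := by rw [hp]; positivity
    rw [← hp] at h1 ⊢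
    have h4 : p * ∑ x ∈ St (2 * r), w x ≤ p * ((9 * (12 * M + 6) * (2 * b) : ℝ) * Y0 * 4 * p) := by
      nlinarith
    have h5 := le_of_mul_le_mul_left h4 hp0
    refine h5.trans ?_
    exact mul_le_mul_of_nonneg_right ha hp0.le
  · intro i _
    rw [card_nb_mul r Y0 (fun y => PR e0 (4 * j) (nb r i) y)]
    push_cast
    have h2 := card_PR hE0 hEm (4 * j) r (nb r i) (by simp)
    calc (Y0 : ℝ) * (((St r).filter fun x => PR e0 (4 * j) (nb r i) x = true).card : ℝ)
        ≤ Y0 * ((1 / 2) ^ (4 * j) * 2 ^ r) := mul_le_mul_of_nonneg_left h2 (Nat.cast_nonneg _)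
      _ = _ := by ring
  · intro x hxl hwx
    have h2 := hx x hxl hwx
    unfold BT at h2
    have hr : x.length / 2 = r := by omega
    rw [decide_eq_true_eq, hr, sum_toNat] at h2
    have h3 : ((Finset.range (2 ^ r)).filter fun i => TT v (3 * M + 1) e0 j x i = true).card ≤
        ((Finset.range (2 ^ r)).filter fun i =>
          PR e0 (4 * j) (nb r i) (nb r (v (r, evn x r, odn x r, i))) = true).card := by
      refine Finset.card_le_card fun i hi => ?_
      rw [Finset.mem_filter] at hi ⊢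
      exact ⟨hi.1, (TT_iff hr).1 hi.2 _ (by omega) (by omega)⟩
    have h4 : (2 : ℝ) ^ r ≤ 2 ^ (j + 1) * (((Finset.range (2 ^ r)).filter fun i =>
          PR e0 (4 * j) (nb r i) (nb r (v (r, evn x r, odn x r, i))) = true).card : ℝ) := by
      have h5 : 2 ^ r ≤ 2 ^ (j + 1) * ((Finset.range (2 ^ r)).filter fun i =>
          PR e0 (4 * j) (nb r i) (nb r (v (r, evn x r, odn x r, i))) = true).card :=
        h2.le.trans (Nat.mul_le_mul_left _ h3)
      exact_mod_cast h5
    have h6 : (1 / 2 : ℝ) ^ (j + 1) * 2 ^ (j + 1) = 1 := by rw [← mul_pow]; norm_num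
    calc (1 / 2 : ℝ) ^ (j + 1) * 2 ^ r ≤ (1 / 2 : ℝ) ^ (j + 1) * (2 ^ (j + 1) *
          (((Finset.range (2 ^ r)).filter fun i =>
          PR e0 (4 * j) (nb r i) (nb r (v (r, evn x r, odn x r, i))) = true).card : ℝ)) :=
          mul_le_mul_of_nonneg_left h4 (by positivity)
      _ = _ := by rw [← mul_assoc, h6, one_mul]

end Pool.Agent.X234.PJ
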