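import Pool.Agent.X234.PJ.Fin

/-!
Projections of points of dimension greater than one in random directions are random.
-/

set_option autoImplicit false

namespace Pool.Agent.X234.PJ

open Finset Pool.Agent.Helper227 Encodable MeasureTheory
open Pool.Agent.Helper446.RE Pool.Agent.X234.KR
open scoped ENNReal

section test
variable {z1 z2 : ℤ} {v : ℕ × ℕ × ℕ × ℕ → ℕ} {L M e0 : ℕ}

/-- the directions of the test, for a fixed node -/
def HH (v : ℕ × ℕ × ℕ × ℕ → ℕ) (K e0 k : ℕ) (x : List Bool) : Set (ℕ → Bool) :=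
  {A | ∃ i < 2 ^ (x.length / 2), nb (x.length / 2) i = pre A (x.length / 2) ∧ TT v K e0 k x i = true}

theorem HH_mono (hv : Spec z1 z2 v L M) (k : ℕ) (Z : ℕ → Bool) (m : ℕ) :
    HH v (3 * M + 1) e0 k (pre Z m) ⊆ HH v (3 * M + 1) e0 k (pre Z (m + 1)) := by
  rintro A ⟨i, hi, h1, h2⟩
  rw [length_pre] at hi h1
  obtain ⟨i', hi', h3⟩ := exists_nb (r := (m + 1) / 2) (x := pre A ((m + 1) / 2)) (by simp)
  refine ⟨i', by rw [length_pre]; exact hi', by rw [length_pre]; exact h3, ?_⟩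
  rw [pre_succ]
  refine TT_mono hv k (pre Z m) (Z m) (m / 2) ((m + 1) / 2) i' (by simp) (by simp) hi' ?_
  have h4 : i' / 2 ^ ((m + 1) / 2 - m / 2) = i := by
    refine nb_inj (r := m / 2) ?_ hi ?_
    · rw [Nat.div_lt_iff_lt_mul (Nat.two_pow_pos _), ← pow_add]
      rwa [show m / 2 + ((m + 1) / 2 - m / 2) = (m + 1) / 2 by omega]
    · rw [← nb_take (by omega), h3, take_pre _ _ _ (by omega), h1]
  rw [h4]
  exact h2

theorem HH_meas (k : ℕ) (x : List Bool) (K : ℕ) (hB : BT v K e0 k x = false) :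
    lam (HH v K e0 k x) ≤ (1 / 2) ^ (k + 1) := by
  classical
  obtain ⟨r, hr⟩ : ∃ r, r = x.length / 2 := ⟨_, rfl⟩
  obtain ⟨G, hG⟩ : ∃ G, G = ((Finset.range (2 ^ r)).filter fun i => TT v K e0 k x i = true).image (nb r) :=
    ⟨_, rfl⟩
  have h1 : HH v K e0 k x = {A | pre A r ∈ G} := by
    ext A
    unfold HH
    rw [Set.mem_ofPred_eq, Set.mem_ofPred_eq, hG, Finset.mem_image, ← hr]
    constructor
    · rintro ⟨i, hi, h1, h2⟩
      exact ⟨i, Finset.mem_filter.2 ⟨Finset.mem_range.2 hi, h2⟩, h1⟩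
    · rintro ⟨i, hi, h1⟩
      rw [Finset.mem_filter, Finset.mem_range] at hi
      exact ⟨i, hi.1, h1, hi.2⟩
  have h2 := lam_finset G r (fun τ hτ => by
    rw [hG] at hτ
    obtain ⟨i, _, rfl⟩ := Finset.mem_image.1 hτ
    simp)
  rw [h1, h2, ennreal_aux]
  unfold BT at hB
  rw [decide_eq_false_iff_not, not_lt, sum_toNat, ← hr] at hB
  have h3 : G.card ≤ ((Finset.range (2 ^ r)).filter fun i => TT v K e0 k x i = true).card := by
    rw [hG]; exact Finset.card_image_le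
  calc G.card * 2 ^ (k + 1) ≤ ((Finset.range (2 ^ r)).filter fun i => TT v K e0 k x i = true).card *
        2 ^ (k + 1) := Nat.mul_le_mul_right _ h3
    _ = 2 ^ (k + 1) * ((Finset.range (2 ^ r)).filter fun i => TT v K e0 k x i = true).card := by ring
    _ ≤ _ := hB

/-- the directions of the test for the oracle `Z`, at level `k` -/
def DD (v : ℕ × ℕ × ℕ × ℕ → ℕ) (K e0 k : ℕ) (Z : ℕ → Bool) (m : ℕ) : Set (ℕ → Bool) :=
  {A | BT v K e0 k (pre Z m) = false ∧ A ∈ HH v K e0 k (pre Z m)}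

theorem DD_meas (hv : Spec z1 z2 v L M) (k : ℕ) (Z : ℕ → Bool) :
    lam (⋃ m, DD v (3 * M + 1) e0 k Z m) ≤ (1 / 2) ^ (k + 1) := by
  have hmono : ∀ m m', m ≤ m' → HH v (3 * M + 1) e0 k (pre Z m) ⊆ HH v (3 * M + 1) e0 k (pre Z m') := by
    intro m m' h
    induction m' with
    | zero => obtain rfl : m = 0 := by omega
              exact le_rfl
    | succ m' ih =>
      rcases Nat.lt_or_ge m' m with h1 | h1
      · obtain rfl : m = m' + 1 := by omega
        exact le_rfl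
      · exact (ih h1).trans (HH_mono hv k Z m')
  have hS : ∀ m, lam (⋃ m' ∈ Finset.range (m + 1), DD v (3 * M + 1) e0 k Z m') ≤ (1 / 2) ^ (k + 1) := by
    intro m
    induction m with
    | zero =>
      by_cases hB : BT v (3 * M + 1) e0 k (pre Z 0) = true
      · have : (⋃ m' ∈ Finset.range (0 + 1), DD v (3 * M + 1) e0 k Z m') = ∅ := by
          rw [Set.eq_empty_iff_forall_notMem]
          intro A hA
          rw [Set.mem_iUnion₂] at hA
          obtain ⟨m', hm', h1, _⟩ := hA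
          obtain rfl : m' = 0 := by rw [Finset.mem_range] at hm'; omega
          rw [hB] at h1
          simp at h1
        rw [this, measure_empty]
        exact bot_le
      · rw [Bool.not_eq_true] at hB
        refine le_trans (measure_mono ?_) (HH_meas k (pre Z 0) (3 * M + 1) hB)
        intro A hA
        rw [Set.mem_iUnion₂] at hA
        obtain ⟨m', hm', _, h2⟩ := hA
        obtain rfl : m' = 0 := by rw [Finset.mem_range] at hm'; omega
        exact h2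
    | succ m ih =>
      by_cases hB : BT v (3 * M + 1) e0 k (pre Z (m + 1)) = true
      · refine le_trans (measure_mono ?_) ih
        intro A hA
        rw [Set.mem_iUnion₂] at hA ⊢
        obtain ⟨m', hm', h1, h2⟩ := hA
        rcases Nat.lt_or_ge m' (m + 1) with h3 | h3
        · exact ⟨m', Finset.mem_range.2 h3, h1, h2⟩
        · obtain rfl : m' = m + 1 := by rw [Finset.mem_range] at hm'; omega
          rw [hB] at h1
          simp at h1
      · rw [Bool.not_eq_true] at hB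
        refine le_trans (measure_mono ?_) (HH_meas k (pre Z (m + 1)) (3 * M + 1) hB)
        intro A hA
        rw [Set.mem_iUnion₂] at hA
        obtain ⟨m', hm', _, h2⟩ := hA
        rw [Finset.mem_range] at hm'
        exact hmono m' (m + 1) (by omega) h2
  have hU : (⋃ m, DD v (3 * M + 1) e0 k Z m) =
      ⋃ m, ⋃ m' ∈ Finset.range (m + 1), DD v (3 * M + 1) e0 k Z m' := by
    ext A
    rw [Set.mem_iUnion, Set.mem_iUnion]
    constructor
    · rintro ⟨m, h⟩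
      exact ⟨m, Set.mem_iUnion₂.2 ⟨m, Finset.mem_range.2 (by omega), h⟩⟩
    · rintro ⟨m, h⟩
      obtain ⟨m', _, h⟩ := Set.mem_iUnion₂.1 h
      exact ⟨m', h⟩
  rw [hU, Monotone.measure_iUnion]
  · exact iSup_le hS
  · intro m m' h
    refine Set.biUnion_subset_biUnion_left fun i hi => ?_
    rw [Finset.mem_coe, Finset.mem_range] at hi ⊢
    omega

/-- the test for the directions -/
def ET (v : ℕ × ℕ × ℕ × ℕ → ℕ) (K e0 : ℕ) (y : List Bool × ℕ × List Bool) : Prop :=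
  ∃ q : ℕ × ℕ × ℕ, ((((y.2.1 ≤ q.1 ∧ q.2.1 ≤ y.1.length) ∧ q.2.1 / 2 ≤ y.2.2.length) ∧
    BT v K e0 q.1 (y.1.take q.2.1) = false) ∧ q.2.2 < 2 ^ (q.2.1 / 2)) ∧
      (nb (q.2.1 / 2) q.2.2 = y.2.2.take (q.2.1 / 2) ∧ TT v K e0 q.1 (y.1.take q.2.1) q.2.2 = true)

theorem ET_re {v : ℕ × ℕ × ℕ × ℕ → ℕ} (hvc : Computable v) (K e0 : ℕ) : S1 (ET v K e0) := by
  refine S1.of_re ?_
  unfold ET
  refine Pool.Agent.Helper446.RE.ex (p := fun (y : List Bool × ℕ × List Bool) (q : ℕ × ℕ × ℕ) =>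
    ((((y.2.1 ≤ q.1 ∧ q.2.1 ≤ y.1.length) ∧ q.2.1 / 2 ≤ y.2.2.length) ∧
    BT v K e0 q.1 (y.1.take q.2.1) = false) ∧ q.2.2 < 2 ^ (q.2.1 / 2)) ∧
      (nb (q.2.1 / 2) q.2.2 = y.2.2.take (q.2.1 / 2) ∧ TT v K e0 q.1 (y.1.take q.2.1) q.2.2 = true)) ?_
  have hk : Computable fun z : (List Bool × ℕ × List Bool) × (ℕ × ℕ × ℕ) => z.2.1 := by fun_prop
  have hm : Computable fun z : (List Bool × ℕ × List Bool) × (ℕ × ℕ × ℕ) => z.2.2.1 := by fun_prop
  have hi : Computable fun z : (List Bool × ℕ × List Bool) × (ℕ × ℕ × ℕ) => z.2.2.2 := by fun_prop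
  have hx : Computable fun z : (List Bool × ℕ × List Bool) × (ℕ × ℕ × ℕ) => z.1.1 := by fun_prop
  have hj : Computable fun z : (List Bool × ℕ × List Bool) × (ℕ × ℕ × ℕ) => z.1.2.1 := by fun_prop
  have hs : Computable fun z : (List Bool × ℕ × List Bool) × (ℕ × ℕ × ℕ) => z.1.2.2 := by fun_prop
  have hr := comp_half hm
  refine Pool.Agent.Helper446.RE.and (Pool.Agent.Helper446.RE.and (Pool.Agent.Helper446.RE.and
    (Pool.Agent.Helper446.RE.and (Pool.Agent.Helper446.RE.and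
      (Pool.Agent.Helper446.RE.le hj hk) (Pool.Agent.Helper446.RE.le hm (clength hx)))
      (Pool.Agent.Helper446.RE.le hr (clength hs)))
      (Pool.Agent.Helper446.RE.eq ((BT_comp hvc K e0).comp hk (comp_take hx hm)) (cconst false)))
      (Pool.Agent.Helper446.RE.lt hi (comp_pow2 hr)))
    (Pool.Agent.Helper446.RE.and (Pool.Agent.Helper446.RE.eq (comp_nb hr hi) (comp_take hs hr))
      (Pool.Agent.Helper446.RE.of_bool (TT_comp hvc K e0 hk (comp_take hx hm) hi)))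

theorem ET_iff (K : ℕ) (Z : ℕ → Bool) (j : ℕ) (A : ℕ → Bool) :
    A ∈ UE (ET v K e0) Z j ↔ ∃ k, j ≤ k ∧ ∃ m, A ∈ DD v K e0 k Z m := by
  constructor
  · rintro ⟨s, t, ⟨k, m, i⟩, ⟨⟨⟨⟨h1, h2⟩, h3⟩, h4⟩, h5⟩, h6, h7⟩
    simp only [length_pre] at h1 h2 h3 h4 h5 h6 h7
    rw [take_pre _ _ _ h2] at h4 h7
    rw [take_pre _ _ _ h3] at h6
    refine ⟨k, h1, m, h4, i, ?_, ?_, h7⟩
    · rw [length_pre]; exact h5
    · rw [length_pre]; exact h6
  · rintro ⟨k, h1, m, h4, i, h5, h6, h7⟩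
    rw [length_pre] at h5 h6
    refine ⟨m, m / 2, ⟨k, m, i⟩, ⟨⟨⟨⟨h1, by simp⟩, by simp⟩, ?_⟩, h5⟩, ?_, ?_⟩
    · simp only
      rw [take_pre _ _ _ le_rfl]; exact h4
    · simp only
      rw [take_pre _ _ _ le_rfl]; exact h6
    · simp only
      rw [take_pre _ _ _ le_rfl]; exact h7

theorem ET_meas (hv : Spec z1 z2 v L M) (Z : ℕ → Bool) (j : ℕ) :
    lam (UE (ET v (3 * M + 1) e0) Z j) ≤ (1 / 2) ^ j := by
  have hsub : UE (ET v (3 * M + 1) e0) Z j ⊆ ⋃ k, ⋃ m, DD v (3 * M + 1) e0 (j + k) Z m := by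
    intro A hA
    rw [ET_iff] at hA
    obtain ⟨k, hk, m, h⟩ := hA
    rw [Set.mem_iUnion]
    refine ⟨k - j, ?_⟩
    rw [show j + (k - j) = k by omega, Set.mem_iUnion]
    exact ⟨m, h⟩
  refine (measure_mono hsub).trans ((measure_iUnion_le _).trans ?_)
  calc ∑' k, lam (⋃ m, DD v (3 * M + 1) e0 (j + k) Z m) ≤ ∑' k : ℕ, (1 / 2 : ℝ≥0∞) ^ (j + 1) * (1 / 2) ^ k := by
        refine ENNReal.tsum_le_tsum fun k => ?_
        refine (DD_meas hv (j + k) Z).trans (le_of_eq ?_)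
        rw [← pow_add]
        congr 1
        omega
    _ = (1 / 2 : ℝ≥0∞) ^ (j + 1) * 2 := by
        rw [ENNReal.tsum_mul_left]
        congr 1
        simp only [one_div]
        rw [ENNReal.tsum_geometric]
        rw [ENNReal.one_sub_inv_two, inv_inv]
    _ = (1 / 2) ^ j := by
        rw [pow_succ, mul_assoc, one_div, ENNReal.inv_mul_cancel (by norm_num) (by norm_num), mul_one]

end test

/-! ### points -/

theorem floor_digit (y : ℝ) (r : ℕ) : ⌊2 ^ (r + 1) * y⌋ = 2 * ⌊2 ^ r * y⌋ + ((bin y r).toNat : ℤ) := by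
  have h1 := floor_half y r
  unfold bin
  have h2 := Int.emod_two_eq_zero_or_one ⌊2 ^ (r + 1) * y⌋
  have h3 := Int.mul_ediv_add_emod ⌊2 ^ (r + 1) * y⌋ 2
  rcases h2 with h2 | h2
  · rw [h2] at h3
    have : decide (⌊2 ^ (r + 1) * y⌋ % 2 = 1) = false := by
      rw [decide_eq_false_iff_not, h2]; norm_num
    rw [this]
    simp only [Bool.toNat_false, Nat.cast_zero, add_zero]
    omega
  · rw [h2] at h3
    have : decide (⌊2 ^ (r + 1) * y⌋ % 2 = 1) = true := by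
      rw [decide_eq_true_eq]; exact h2
    rw [this]
    simp only [Bool.toNat_true, Nat.cast_one]
    omega

theorem getD_pre {Z : ℕ → Bool} {i m : ℕ} (h : i < m) : (pre Z m).getD i false = Z i := by
  rw [List.getD_eq_getElem _ _ (by simpa using h), getElem_pre]

theorem evn_pre (y1 y2 : ℝ) (m r : ℕ) (h : 2 * r ≤ m) :
    (evn (pre (join (bin y1) (bin y2)) m) r : ℤ) = ⌊2 ^ r * y1⌋ - 2 ^ r * ⌊y1⌋ := by
  induction r with
  | zero => simp [evn]
  | succ r ih =>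
    rw [evn, getD_pre (by omega)]
    have h1 : join (bin y1) (bin y2) (2 * r) = bin y1 r := by
      unfold join
      rw [if_pos (by omega), show 2 * r / 2 = r by omega]
    rw [h1]
    push_cast
    rw [ih (by omega), floor_digit]
    ring

theorem odn_pre (y1 y2 : ℝ) (m r : ℕ) (h : 2 * r ≤ m) :
    (odn (pre (join (bin y1) (bin y2)) m) r : ℤ) = ⌊2 ^ r * y2⌋ - 2 ^ r * ⌊y2⌋ := by
  induction r with
  | zero => simp [odn]
  | succ r ih =>
    rw [odn]
    by_cases h2 : 2 * r + 1 < m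
    · rw [getD_pre h2]
      have h1 : join (bin y1) (bin y2) (2 * r + 1) = bin y2 r := by
        unfold join
        rw [if_neg (by omega), show (2 * r + 1) / 2 = r by omega]
      rw [h1]
      push_cast
      rw [ih (by omega), floor_digit]
      ring
    · omega

theorem cell {y : ℝ} {a : ℕ} {r : ℕ} (h : (a : ℤ) = ⌊2 ^ r * y⌋ - 2 ^ r * ⌊y⌋) :
    (⌊y⌋ : ℝ) + (a : ℝ) / 2 ^ r ≤ y ∧ y ≤ (⌊y⌋ : ℝ) + ((a : ℝ) + 1) / 2 ^ r := by
  have hR : (0 : ℝ) < 2 ^ r := by positivity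
  have h1 := Int.floor_le (2 ^ r * y)
  have h2 := Int.lt_floor_add_one (2 ^ r * y)
  have h3 : (a : ℝ) = (⌊2 ^ r * y⌋ : ℝ) - 2 ^ r * (⌊y⌋ : ℝ) := by
    have h4 : (((a : ℤ)) : ℝ) = ((⌊2 ^ r * y⌋ - 2 ^ r * ⌊y⌋ : ℤ) : ℝ) := by rw [h]
    push_cast at h4
    linarith
  have e1 : (⌊y⌋ : ℝ) + (a : ℝ) / 2 ^ r = (⌊2 ^ r * y⌋ : ℝ) / 2 ^ r := by
    rw [h3]; field_simp; ring
  have e2 : (⌊y⌋ : ℝ) + ((a : ℝ) + 1) / 2 ^ r = ((⌊2 ^ r * y⌋ : ℝ) + 1) / 2 ^ r := by
    rw [h3]; field_simp; ring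
  rw [e1, e2]
  constructor
  · rw [div_le_iff₀ hR]; linarith
  · rw [le_div_iff₀ hR]; linarith

/-- the main dichotomy -/
theorem hits {z1 z2 : ℤ} {v : ℕ × ℕ × ℕ × ℕ → ℕ} {L M e0 : ℕ} {E : List Bool × ℕ × List Bool → Prop}
    (hE0 : ∀ x, E x ↔ ∃ s, wst (List Bool × ℕ × List Bool) e0 s x = true)
    {x1 x2 θ : ℝ} (hz1 : z1 = ⌊x1⌋) (hz2 : z2 = ⌊x2⌋) (hv : Spec z1 z2 v L M)
    (hθ0 : 0 ≤ θ) (hθ1 : θ < 1)
    (h : ∀ n, bin (x1 * Real.cos (2 * Real.pi * θ) + x2 * Real.sin (2 * Real.pi * θ)) ∈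
      UE E (bin θ) n) (j : ℕ) : ∃ m0, ∀ m, m0 ≤ m →
        bin θ ∈ HH v (3 * M + 1) e0 j (pre (join (bin x1) (bin x2)) m) := by
  obtain ⟨t, ht⟩ : ∃ t : ℝ, t = x1 * Real.cos (2 * Real.pi * θ) + x2 * Real.sin (2 * Real.pi * θ) + L :=
    ⟨_, rfl⟩
  have hbin : bin t = bin (x1 * Real.cos (2 * Real.pi * θ) + x2 * Real.sin (2 * Real.pi * θ)) := by
    rw [ht]
    have := bin_add (x1 * Real.cos (2 * Real.pi * θ) + x2 * Real.sin (2 * Real.pi * θ)) (L : ℤ)
    rw [← this]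
    norm_num
  have happ : ∀ m, |(v (m / 2, evn (pre (join (bin x1) (bin x2)) m) (m / 2),
      odn (pre (join (bin x1) (bin x2)) m) (m / 2), ⌊2 ^ (m / 2) * θ⌋₊) : ℝ) - 2 ^ (m / 2) * t| ≤ M := by
    intro m
    have c1 := cell (evn_pre x1 x2 m (m / 2) (by omega))
    have c2 := cell (odn_pre x1 x2 m (m / 2) (by omega))
    have hf : ⌊2 ^ (m / 2) * θ⌋₊ < 2 ^ (m / 2) := by
      rw [Nat.floor_lt (by positivity)]
      push_cast
      have : (0 : ℝ) < 2 ^ (m / 2) := by positivity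
      nlinarith
    have hR : (0 : ℝ) < 2 ^ (m / 2) := by positivity
    have f1 := Nat.floor_le (by positivity : 0 ≤ 2 ^ (m / 2) * θ)
    have f2 := Nat.lt_floor_add_one (2 ^ (m / 2) * θ)
    rw [ht]
    refine hv (m / 2) _ _ _ (evn_lt _ _) (odn_lt _ _) hf x1 x2 θ ?_ ?_ ?_ ?_ ?_ ?_
    · rw [hz1]; exact c1.1
    · rw [hz1]; exact c1.2
    · rw [hz2]; exact c2.1
    · rw [hz2]; exact c2.2
    · rw [div_le_iff₀ hR]; linarith
    · rw [le_div_iff₀ hR]; linarith
  have ht0 : 0 ≤ t := by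
    by_contra hc
    push Not at hc
    obtain ⟨r, hr⟩ := pow_unbounded_of_one_lt ((M : ℝ) / (-t)) (show (1 : ℝ) < 2 by norm_num)
    rw [div_lt_iff₀ (by linarith)] at hr
    have h1 := (abs_le.1 (happ (2 * r))).2
    rw [show 2 * r / 2 = r by omega] at h1
    have h2 : (0 : ℝ) ≤ v (r, evn (pre (join (bin x1) (bin x2)) (2 * r)) r,
      odn (pre (join (bin x1) (bin x2)) (2 * r)) r, ⌊2 ^ r * θ⌋₊) := Nat.cast_nonneg _
    linarith
  obtain ⟨r0, hr0⟩ := interior hE0 ht0 (c := 4 * j) (A := bin θ) (by rw [hbin]; exact h _)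
    (3 * M + 1 + M)
  refine ⟨2 * r0 + 1, fun m hm => ?_⟩
  have hf : ⌊2 ^ (m / 2) * θ⌋₊ < 2 ^ (m / 2) := by
    rw [Nat.floor_lt (by positivity)]
    push_cast
    have : (0 : ℝ) < 2 ^ (m / 2) := by positivity
    nlinarith
  refine ⟨⌊2 ^ (m / 2) * θ⌋₊, by rw [length_pre]; exact hf, ?_, ?_⟩
  · rw [length_pre, pre_bin hθ0]
  · rw [TT_iff (r := m / 2) (by rw [length_pre])]
    intro u hu1 hu2
    rw [← pre_bin hθ0]
    refine hr0 (m / 2) (by omega) u ?_
    have h1 := abs_le.1 (happ m)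
    obtain ⟨V, hV⟩ : ∃ V, V = v (m / 2, evn (pre (join (bin x1) (bin x2)) m) (m / 2),
      odn (pre (join (bin x1) (bin x2)) m) (m / 2), ⌊2 ^ (m / 2) * θ⌋₊) := ⟨_, rfl⟩
    rw [← hV] at hu1 hu2 h1
    have h2 : (u : ℝ) ≤ V + (3 * M + 1) := by exact_mod_cast hu1
    have h3 : (V : ℝ) ≤ u + (3 * M + 1) := by exact_mod_cast hu2
    rw [abs_le]
    push_cast
    constructor
    · linarith [h1.1]
    · linarith [h1.2]

open Pool.Agent.X234.TD in
/-- descriptions of the initial segments give descriptions of the approximations of the point -/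
theorem dim_le_of {U : List Bool →. List Bool} (hU : IsUniversal U) {code : ℚ × ℚ → List Bool}
    (hc : IsCoding code) (x1 x2 : ℝ) {b : ℕ} (hb : 0 < b) (C k0 : ℕ)
    (h : ∀ k, k0 ≤ k → ∃ m, KU U (pre (join (bin x1) (bin x2)) m) + k ≤
      ex b m + m / (2 * b) + C) : dim U code (x1, x2) ≤ ((b + 2 : ℕ) : ℝ≥0∞) / b := by
  obtain ⟨ip, im, hz1⟩ : ∃ ip im : ℕ, ⌊x1⌋ = (ip : ℤ) - im := ⟨⌊x1⌋.toNat, (-⌊x1⌋).toNat, by omega⟩
  obtain ⟨jp, jm, hz2⟩ : ∃ jp jm : ℕ, ⌊x2⌋ = (jp : ℤ) - jm := ⟨⌊x2⌋.toNat, (-⌊x2⌋).toNat, by omega⟩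
  obtain ⟨g, hg⟩ : ∃ g : List Bool → List Bool, g = fun w => code (vec
    (ip * 2 ^ (w.length / 2) + evn w (w.length / 2)) (im * 2 ^ (w.length / 2))
    (jp * 2 ^ (w.length / 2) + odn w (w.length / 2)) (jm * 2 ^ (w.length / 2))
    (2 ^ (w.length / 2) - 1)) := ⟨_, rfl⟩
  have hgc : Computable g := by
    rw [hg]
    have hr : Computable fun w : List Bool => w.length / 2 := comp_half (by fun_prop)
    have hp := comp_pow2 hr
    exact hc.2.comp (g := fun w : List Bool => (ip * 2 ^ (w.length / 2) + evn w (w.length / 2),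
      im * 2 ^ (w.length / 2), jp * 2 ^ (w.length / 2) + odn w (w.length / 2),
      jm * 2 ^ (w.length / 2), 2 ^ (w.length / 2) - 1))
      (cpair (cadd (cmul (cconst _) hp) (comp_evn Computable.id hr)) (cpair (cmul (cconst _) hp)
        (cpair (cadd (cmul (cconst _) hp) (comp_odn Computable.id hr))
          (cpair (cmul (cconst _) hp) (csub hp (cconst 1))))))
  obtain ⟨D, hD⟩ := Pool.Agent.W968.SSC.KU_map hU hgc
  refine dim_le hb (c := C + D + b + 3) ?_
  rw [Filter.frequently_atTop]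
  intro T
  obtain ⟨m, hm⟩ := h (k0 + (3 * (2 * (b * (T + 1) + 2)) + C + 2)) (by omega)
  obtain ⟨r, hr⟩ : ∃ r, r = m / 2 := ⟨_, rfl⟩
  -- `m` is large
  have e1 : m / (2 * b) ≤ m := Nat.div_le_self _ _
  have e2 : (m + 1) / (2 * b) ≤ m + 1 := Nat.div_le_self _ _
  have hm1 : 2 * (b * (T + 1) + 2) ≤ m := by
    unfold ex at hm
    generalize m / (2 * b) = A at hm e1
    generalize (m + 1) / (2 * b) = B at hm e2
    generalize b * (T + 1) = S at hm ⊢
    omega
  have hr1 : b * (T + 1) + 2 ≤ r := by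
    generalize b * (T + 1) = S at hm1 ⊢
    omega
  refine ⟨(r - 1) / b, ?_, ?_⟩
  · rw [Nat.le_div_iff_mul_le hb]
    have : T * b ≤ b * (T + 1) := by rw [mul_comm T b]; exact Nat.mul_le_mul_left _ (by omega)
    omega
  · obtain ⟨t, ht⟩ : ∃ t, t = (r - 1) / b := ⟨_, rfl⟩
    rw [← ht]
    have ht1 : b * t ≤ r - 1 := by rw [ht]; exact Nat.mul_div_le _ _
    have ht2 : r - 1 < b * (t + 1) := by rw [ht]; exact Nat.lt_mul_div_succ _ hb
    obtain ⟨w, hw⟩ : ∃ w, w = pre (join (bin x1) (bin x2)) m := ⟨_, rfl⟩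
    rw [← hw] at hm
    have hwl : w.length / 2 = r := by rw [hw, length_pre, hr]
    have hclose : Kr U code (x1, x2) (b * t) ≤ KU U (g w) := by
      refine Kr_le (q := vec (ip * 2 ^ r + evn w r) (im * 2 ^ r) (jp * 2 ^ r + odn w r)
        (jm * 2 ^ r) (2 ^ r - 1)) (r := b * t) ?_ |>.trans (le_of_eq ?_)
      · have c1 := cell (evn_pre x1 x2 m r (by omega))
        have c2 := cell (odn_pre x1 x2 m r (by omega))
        rw [← hw] at c1 c2
        have hR : (0 : ℝ) < 2 ^ r := by positivity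
        have h4 : ((2 ^ r - 1 : ℕ) : ℝ) + 1 = 2 ^ r := by
          have h5 : 1 ≤ 2 ^ r := Nat.one_le_two_pow
          rw [Nat.cast_sub h5]
          push_cast
          ring
        have h5 : (((vec (ip * 2 ^ r + evn w r) (im * 2 ^ r) (jp * 2 ^ r + odn w r)
            (jm * 2 ^ r) (2 ^ r - 1)).1 : ℚ) : ℝ) = (⌊x1⌋ : ℝ) + (evn w r : ℝ) / 2 ^ r := by
          unfold vec
          simp only
          push_cast
          rw [h4, hz1]
          push_cast
          field_simp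
          ring
        have h6 : (((vec (ip * 2 ^ r + evn w r) (im * 2 ^ r) (jp * 2 ^ r + odn w r)
            (jm * 2 ^ r) (2 ^ r - 1)).2 : ℚ) : ℝ) = (⌊x2⌋ : ℝ) + (odn w r : ℝ) / 2 ^ r := by
          unfold vec
          simp only
          push_cast
          rw [h4, hz2]
          push_cast
          field_simp
          ring
        rw [h5, h6]
        simp only
        have c1' : (⌊x1⌋ : ℝ) + (evn w r : ℝ) / 2 ^ r ≤ x1 ∧
            x1 ≤ (⌊x1⌋ : ℝ) + ((evn w r : ℝ) + 1) / 2 ^ r := c1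
        have c2' : (⌊x2⌋ : ℝ) + (odn w r : ℝ) / 2 ^ r ≤ x2 ∧
            x2 ≤ (⌊x2⌋ : ℝ) + ((odn w r : ℝ) + 1) / 2 ^ r := c2
        rw [add_div] at c1' c2'
        obtain ⟨δ, hδ⟩ : ∃ δ : ℝ, δ = 1 / 2 ^ r := ⟨_, rfl⟩
        have hδ0 : 0 < δ := by rw [hδ]; positivity
        rw [← hδ] at c1' c2'
        have h7 : (1 / 2 : ℝ) ^ (r - 1) = 2 * δ := by
          have : r = (r - 1) + 1 := by omega
          rw [hδ, this, pow_succ, Nat.add_sub_cancel, one_div_pow]
          field_simp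
        have h8 : (1 / 2 : ℝ) ^ (r - 1) ≤ (1 / 2) ^ (b * t) :=
          pow_le_pow_of_le_one (by norm_num) (by norm_num) ht1
        refine lt_of_lt_of_le ?_ h8
        rw [h7, Real.sqrt_lt' (by positivity)]
        have g1 : ((⌊x1⌋ : ℝ) + (evn w r : ℝ) / 2 ^ r - x1) ^ 2 ≤ δ ^ 2 :=
          sq_le_sq' (by linarith [c1'.2]) (by linarith [c1'.1])
        have g2 : ((⌊x2⌋ : ℝ) + (odn w r : ℝ) / 2 ^ r - x2) ^ 2 ≤ δ ^ 2 :=
          sq_le_sq' (by linarith [c2'.2]) (by linarith [c2'.1])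
        nlinarith
      · rw [hg]
        simp only [hwl]
        rfl
    have h1 := hD w
    have h2 : m / (2 * b) ≤ t + 1 := by
      rw [← Nat.div_div_eq_div_mul, ← hr]
      have : r ≤ b * (t + 1) := by omega
      calc r / b ≤ b * (t + 1) / b := Nat.div_le_div_right this
        _ = t + 1 := Nat.mul_div_cancel_left _ hb
    have h3 : (m + 1) / (2 * b) ≤ t + 2 := by
      rw [← Nat.div_div_eq_div_mul]
      have : (m + 1) / 2 ≤ b * (t + 2) := by
        have h5 : b * (t + 2) = b * (t + 1) + b := by ring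
        omega
      calc (m + 1) / 2 / b ≤ b * (t + 2) / b := Nat.div_le_div_right this
        _ = t + 2 := Nat.mul_div_cancel_left _ hb
    have h4 : r ≤ b * t + b := by
      have : b * (t + 1) = b * t + b := by ring
      omega
    unfold ex at hm
    rw [← hr] at hm
    have h5 : (b + 2) * t = b * t + 2 * t := by ring
    rw [h5]
    generalize m / (2 * b) = A at hm h2
    generalize (m + 1) / (2 * b) = B at hm h3
    generalize b * t = S at h4 hclose ⊢
    omega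

open Pool.Agent.X234.TD in
/-- the projection of a point of dimension greater than one in a direction which is random relative
to the point is random relative to the direction -/
theorem main {U : List Bool →. List Bool} (hU : IsUniversal U) {code : ℚ × ℚ → List Bool}
    (hc : IsCoding code) (x1 x2 θ : ℝ) (hdim : 1 < dim U code (x1, x2)) (hθ0 : 0 ≤ θ) (hθ1 : θ < 1)
    (hθ : MLR (join (bin x1) (bin x2)) (bin θ)) :
    MLR (bin θ) (bin (x1 * Real.cos (2 * Real.pi * θ) + x2 * Real.sin (2 * Real.pi * θ))) := by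
  obtain ⟨E, hE, -, hEm, hEU⟩ := exists_universal
  obtain ⟨e0, hE0⟩ := wst_univ hE.re
  by_contra hcon
  rw [hEU] at hcon
  push Not at hcon
  obtain ⟨v, L, M, hvc, hv⟩ := exists_v ⌊x1⌋ ⌊x2⌋
  have hhits := hits (L := L) (M := M) hE0 rfl rfl hv hθ0 hθ1 hcon
  obtain ⟨Z, hZ⟩ : ∃ Z, Z = join (bin x1) (bin x2) := ⟨_, rfl⟩
  rw [← hZ] at hhits hθ
  have htest := isMLTest_of_E (A := Z) (ET_re hvc (3 * M + 1) e0) (fun j => ET_meas hv Z j)
  have hnot := hθ _ htest
  rw [Set.mem_iInter] at hnot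
  push Not at hnot
  obtain ⟨j0, hj0⟩ := hnot
  have hB : ∀ k, j0 ≤ k → ∃ m, BT v (3 * M + 1) e0 k (pre Z m) = true := by
    intro k hk
    by_contra hno
    push Not at hno
    apply hj0
    rw [ET_iff]
    obtain ⟨m0, hm0⟩ := hhits k
    exact ⟨k, hk, m0, by simpa using hno m0, hm0 m0 le_rfl⟩
  have hall : ∀ b : ℕ, 0 < b → dim U code (x1, x2) ≤ ((b + 2 : ℕ) : ℝ≥0∞) / b := by
    intro b hb
    obtain ⟨a, ha⟩ := BT_mass hE0 hEm hv hb
    have hexc : Computable (ex b) := by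
      unfold ex
      exact cadd (comp_half Computable.id) (Primrec.nat_div.to_comp.comp
        (cadd Computable.id (cconst 1)) (cconst (2 * b)))
    obtain ⟨C, hC⟩ := cover hU hexc (BT_comp hvc (3 * M + 1) e0) (ex_mono b) (ex_succ hb)
      (fun j x s => BT_mono hv j x s) hb a ha
    refine dim_le_of hU hc x1 x2 hb C j0 fun k hk => ?_
    obtain ⟨m, hm⟩ := hB k hk
    obtain ⟨i, hi, h1⟩ := hC k (pre Z m) hm
    rw [length_pre] at hi
    rw [take_pre _ _ _ hi] at h1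
    exact ⟨i, by rw [← hZ]; exact h1⟩
  obtain ⟨q, hq1, hq2⟩ := exists_between hdim
  have hqt : q ≠ ∞ := ne_top_of_lt hq2
  lift q to NNReal using hqt
  have hq1' : (1 : ℝ) < q := by exact_mod_cast hq1
  obtain ⟨b, hb⟩ := exists_nat_gt (2 / ((q : ℝ) - 1))
  have hq0 : (0 : ℝ) < (q : ℝ) - 1 := by linarith
  have hb0 : (0 : ℝ) < b := lt_trans (by positivity) hb
  have hb1 : 0 < b := by exact_mod_cast hb0
  rw [div_lt_iff₀ hq0] at hb
  have h1 := hall b hb1
  have h2 : ((b + 2 : ℕ) : ℝ≥0∞) / b ≤ q := by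
    rw [ENNReal.div_le_iff_le_mul (Or.inl (by exact_mod_cast hb1.ne')) (Or.inl (ENNReal.natCast_ne_top _))]
    have h3 : ((b + 2 : ℕ) : ℝ) ≤ (q : ℝ) * b := by push_cast; linarith
    have h4 : (((b + 2 : ℕ) : NNReal)) ≤ q * (b : NNReal) := by
      rw [← NNReal.coe_le_coe]; push_cast; push_cast at h3; exact h3
    have h5 : ((((b + 2 : ℕ) : NNReal)) : ℝ≥0∞) ≤ ((q * (b : NNReal) : NNReal) : ℝ≥0∞) :=
      ENNReal.coe_le_coe.2 h4
    simpa using h5
  exact absurd (h1.trans h2) (not_le.2 hq2)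

end Pool.Agent.X234.PJ
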