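import Pool.Agent.X234.PJ.Cover
import Pool.Agent.Helper227.Univ

/-!
Tests for the projections and for the directions.
-/

set_option autoImplicit false

namespace Pool.Agent.X234.PJ

open Finset Pool.Agent.Helper227 Encodable MeasureTheory
open Pool.Agent.Helper446.RE Pool.Agent.X234.KR

/-- stages of the universal test -/
def PU (e0 c : ℕ) (σ τ : List Bool) : Bool :=
  (List.range (σ.length + 1)).any fun a => (List.range (σ.length + 1)).any fun b =>
    wst (List Bool × ℕ × List Bool) e0 σ.length (σ.take a, c + 1, τ.take b)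

/-- a long run of ones -/
def RR (c : ℕ) (τ : List Bool) : Bool :=
  (List.range (τ.length + 1)).any fun l => decide (2 * l + c + 3 ≤ τ.length) &&
    (List.range (l + c + 3)).all fun i => τ.getD (l + i) false

/-- the test -/
def PR (e0 c : ℕ) (σ τ : List Bool) : Bool := PU e0 c σ τ || RR c τ

theorem PU_iff {e0 c : ℕ} {σ τ : List Bool} : PU e0 c σ τ = true ↔ ∃ a ≤ σ.length, ∃ b ≤ σ.length,
    wst (List Bool × ℕ × List Bool) e0 σ.length (σ.take a, c + 1, τ.take b) = true := by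
  unfold PU
  rw [List.any_eq_true]
  constructor
  · rintro ⟨a, ha, h⟩
    rw [List.any_eq_true] at h
    obtain ⟨b, hb, h⟩ := h
    rw [List.mem_range] at ha hb
    exact ⟨a, by omega, b, by omega, h⟩
  · rintro ⟨a, ha, b, hb, h⟩
    refine ⟨a, List.mem_range.2 (by omega), ?_⟩
    rw [List.any_eq_true]
    exact ⟨b, List.mem_range.2 (by omega), h⟩

theorem RR_iff {c : ℕ} {τ : List Bool} : RR c τ = true ↔ ∃ l, 2 * l + c + 3 ≤ τ.length ∧
    ∀ i < l + c + 3, τ.getD (l + i) false = true := by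
  unfold RR
  rw [List.any_eq_true]
  constructor
  · rintro ⟨l, _, h⟩
    rw [Bool.and_eq_true, decide_eq_true_eq, List.all_eq_true] at h
    exact ⟨l, h.1, fun i hi => h.2 i (List.mem_range.2 hi)⟩
  · rintro ⟨l, h1, h2⟩
    refine ⟨l, List.mem_range.2 (by omega), ?_⟩
    rw [Bool.and_eq_true, decide_eq_true_eq, List.all_eq_true]
    exact ⟨h1, fun i hi => h2 i (List.mem_range.1 hi)⟩

theorem PR_mono {e0 c : ℕ} {σ τ σ' τ' : List Bool} (hl : σ.length = τ.length)
    (hσ : σ <+: σ') (hτ : τ <+: τ') (h : PR e0 c σ τ = true) : PR e0 c σ' τ' = true := by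
  unfold PR at *
  rw [Bool.or_eq_true] at *
  have e1 := hσ.length_le
  have e2 := hτ.length_le
  rcases h with h | h
  · left
    rw [PU_iff] at h ⊢
    obtain ⟨a, ha, b, hb, h⟩ := h
    refine ⟨a, by omega, b, by omega, ?_⟩
    obtain ⟨u, rfl⟩ := hσ
    obtain ⟨v, rfl⟩ := hτ
    rw [List.take_append_of_le_length ha, List.take_append_of_le_length (by omega)]
    exact wst_mono (by simp) h
  · right
    rw [RR_iff] at h ⊢
    obtain ⟨l, h1, h2⟩ := h
    refine ⟨l, by omega, fun i hi => ?_⟩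
    obtain ⟨v, rfl⟩ := hτ
    rw [List.getD_append _ _ _ _ (by omega)]
    exact h2 i hi

section
variable {E : List Bool × ℕ × List Bool → Prop} {e0 : ℕ}

theorem card_PR (hE0 : ∀ x, E x ↔ ∃ s, wst (List Bool × ℕ × List Bool) e0 s x = true)
    (hEm : ∀ A n, lam (UE E A n) ≤ (1 / 2) ^ n) (c r : ℕ) (σ : List Bool) (hσ : σ.length = r) :
    (((St r).filter fun τ => PR e0 c σ τ = true).card : ℝ) ≤ (1 / 2) ^ c * 2 ^ r := by
  classical
  obtain ⟨G, hG⟩ : ∃ G, G = (St r).filter fun τ => PR e0 c σ τ = true := ⟨_, rfl⟩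
  rw [← hG]
  have h1 := lam_finset G r (fun τ hτ => by
    rw [hG, Finset.mem_filter, mem_St] at hτ
    exact hτ.1)
  have h2 : lam.real {X | pre X r ∈ G} = G.card * (1 / 2) ^ r := by
    unfold Measure.real
    rw [h1]
    simp
  obtain ⟨A, hA⟩ : ∃ A : ℕ → Bool, A = fun n => σ.getD n false := ⟨_, rfl⟩
  have hpre : pre A r = σ := by
    refine List.ext_getElem (by simp [hσ]) fun i h3 h4 => ?_
    rw [getElem_pre, hA]
    simp only
    rw [List.getD_eq_getElem _ _ h4]
  have hsub : {X : ℕ → Bool | pre X r ∈ G} ⊆ UE E A (c + 1) ∪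
      ⋃ l ∈ Finset.range r, {X : ℕ → Bool | ∀ i ∈ Finset.Ico l (l + (l + c + 3)), X i = true} := by
    intro X hX
    rw [Set.mem_ofPred_eq, hG, Finset.mem_filter] at hX
    have h3 := hX.2
    unfold PR at h3
    rw [Bool.or_eq_true] at h3
    rcases h3 with h3 | h3
    · left
      rw [PU_iff] at h3
      obtain ⟨a, ha, b, hb, h3⟩ := h3
      refine ⟨a, b, ?_⟩
      rw [hE0]
      refine ⟨σ.length, ?_⟩
      rw [← hpre, take_pre _ _ _ (by omega), take_pre _ _ _ (by omega), hpre] at h3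
      exact h3
    · right
      rw [RR_iff] at h3
      obtain ⟨l, h4, h5⟩ := h3
      rw [length_pre] at h4
      rw [Set.mem_iUnion₂]
      refine ⟨l, Finset.mem_range.2 (by omega), ?_⟩
      intro i hi
      rw [Finset.mem_Ico] at hi
      have h6 := h5 (i - l) (by omega)
      rw [show l + (i - l) = i by omega, List.getD_eq_getElem _ _ (by rw [length_pre]; omega),
        getElem_pre] at h6
      exact h6
  have h3 : lam.real {X | pre X r ∈ G} ≤ (1 / 2) ^ (c + 1) + ∑ l ∈ Finset.range r, (1 / 2) ^ (l + (c + 3)) := by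
    refine (measureReal_mono hsub (measure_ne_top _ _)).trans
      ((measureReal_union_le _ _).trans (add_le_add ?_ ?_))
    · unfold Measure.real
      have := ENNReal.toReal_mono (by simp) (hEm A (c + 1))
      simpa using this
    · refine (measureReal_biUnion_finset_le _ _).trans (Finset.sum_le_sum fun l _ => ?_)
      unfold Measure.real
      rw [lam_coord (Finset.Ico l (l + (l + c + 3))) (fun _ => true), Nat.card_Ico]
      simp only [ENNReal.toReal_pow]
      rw [show l + (l + c + 3) - l = l + (c + 3) by omega]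
      simp
  have h4 : ∑ l ∈ Finset.range r, (1 / 2 : ℝ) ^ (l + (c + 3)) ≤ (1 / 2) ^ (c + 2) := by
    have h5 : ∀ l ∈ Finset.range r, (1 / 2 : ℝ) ^ (l + (c + 3)) = (1 / 2) ^ (c + 2) * (1 / 2) ^ (l + 1) := by
      intro l _
      rw [← pow_add]
      congr 1
      omega
    rw [Finset.sum_congr rfl h5, ← Finset.mul_sum]
    have := Pool.Agent.X234.TD.geom_half (Finset.range r)
    calc _ ≤ (1 / 2 : ℝ) ^ (c + 2) * 1 := mul_le_mul_of_nonneg_left this (by positivity)
      _ = _ := mul_one _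
  have h5 : (G.card : ℝ) * (1 / 2) ^ r ≤ (1 / 2) ^ c := by
    rw [← h2]
    refine h3.trans ((add_le_add le_rfl h4).trans ?_)
    rw [pow_succ, show c + 2 = c + 1 + 1 by rfl, pow_succ, pow_succ]
    have : (0 : ℝ) ≤ (1 / 2) ^ c := by positivity
    linarith
  have h6 : (1 / 2 : ℝ) ^ r * 2 ^ r = 1 := by rw [← mul_pow]; norm_num
  calc (G.card : ℝ) = G.card * (1 / 2) ^ r * 2 ^ r := by rw [mul_assoc, h6, mul_one]
    _ ≤ _ := mul_le_mul_of_nonneg_right h5 (by positivity)

end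

/-- the binary digits of (the fractional part of) a real number -/
noncomputable def bin (y : ℝ) (n : ℕ) : Bool := decide (⌊2 ^ (n + 1) * y⌋ % 2 = 1)

theorem bin_add (y : ℝ) (L : ℤ) : bin (y + L) = bin y := by
  funext n
  unfold bin
  have h1 : (2 : ℝ) ^ (n + 1) * (y + L) = 2 ^ (n + 1) * y + ((2 ^ (n + 1) * L : ℤ) : ℝ) := by
    push_cast; ring
  rw [h1, Int.floor_add_intCast]
  obtain ⟨F, hF⟩ : ∃ F, F = ⌊2 ^ (n + 1) * y⌋ := ⟨_, rfl⟩
  rw [← hF]
  have h2 : (F + 2 ^ (n + 1) * L) % 2 = F % 2 := by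
    rw [pow_succ', mul_assoc]
    exact Int.add_mul_emod_self_left _ _ _
  rw [h2]

theorem floor_half (y : ℝ) (r : ℕ) : ⌊2 ^ (r + 1) * y⌋ / 2 = ⌊2 ^ r * y⌋ := by
  have h1 : (2 : ℝ) ^ r * y = (2 ^ (r + 1) * y) / (2 : ℕ) := by
    rw [pow_succ]; push_cast; ring
  rw [h1, Int.floor_div_natCast]
  rfl

theorem pre_bin {y : ℝ} (hy : 0 ≤ y) (r : ℕ) : pre (bin y) r = nb r ⌊2 ^ r * y⌋₊ := by
  induction r with
  | zero => rfl
  | succ r ih =>
    rw [nb]
    have h0 : 0 ≤ 2 ^ (r + 1) * y := by positivity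
    have h0' : 0 ≤ 2 ^ r * y := by positivity
    have h1 : ((⌊2 ^ (r + 1) * y⌋₊ : ℕ) : ℤ) = ⌊2 ^ (r + 1) * y⌋ := Int.natCast_floor_eq_floor h0
    have h1' : ((⌊2 ^ r * y⌋₊ : ℕ) : ℤ) = ⌊2 ^ r * y⌋ := Int.natCast_floor_eq_floor h0'
    have h2 : ⌊2 ^ (r + 1) * y⌋₊ / 2 = ⌊2 ^ r * y⌋₊ := by
      have := floor_half y r
      rw [← h1, ← h1'] at this
      exact_mod_cast this
    rw [h2, ← ih]
    have h3 : pre (bin y) (r + 1) = pre (bin y) r ++ [bin y r] := by
      refine List.ext_getElem (by simp) fun i hi hi' => ?_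
      rw [getElem_pre]
      rcases Nat.lt_or_ge i r with h | h
      · rw [List.getElem_append_left (by simpa using h), getElem_pre]
      · have : i = r := by rw [length_pre] at hi; omega
        subst this
        simp
    rw [h3]
    congr 2
    unfold bin
    rw [← h1]
    have h4 : (((⌊2 ^ (r + 1) * y⌋₊ : ℕ) : ℤ) % 2 = 1) ↔ (⌊2 ^ (r + 1) * y⌋₊ % 2 = 1) := by omega
    exact decide_eq_decide.2 h4

theorem getD_nb {r u i : ℕ} (hi : i < r) : (nb r u).getD i false = decide (u / 2 ^ (r - 1 - i) % 2 = 1) := by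
  rw [List.getD_eq_getElem _ _ (by simpa using hi)]
  have h1 : (nb r u)[i]'(by simpa using hi) =
      ((List.range r).map fun i => decide (u / 2 ^ (r - 1 - i) % 2 = 1))[i]'(by simpa using hi) := by
    congr 1
    exact nb_eq_map r u
  rw [h1]
  simp

/-- the interior lemma -/
theorem interior {E : List Bool × ℕ × List Bool → Prop} {e0 : ℕ}
    (hE0 : ∀ x, E x ↔ ∃ s, wst (List Bool × ℕ × List Bool) e0 s x = true)
    {A : ℕ → Bool} {c : ℕ} {t : ℝ} (ht : 0 ≤ t) (h : bin t ∈ UE E A (c + 1)) (M : ℕ) :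
    ∃ r0, ∀ r, r0 ≤ r → ∀ u : ℕ, |(u : ℝ) - 2 ^ r * t| ≤ (M : ℝ) → PR e0 c (pre A r) (nb r u) = true := by
  obtain ⟨s, t0, h1⟩ := h
  obtain ⟨n0, h1⟩ := (hE0 _).1 h1
  obtain ⟨k, hk⟩ : ∃ k, k = ⌊2 ^ t0 * t⌋₊ := ⟨_, rfl⟩
  have hk1 : (k : ℝ) ≤ 2 ^ t0 * t := by rw [hk]; exact Nat.floor_le (by positivity)
  have hk2 : 2 ^ t0 * t < k + 1 := by rw [hk]; exact Nat.lt_floor_add_one _
  obtain ⟨q, hq⟩ : ∃ q : ℕ, (M : ℝ) < 2 ^ q * (k + 1 - 2 ^ t0 * t) := by
    obtain ⟨q, hq⟩ := pow_unbounded_of_one_lt ((M : ℝ) / (k + 1 - 2 ^ t0 * t)) (show (1 : ℝ) < 2 by norm_num)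
    refine ⟨q, ?_⟩
    rw [div_lt_iff₀ (by linarith)] at hq
    exact hq
  have hM : M < 2 ^ M := Nat.lt_two_pow_self
  refine ⟨n0 + s + (2 * t0 + c + 3) + q + M, fun r hr u hu => ?_⟩
  have hu' := abs_le.1 hu
  obtain ⟨R, hR⟩ : ∃ R : ℕ, R = 2 ^ (r - t0) := ⟨_, rfl⟩
  have hRr : (R : ℝ) * 2 ^ t0 = 2 ^ r := by
    rw [hR]; push_cast; rw [← pow_add]; congr 1; omega
  have hR1 : (2 : ℝ) ^ q ≤ R := by
    rw [hR]; push_cast
    exact pow_le_pow_right₀ (by norm_num) (by omega)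
  have hup : (u : ℝ) < (k + 1) * R := by
    have h2 : (M : ℝ) < R * (k + 1 - 2 ^ t0 * t) :=
      hq.trans_le (mul_le_mul_of_nonneg_right hR1 (by linarith))
    have h3 : (R : ℝ) * (2 ^ t0 * t) = 2 ^ r * t := by rw [← mul_assoc, hRr]
    nlinarith [hu'.2]
  have hup' : u < (k + 1) * R := by exact_mod_cast hup
  unfold PR
  rw [Bool.or_eq_true]
  rcases Nat.lt_or_ge u (k * R) with h2 | h2
  · right
    rw [RR_iff]
    refine ⟨t0, by rw [length_nb]; omega, fun i hi => ?_⟩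
    have hlow : (k : ℝ) * R - M ≤ u := by
      have h3 : (k : ℝ) * R ≤ 2 ^ r * t := by
        calc (k : ℝ) * R ≤ (2 ^ t0 * t) * R := mul_le_mul_of_nonneg_right hk1 (Nat.cast_nonneg _)
          _ = (R * 2 ^ t0) * t := by ring
          _ = _ := by rw [hRr]
      linarith [hu'.1]
    have hlow' : k * R ≤ u + M := by
      have : (k : ℝ) * R ≤ u + M := by linarith
      exact_mod_cast this
    obtain ⟨m, hm⟩ : ∃ m, k * R = u + m := ⟨k * R - u, by omega⟩
    have hm1 : 1 ≤ m := by omega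
    have hm2 : m ≤ M := by omega
    rw [getD_nb (by omega), decide_eq_true_eq]
    obtain ⟨D, hD⟩ : ∃ D, D = 2 ^ (r - 1 - (t0 + i)) := ⟨_, rfl⟩
    have hMD : M ≤ D := by
      rw [hD]
      exact hM.le.trans (Nat.pow_le_pow_right (by norm_num) (by omega))
    have hRD : R = 2 ^ i * 2 * D := by
      rw [hR, hD, ← pow_succ, ← pow_add]
      congr 1
      omega
    rw [← hD]
    have hD0 : 0 < D := by rw [hD]; exact Nat.two_pow_pos _
    have hk0 : 1 ≤ k := by
      by_contra hc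
      have : k = 0 := by omega
      rw [this, zero_mul] at hm
      omega
    obtain ⟨W, hW⟩ : ∃ W, k * (2 ^ i * 2) = W + 1 := ⟨k * (2 ^ i * 2) - 1, by
      have : 1 ≤ k * (2 ^ i * 2) := by
        have h5 : 0 < 2 ^ i := Nat.two_pow_pos _
        nlinarith
      omega⟩
    have h4 : u / D = W := by
      have h5 : u + m = (W + 1) * D := by
        rw [← hm, hRD, ← hW]; ring
      have h6 : W * D ≤ u := by
        have : (W + 1) * D = W * D + D := by ring
        omega
      have h7 : u < (W + 1) * D := by omega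
      exact Nat.div_eq_of_lt_le h6 h7
    rw [h4]
    have h5 : k * (2 ^ i * 2) = 2 * (k * 2 ^ i) := by ring
    omega
  · left
    rw [PU_iff, length_pre]
    refine ⟨s, by omega, t0, by omega, ?_⟩
    have h3 : u / R = k := Nat.div_eq_of_lt_le h2 hup'
    rw [take_pre _ _ _ (by omega), nb_take (by omega), ← hR, h3, hk, ← pre_bin ht]
    exact wst_mono (by omega) h1

end Pool.Agent.X234.PJ
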