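import Pool.Agent.X234.PJ.Eng
import Pool.Agent.X234.TD.KC

/-!
The content of an open set given by a decidable set of strings closed under extension; the
saturated nodes; effective coverings.
-/

set_option autoImplicit false

namespace Pool.Agent.X234.PJ

open Finset Pool.Agent.Helper227 Encodable
open Pool.Agent.Helper446.RE Pool.Agent.X234.KR

/-- the content of the node `x`, computed on the strings of length `length x + d`, in units of
`2 ^ (- e n)` -/
def cont (e : ℕ → ℕ) (B : List Bool → Bool) (n : ℕ) : ℕ → List Bool → ℕ
  | 0, x => if B x then 1 else 0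
  | d + 1, x => min (2 ^ (e n - e x.length)) (cont e B n d (x ++ [false]) + cont e B n d (x ++ [true]))

variable {e : ℕ → ℕ} {B : List Bool → Bool}

theorem cont_le (n d : ℕ) (x : List Bool) : cont e B n d x ≤ 2 ^ (e n - e x.length) := by
  cases d with
  | zero =>
    rw [cont]
    split_ifs
    · exact Nat.one_le_two_pow
    · exact Nat.zero_le _
  | succ d => rw [cont]; exact min_le_left _ _

theorem cont_step (he : ∀ m, e m ≤ e (m + 1)) (he' : ∀ m, e (m + 1) ≤ e m + 1)
    (hB : ∀ x b, B x = true → B (x ++ [b]) = true) (n d : ℕ) (x : List Bool) (hx : x.length + d = n) :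
    2 ^ (e (n + 1) - e n) * cont e B n d x ≤ cont e B (n + 1) (d + 1) x := by
  have hmono : ∀ m k, m ≤ k → e m ≤ e k := fun m k h => monotone_nat_of_le_succ he h
  induction d generalizing x with
  | zero =>
    rw [cont, cont, cont, cont]
    have hxn : x.length = n := by omega
    by_cases h1 : B x = true
    · rw [if_pos h1, if_pos (hB x false h1), if_pos (hB x true h1), hxn, le_min_iff]
      refine ⟨by simp, ?_⟩
      have := he' n
      have h4 : e (n + 1) - e n ≤ 1 := by omega
      calc 2 ^ (e (n + 1) - e n) * 1 ≤ 2 ^ 1 := by
            rw [mul_one]; exact Nat.pow_le_pow_right (by norm_num) h4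
        _ = 1 + 1 := by norm_num
    · rw [if_neg h1, mul_zero]
      exact Nat.zero_le _
  | succ d ih =>
    rw [cont, cont]
    have h1 := ih (x ++ [false]) (by simp; omega)
    have h2 := ih (x ++ [true]) (by simp; omega)
    rw [le_min_iff]
    constructor
    · calc 2 ^ (e (n + 1) - e n) * min (2 ^ (e n - e x.length)) _
          ≤ 2 ^ (e (n + 1) - e n) * 2 ^ (e n - e x.length) :=
            Nat.mul_le_mul_left _ (min_le_left _ _)
        _ = 2 ^ (e (n + 1) - e x.length) := by
            rw [← pow_add]
            congr 1
            have := hmono x.length n (by omega)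
            have := he n
            omega
    · calc 2 ^ (e (n + 1) - e n) * min _ (cont e B n d (x ++ [false]) + cont e B n d (x ++ [true]))
          ≤ 2 ^ (e (n + 1) - e n) * (cont e B n d (x ++ [false]) + cont e B n d (x ++ [true])) :=
            Nat.mul_le_mul_left _ (min_le_right _ _)
        _ ≤ _ := by rw [Nat.mul_add]; exact Nat.add_le_add h1 h2

/-- the node `x` is saturated at stage `n` -/
def sat (e : ℕ → ℕ) (B : List Bool → Bool) (n : ℕ) (x : List Bool) : Bool :=
  decide (x.length ≤ n) && decide (2 ^ (e n - e x.length) ≤ cont e B n (n - x.length) x)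

/-- the node `x` is saturated and no proper initial segment is -/
def act (e : ℕ → ℕ) (B : List Bool → Bool) (n : ℕ) (x : List Bool) : Bool :=
  sat e B n x && (List.range x.length).all fun k => !(sat e B n (x.take k))

theorem sat_iff {n : ℕ} {x : List Bool} :
    sat e B n x = true ↔ x.length ≤ n ∧ cont e B n (n - x.length) x = 2 ^ (e n - e x.length) := by
  unfold sat
  rw [Bool.and_eq_true, decide_eq_true_eq, decide_eq_true_eq]
  constructor
  · rintro ⟨h1, h2⟩
    exact ⟨h1, le_antisymm (cont_le _ _ _) h2⟩
  · rintro ⟨h1, h2⟩
    exact ⟨h1, h2.ge⟩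

theorem act_iff {n : ℕ} {x : List Bool} :
    act e B n x = true ↔ sat e B n x = true ∧ ∀ k < x.length, sat e B n (x.take k) = false := by
  unfold act
  rw [Bool.and_eq_true, List.all_eq_true]
  simp only [List.mem_range, Bool.not_eq_true']

theorem sat_succ (he : ∀ m, e m ≤ e (m + 1)) (he' : ∀ m, e (m + 1) ≤ e m + 1)
    (hB : ∀ x b, B x = true → B (x ++ [b]) = true) {n : ℕ} {x : List Bool}
    (h : sat e B n x = true) : sat e B (n + 1) x = true := by
  rw [sat_iff] at h ⊢
  have hmono : ∀ m k, m ≤ k → e m ≤ e k := fun m k h => monotone_nat_of_le_succ he h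
  refine ⟨by omega, le_antisymm (cont_le _ _ _) ?_⟩
  have h1 := cont_step he he' hB n (n - x.length) x (by omega)
  rw [h.2, ← pow_add] at h1
  rw [show n + 1 - x.length = n - x.length + 1 by omega]
  refine le_trans (le_of_eq ?_) h1
  congr 1
  have := hmono x.length n h.1
  have := he n
  omega

theorem sat_mono (he : ∀ m, e m ≤ e (m + 1)) (he' : ∀ m, e (m + 1) ≤ e m + 1)
    (hB : ∀ x b, B x = true → B (x ++ [b]) = true) {n n' : ℕ} (hn : n ≤ n') {x : List Bool}
    (h : sat e B n x = true) : sat e B n' x = true := by
  induction n' with
  | zero => obtain rfl : n = 0 := by omega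
            exact h
  | succ n' ih =>
    rcases Nat.lt_or_ge n' n with h1 | h1
    · obtain rfl : n = n' + 1 := by omega
      exact h
    · exact sat_succ he he' hB (ih h1)

open Classical in
/-- the number of nodes extending `x` at distance `d` which are active at some stage `≤ n` -/
noncomputable def ea (e : ℕ → ℕ) (B : List Bool → Bool) (n d : ℕ) (x : List Bool) : ℕ :=
  ((St d).filter fun τ => ∃ n' ≤ n, act e B n' (x ++ τ) = true).card

theorem ea_succ (n d : ℕ) (x : List Bool) :
    ea e B n (d + 1) x = ea e B n d (x ++ [false]) + ea e B n d (x ++ [true]) := by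
  classical
  unfold ea
  rw [Finset.card_filter, Finset.card_filter, Finset.card_filter, sum_St_succ]
  simp only [List.append_assoc, List.singleton_append]

theorem ea_le (he : ∀ m, e m ≤ e (m + 1)) (he' : ∀ m, e (m + 1) ≤ e m + 1)
    (hB : ∀ x b, B x = true → B (x ++ [b]) = true) (n : ℕ) : ∀ (d : ℕ) (x : List Bool),
      x.length + d ≤ n →
      ea e B n d x * 2 ^ (e n - e (x.length + d)) ≤ cont e B n (n - x.length) x := by
  classical
  have hmono : ∀ m k, m ≤ k → e m ≤ e k := fun m k h => monotone_nat_of_le_succ he h
  induction n with
  | zero =>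
    intro d x hx
    obtain rfl : d = 0 := by omega
    have hx0 : x.length = 0 := by omega
    have hx1 : x = [] := List.length_eq_zero_iff.1 hx0
    subst hx1
    by_cases h : ∃ n' ≤ 0, act e B n' ([] ++ []) = true
    · obtain ⟨n', hn', h⟩ := h
      obtain rfl : n' = 0 := by omega
      have h1 := (act_iff.1 h).1
      rw [sat_iff] at h1
      simp only [List.append_nil, List.length_nil, Nat.sub_zero, Nat.add_zero] at h1 ⊢
      rw [h1.2]
      have h2 : ea e B 0 0 [] ≤ 1 := by
        unfold ea
        refine (Finset.card_filter_le _ _).trans ?_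
        rw [card_St, pow_zero]
      calc ea e B 0 0 [] * 2 ^ (e 0 - e 0) ≤ 1 * 2 ^ (e 0 - e 0) := Nat.mul_le_mul_right _ h2
        _ = _ := one_mul _
    · have h1 : ea e B 0 0 [] = 0 := by
        unfold ea
        rw [Finset.card_eq_zero, Finset.filter_eq_empty_iff]
        intro τ hτ h2
        rw [mem_St] at hτ
        obtain rfl : τ = [] := List.length_eq_zero_iff.1 hτ
        exact h h2
      rw [h1, zero_mul]
      exact Nat.zero_le _
  | succ n ihn =>
    intro d
    induction d with
    | zero =>
      intro x hx
      by_cases h : ∃ n' ≤ n + 1, act e B n' x = true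
      · obtain ⟨n', hn', h⟩ := h
        have h1 := sat_mono he he' hB hn' (act_iff.1 h).1
        rw [sat_iff] at h1
        rw [h1.2, Nat.add_zero]
        have h2 : ea e B (n + 1) 0 x ≤ 1 := by
          unfold ea
          refine (Finset.card_filter_le _ _).trans ?_
          rw [card_St, pow_zero]
        calc ea e B (n + 1) 0 x * _ ≤ 1 * _ := Nat.mul_le_mul_right _ h2
          _ = _ := one_mul _
      · have h1 : ea e B (n + 1) 0 x = 0 := by
          unfold ea
          rw [Finset.card_eq_zero, Finset.filter_eq_empty_iff]
          intro τ hτ h2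
          rw [mem_St] at hτ
          obtain rfl : τ = [] := List.length_eq_zero_iff.1 hτ
          rw [List.append_nil] at h2
          exact h h2
        rw [h1, zero_mul]
        exact Nat.zero_le _
    | succ d ihd =>
      intro x hx
      by_cases h : sat e B (n + 1) x = true
      · -- no new active nodes
        have hnew : ∀ τ ∈ St (d + 1), (∃ n' ≤ n + 1, act e B n' (x ++ τ) = true) →
            ∃ n' ≤ n, act e B n' (x ++ τ) = true := by
          rintro τ hτ ⟨n', hn', h1⟩
          rw [mem_St] at hτ
          rcases Nat.lt_or_ge n n' with h2 | h2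
          · obtain rfl : n' = n + 1 := by omega
            have h3 := (act_iff.1 h1).2 x.length (by rw [List.length_append]; omega)
            rw [List.take_left] at h3
            rw [h] at h3
            exact absurd h3 (by simp)
          · exact ⟨n', h2, h1⟩
        have hle : ea e B (n + 1) (d + 1) x ≤ ea e B n (d + 1) x := by
          unfold ea
          refine Finset.card_le_card fun τ hτ => ?_
          rw [Finset.mem_filter] at hτ ⊢
          exact ⟨hτ.1, hnew τ hτ.1 hτ.2⟩
        rcases Nat.lt_or_ge n (x.length + (d + 1)) with h1 | h1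
        · -- nothing was active before
          have h2 : ea e B n (d + 1) x = 0 := by
            unfold ea
            rw [Finset.card_eq_zero, Finset.filter_eq_empty_iff]
            rintro τ hτ ⟨n', hn', h3⟩
            rw [mem_St] at hτ
            have h4 := (sat_iff.1 (act_iff.1 h3).1).1
            rw [List.length_append] at h4
            omega
          rw [h2] at hle
          rw [Nat.le_zero.1 hle, zero_mul]
          exact Nat.zero_le _
        · have h2 := ihn (d + 1) x h1
          have h3 := cont_step he he' hB n (n - x.length) x (by omega)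
          rw [show n + 1 - x.length = n - x.length + 1 by omega]
          refine le_trans ?_ h3
          calc ea e B (n + 1) (d + 1) x * 2 ^ (e (n + 1) - e (x.length + (d + 1)))
              ≤ ea e B n (d + 1) x * 2 ^ (e (n + 1) - e (x.length + (d + 1))) :=
                Nat.mul_le_mul_right _ hle
            _ = 2 ^ (e (n + 1) - e n) * (ea e B n (d + 1) x * 2 ^ (e n - e (x.length + (d + 1)))) := by
                have h4 : 2 ^ (e (n + 1) - e (x.length + (d + 1))) =
                    2 ^ (e (n + 1) - e n) * 2 ^ (e n - e (x.length + (d + 1))) := by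
                  rw [← pow_add]
                  congr 1
                  have := hmono _ _ h1
                  have := he n
                  omega
                rw [h4]
                ring
            _ ≤ _ := Nat.mul_le_mul_left _ h2
      · -- the content is the sum of the contents of the children
        have h0 : cont e B (n + 1) (n + 1 - x.length) x =
            cont e B (n + 1) (n - x.length) (x ++ [false]) +
              cont e B (n + 1) (n - x.length) (x ++ [true]) := by
          rw [show n + 1 - x.length = n - x.length + 1 by omega, cont]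
          rw [min_eq_right]
          by_contra hc
          push Not at hc
          apply h
          rw [sat_iff]
          refine ⟨by omega, ?_⟩
          rw [show n + 1 - x.length = n - x.length + 1 by omega, cont, min_eq_left hc.le]
        rw [h0, ea_succ, Nat.add_mul]
        have h1 := ihd (x ++ [false]) (by simp; omega)
        have h2 := ihd (x ++ [true]) (by simp; omega)
        rw [List.length_append, List.length_singleton] at h1 h2
        rw [show x.length + 1 + d = x.length + (d + 1) by omega,
          show n + 1 - (x.length + 1) = n - x.length by omega] at h1 h2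
        exact Nat.add_le_add h1 h2

/-- the Frostman lemma on the finite tree -/
theorem exists_weight (he : ∀ m, e m ≤ e (m + 1)) (n : ℕ) : ∀ (d : ℕ) (x : List Bool),
    x.length + d = n → ∀ f : ℝ, 0 ≤ f → f ≤ (cont e B n d x : ℝ) * (1 / 2) ^ e n →
      ∃ w : List Bool → ℝ, (∀ τ, 0 ≤ w τ) ∧ (∀ τ, w τ ≠ 0 → B (x ++ τ) = true) ∧
        ∑ τ ∈ St d, w τ = f ∧ ∀ k ≤ d, ∀ ρ : List Bool, ρ.length = k →
          ∑ τ ∈ (St d).filter (fun τ => τ.take k = ρ), w τ ≤ (1 / 2) ^ e (x.length + k) := by
  have hmono : ∀ m k, m ≤ k → e m ≤ e k := fun m k h => monotone_nat_of_le_succ he h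
  intro d
  induction d with
  | zero =>
    intro x hx f hf0 hf
    rw [cont] at hf
    have hSt : St 0 = {[]} := by
      ext y; simp
    by_cases hB : B x = true
    · rw [if_pos hB, Nat.cast_one, one_mul] at hf
      refine ⟨fun τ => if τ = [] then f else 0, fun τ => by
        show (0 : ℝ) ≤ if τ = [] then f else 0
        split_ifs
        · exact hf0
        · exact le_rfl, ?_, ?_, ?_⟩
      · intro τ hτ
        by_cases h : τ = []
        · rw [h, List.append_nil]; exact hB
        · simp only [if_neg h] at hτ
          exact absurd rfl hτ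
      · rw [hSt]; simp
      · intro k hk ρ hρ
        obtain rfl : k = 0 := by omega
        obtain rfl : ρ = [] := List.length_eq_zero_iff.1 hρ
        rw [hSt]
        simp only [List.take_zero, Finset.filter_true, Finset.sum_singleton, if_true, Nat.add_zero]
        rw [show x.length = n by omega]
        exact hf
    · rw [if_neg hB, Nat.cast_zero, zero_mul] at hf
      have hf1 : f = 0 := le_antisymm hf hf0
      refine ⟨fun _ => 0, fun _ => le_rfl, fun τ h => absurd rfl h, by simp [hf1], ?_⟩
      intro k _ ρ _
      simp only [Finset.sum_const_zero]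
      positivity
  | succ d ih =>
    intro x hx f hf0 hf
    obtain ⟨c0, hc0⟩ : ∃ c, c = (cont e B n d (x ++ [false]) : ℝ) * (1 / 2) ^ e n := ⟨_, rfl⟩
    obtain ⟨c1, hc1⟩ : ∃ c, c = (cont e B n d (x ++ [true]) : ℝ) * (1 / 2) ^ e n := ⟨_, rfl⟩
    have hc00 : 0 ≤ c0 := by rw [hc0]; positivity
    have hc10 : 0 ≤ c1 := by rw [hc1]; positivity
    have hfc : f ≤ c0 + c1 := by
      refine hf.trans ?_
      rw [hc0, hc1, ← add_mul]
      refine mul_le_mul_of_nonneg_right ?_ (by positivity)
      rw [cont]
      have := min_le_right (2 ^ (e n - e x.length))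
        (cont e B n d (x ++ [false]) + cont e B n d (x ++ [true]))
      exact_mod_cast this
    have hfx : f ≤ (1 / 2) ^ e x.length := by
      refine hf.trans ?_
      have h1 : (cont e B n (d + 1) x : ℝ) ≤ 2 ^ (e n - e x.length) := by
        exact_mod_cast cont_le n (d + 1) x
      calc (cont e B n (d + 1) x : ℝ) * (1 / 2) ^ e n ≤ 2 ^ (e n - e x.length) * (1 / 2) ^ e n :=
            mul_le_mul_of_nonneg_right h1 (by positivity)
        _ = 2 ^ (e n - e x.length) * (1 / 2) ^ (e n - e x.length) * (1 / 2) ^ e x.length := by
            rw [mul_assoc, ← pow_add]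
            congr 2
            have := hmono x.length n (by omega)
            omega
        _ = _ := by rw [← mul_pow]; norm_num
    obtain ⟨f0, f1, h0, h1, h01, hs⟩ : ∃ f0 f1 : ℝ, 0 ≤ f0 ∧ 0 ≤ f1 ∧ (f0 ≤ c0 ∧ f1 ≤ c1) ∧
        f0 + f1 = f := by
      rcases le_total f c0 with h | h
      · exact ⟨f, 0, hf0, le_rfl, ⟨h, hc10⟩, by ring⟩
      · exact ⟨c0, f - c0, hc00, by linarith, ⟨le_rfl, by linarith⟩, by ring⟩
    obtain ⟨w0, a1, a2, a3, a4⟩ := ih (x ++ [false]) (by simp; omega) f0 h0 (by rw [← hc0]; exact h01.1)
    obtain ⟨w1, b1, b2, b3, b4⟩ := ih (x ++ [true]) (by simp; omega) f1 h1 (by rw [← hc1]; exact h01.2)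
    let w : List Bool → ℝ := fun τ => match τ with
      | [] => 0
      | false :: τ => w0 τ
      | true :: τ => w1 τ
    refine ⟨w, ?_, ?_, ?_, ?_⟩
    · intro τ
      rcases τ with _ | ⟨b, τ⟩
      · exact le_rfl
      · cases b
        · exact a1 τ
        · exact b1 τ
    · intro τ hτ
      rcases τ with _ | ⟨b, τ⟩
      · exact absurd rfl hτ
      · cases b
        · have := a2 τ hτ
          rwa [List.append_assoc, List.singleton_append] at this
        · have := b2 τ hτ
          rwa [List.append_assoc, List.singleton_append] at this
    · rw [sum_St_succ]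
      show ∑ τ ∈ St d, w0 τ + ∑ τ ∈ St d, w1 τ = f
      rw [a3, b3, hs]
    · intro k hk ρ hρ
      rcases k with _ | k
      · obtain rfl : ρ = [] := List.length_eq_zero_iff.1 hρ
        simp only [List.take_zero, Finset.filter_true, Nat.add_zero]
        rw [sum_St_succ]
        show ∑ τ ∈ St d, w0 τ + ∑ τ ∈ St d, w1 τ ≤ _
        rw [a3, b3, hs]
        exact hfx
      · rcases ρ with _ | ⟨b, ρ⟩
        · simp at hρ
        have hρ' : ρ.length = k := by simpa using hρ
        rw [Finset.sum_filter, sum_St_succ]
        simp only [List.take_succ_cons, List.cons.injEq]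
        cases b
        · have h2 := a4 k (by omega) ρ hρ'
          rw [List.length_append, List.length_singleton, Finset.sum_filter] at h2
          have h3 : ∑ τ ∈ St d, (if true = false ∧ τ.take k = ρ then w (true :: τ) else 0) = 0 := by
            refine Finset.sum_eq_zero fun τ _ => ?_
            rw [if_neg (by simp)]
          rw [h3, add_zero]
          refine le_trans (le_of_eq ?_) (h2.trans (le_of_eq ?_))
          · refine Finset.sum_congr rfl fun τ _ => ?_
            simp only [true_and]
            rfl
          · congr 2; omega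
        · have h2 := b4 k (by omega) ρ hρ'
          rw [List.length_append, List.length_singleton, Finset.sum_filter] at h2
          have h3 : ∑ τ ∈ St d, (if false = true ∧ τ.take k = ρ then w (false :: τ) else 0) = 0 := by
            refine Finset.sum_eq_zero fun τ _ => ?_
            rw [if_neg (by simp)]
          rw [h3, zero_add]
          refine le_trans (le_of_eq ?_) (h2.trans (le_of_eq ?_))
          · refine Finset.sum_congr rfl fun τ _ => ?_
            simp only [true_and]
            rfl
          · congr 2; omega

end Pool.Agent.X234.PJ
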