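import Pool.Agent.X234.PJ.Ang

/-!
Approximate values of the projections of points of dyadic squares.
-/

set_option autoImplicit false

namespace Pool.Agent.X234.PJ

open Encodable Filter
open Pool.Agent.Helper446.RE Pool.Agent.X234.TD Pool.Agent.X234.KR

theorem lip_cos (a b : ℝ) : |Real.cos a - Real.cos b| ≤ |a - b| := by
  rw [Real.cos_sub_cos]
  have h1 := Real.abs_sin_le_one ((a + b) / 2)
  have h2 : |Real.sin ((a - b) / 2)| ≤ |(a - b) / 2| := Real.abs_sin_le_abs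
  rw [abs_mul, abs_mul]
  have h3 : |(a - b) / 2| = |a - b| / 2 := by rw [abs_div]; norm_num
  rw [h3] at h2
  have h4 := mul_le_mul h1 h2 (abs_nonneg _) (by norm_num)
  have h5 : |(-2 : ℝ)| = 2 := by norm_num
  rw [h5]
  linarith

theorem lip_sin (a b : ℝ) : |Real.sin a - Real.sin b| ≤ |a - b| := by
  rw [Real.sin_sub_sin]
  have h1 := Real.abs_cos_le_one ((a + b) / 2)
  have h2 : |Real.sin ((a - b) / 2)| ≤ |(a - b) / 2| := Real.abs_sin_le_abs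
  rw [abs_mul, abs_mul]
  have h3 : |(a - b) / 2| = |a - b| / 2 := by rw [abs_div]; norm_num
  rw [h3] at h2
  have h4 := mul_le_mul h2 h1 (abs_nonneg _) (by positivity)
  have h5 : |(2 : ℝ)| = 2 := by norm_num
  rw [h5]
  nlinarith

/-- one summand -/
theorem term_bound {R X Y δ c c' A C : ℝ} (hR : 1 ≤ R) (hX : |X| ≤ A * R) (hY : |R * Y - X| ≤ 1)
    (hδ : |δ| ≤ C) (hc : |c'| ≤ 1) (hcc : |c' - c| ≤ 7 / R) (hA : 0 ≤ A) :
    |X * (R * c + δ) / R - R * (Y * c')| ≤ A * C + 1 + 7 * A := by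
  have h1 : X * (R * c + δ) / R - R * (Y * c') =
      X * δ / R + (-((R * Y - X) * c') + (-(X * (c' - c)))) := by
    field_simp
    ring
  rw [h1]
  have hR0 : 0 < R := by linarith
  have h2 : |X * δ / R| ≤ A * C := by
    rw [abs_div, abs_mul, abs_of_pos hR0, div_le_iff₀ hR0]
    calc |X| * |δ| ≤ (A * R) * C := mul_le_mul hX hδ (abs_nonneg _) (by positivity)
      _ = _ := by ring
  have h3 : |-((R * Y - X) * c')| ≤ 1 := by
    rw [abs_neg, abs_mul]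
    calc |R * Y - X| * |c'| ≤ 1 * 1 := mul_le_mul hY hc (abs_nonneg _) (by norm_num)
      _ = 1 := by norm_num
  have h4 : |-(X * (c' - c))| ≤ 7 * A := by
    rw [abs_neg, abs_mul]
    calc |X| * |c' - c| ≤ (A * R) * (7 / R) := mul_le_mul hX hcc (abs_nonneg _) (by positivity)
      _ = 7 * A := by field_simp
  calc |X * δ / R + (-((R * Y - X) * c') + (-(X * (c' - c))))|
      ≤ |X * δ / R| + |-((R * Y - X) * c') + (-(X * (c' - c)))| := abs_add_le _ _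
    _ ≤ |X * δ / R| + (|-((R * Y - X) * c')| + |-(X * (c' - c))|) :=
        add_le_add le_rfl (abs_add_le _ _)
    _ ≤ _ := by linarith

/-- the approximate value -/
def vv (P S : ℕ × ℕ → ℕ) (ip im jp jm L : ℕ) (x : ℕ × ℕ × ℕ × ℕ) : ℕ :=
  ((ip * 2 ^ x.1 + x.2.1) * P (x.1, x.2.2.2) + im * 2 ^ x.1 * 2 ^ x.1 +
    ((jp * 2 ^ x.1 + x.2.2.1) * S (x.1, x.2.2.2) + jm * 2 ^ x.1 * 2 ^ x.1) + L * (2 ^ x.1 * 2 ^ x.1) -
    (im * 2 ^ x.1 * P (x.1, x.2.2.2) + (ip * 2 ^ x.1 + x.2.1) * 2 ^ x.1 +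
      (jm * 2 ^ x.1 * S (x.1, x.2.2.2) + (jp * 2 ^ x.1 + x.2.2.1) * 2 ^ x.1))) / 2 ^ x.1

theorem exists_v (z1 z2 : ℤ) : ∃ (v : ℕ × ℕ × ℕ × ℕ → ℕ) (L M : ℕ), Computable v ∧
    ∀ r a b i : ℕ, a < 2 ^ r → b < 2 ^ r → i < 2 ^ r → ∀ y1 y2 θ : ℝ,
      z1 + (a : ℝ) / 2 ^ r ≤ y1 → y1 ≤ z1 + ((a : ℝ) + 1) / 2 ^ r →
      z2 + (b : ℝ) / 2 ^ r ≤ y2 → y2 ≤ z2 + ((b : ℝ) + 1) / 2 ^ r →
      (i : ℝ) / 2 ^ r ≤ θ → θ ≤ ((i : ℝ) + 1) / 2 ^ r →
      |(v (r, a, b, i) : ℝ) - 2 ^ r * (y1 * Real.cos (2 * Real.pi * θ) +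
        y2 * Real.sin (2 * Real.pi * θ) + L)| ≤ M := by
  obtain ⟨P, S, C, hP, hS, hPS⟩ := exists_cs
  obtain ⟨ip, im, hz1⟩ : ∃ ip im : ℕ, z1 = (ip : ℤ) - im := ⟨z1.toNat, (-z1).toNat, by omega⟩
  obtain ⟨jp, jm, hz2⟩ : ∃ jp jm : ℕ, z2 = (jp : ℤ) - jm := ⟨z2.toNat, (-z2).toNat, by omega⟩
  obtain ⟨A, hA⟩ : ∃ A : ℕ, A = ip + im + 1 := ⟨_, rfl⟩
  obtain ⟨B, hB⟩ : ∃ B : ℕ, B = jp + jm + 1 := ⟨_, rfl⟩
  obtain ⟨L, hL⟩ : ∃ L : ℕ, L = (A + B) * (C + 1) := ⟨_, rfl⟩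
  refine ⟨vv P S ip im jp jm L, L, (A + B) * (C + 7) + 3, ?_, ?_⟩
  · unfold vv
    have h2 : Computable fun x : ℕ × ℕ × ℕ × ℕ => 2 ^ x.1 := comp_pow2 (by fun_prop)
    have h3 : Computable fun x : ℕ × ℕ × ℕ × ℕ => P (x.1, x.2.2.2) :=
      hP.comp (g := fun x : ℕ × ℕ × ℕ × ℕ => (x.1, x.2.2.2)) (by fun_prop)
    have h4 : Computable fun x : ℕ × ℕ × ℕ × ℕ => S (x.1, x.2.2.2) :=
      hS.comp (g := fun x : ℕ × ℕ × ℕ × ℕ => (x.1, x.2.2.2)) (by fun_prop)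
    refine Primrec.nat_div.to_comp.comp (csub ?_ ?_) h2
    · exact cadd (cadd (cadd (cmul (cadd (cmul (cconst _) h2) (by fun_prop)) h3)
        (cmul (cmul (cconst _) h2) h2)) (cadd (cmul (cadd (cmul (cconst _) h2) (by fun_prop)) h4)
        (cmul (cmul (cconst _) h2) h2))) (cmul (cconst _) (cmul h2 h2))
    · exact cadd (cadd (cmul (cmul (cconst _) h2) h3) (cmul (cadd (cmul (cconst _) h2)
        (by fun_prop)) h2)) (cadd (cmul (cmul (cconst _) h2) h4) (cmul (cadd (cmul (cconst _) h2)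
        (by fun_prop)) h2))
  intro r a b i ha hb hi y1 y2 θ hy1 hy1' hy2 hy2' hθ hθ'
  obtain ⟨hP1, hS1⟩ := hPS r i hi
  obtain ⟨R, hR⟩ : ∃ R : ℝ, R = 2 ^ r := ⟨_, rfl⟩
  have hR1 : 1 ≤ R := by rw [hR]; exact one_le_pow₀ (by norm_num)
  have hR0 : 0 < R := by linarith
  have hpi := Real.pi_pos
  have hpi2 := Real.pi_lt_d2
  -- the exact numerator
  obtain ⟨X1, hX1⟩ : ∃ X1 : ℝ, X1 = ((ip : ℝ) - im) * R + a := ⟨_, rfl⟩
  obtain ⟨X2, hX2⟩ : ∃ X2 : ℝ, X2 = ((jp : ℝ) - jm) * R + b := ⟨_, rfl⟩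
  obtain ⟨δ1, hδ1⟩ : ∃ δ : ℝ, δ = (P (r, i) : ℝ) - R * (1 + Real.cos (2 * Real.pi * (i / R))) :=
    ⟨_, rfl⟩
  obtain ⟨δ2, hδ2⟩ : ∃ δ : ℝ, δ = (S (r, i) : ℝ) - R * (1 + Real.sin (2 * Real.pi * (i / R))) :=
    ⟨_, rfl⟩
  rw [← hR] at hP1 hS1 hy1 hy1' hy2 hy2' hθ hθ' ⊢
  rw [← hδ1] at hP1
  rw [← hδ2] at hS1
  have hz1' : (z1 : ℝ) = (ip : ℝ) - im := by rw [hz1]; push_cast; ring
  have hz2' : (z2 : ℝ) = (jp : ℝ) - jm := by rw [hz2]; push_cast; ring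
  rw [hz1'] at hy1 hy1'
  rw [hz2'] at hy2 hy2'
  have ha' : (a : ℝ) < R := by rw [hR]; exact_mod_cast ha
  have hb' : (b : ℝ) < R := by rw [hR]; exact_mod_cast hb
  have ha0 : (0 : ℝ) ≤ a := Nat.cast_nonneg a
  have hb0 : (0 : ℝ) ≤ b := Nat.cast_nonneg b
  have hip : (0 : ℝ) ≤ ip := Nat.cast_nonneg _
  have him : (0 : ℝ) ≤ im := Nat.cast_nonneg _
  have hjp : (0 : ℝ) ≤ jp := Nat.cast_nonneg _
  have hjm : (0 : ℝ) ≤ jm := Nat.cast_nonneg _
  have hAr : (A : ℝ) = ip + im + 1 := by rw [hA]; push_cast; ring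
  have hBr : (B : ℝ) = jp + jm + 1 := by rw [hB]; push_cast; ring
  have hXA : |X1| ≤ A * R := by
    rw [hX1, hAr, abs_le]
    have e1 := mul_nonneg hip hR0.le
    have e2 := mul_nonneg him hR0.le
    have e3 : ((ip : ℝ) + im + 1) * R = ip * R + im * R + R := by ring
    have e4 : ((ip : ℝ) - im) * R = ip * R - im * R := by ring
    rw [e3, e4]
    constructor <;> linarith
  have hXB : |X2| ≤ B * R := by
    rw [hX2, hBr, abs_le]
    have e1 := mul_nonneg hjp hR0.le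
    have e2 := mul_nonneg hjm hR0.le
    have e3 : ((jp : ℝ) + jm + 1) * R = jp * R + jm * R + R := by ring
    have e4 : ((jp : ℝ) - jm) * R = jp * R - jm * R := by ring
    rw [e3, e4]
    constructor <;> linarith
  have hmul : ∀ {u y z : ℝ}, z + u / R ≤ y → z * R + u ≤ R * y := by
    intro u y z h
    have := mul_le_mul_of_nonneg_left h hR0.le
    have h2 : R * (z + u / R) = z * R + u := by field_simp
    linarith
  have hmul' : ∀ {u y z : ℝ}, y ≤ z + u / R → R * y ≤ z * R + u := by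
    intro u y z h
    have := mul_le_mul_of_nonneg_left h hR0.le
    have h2 : R * (z + u / R) = z * R + u := by field_simp
    linarith
  have hY1 : |R * y1 - X1| ≤ 1 := by
    rw [hX1, abs_le]
    have e1 := hmul hy1
    have e2 := hmul' hy1'
    constructor <;> linarith
  have hY2 : |R * y2 - X2| ≤ 1 := by
    rw [hX2, abs_le]
    have e1 := hmul hy2
    have e2 := hmul' hy2'
    constructor <;> linarith
  have hang : |2 * Real.pi * θ - 2 * Real.pi * (i / R)| ≤ 7 / R := by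
    rw [← mul_sub, abs_mul, abs_of_pos (by positivity)]
    have h1 : |θ - i / R| ≤ 1 / R := by
      rw [abs_le]
      constructor
      · have : (0 : ℝ) ≤ 1 / R := by positivity
        linarith
      · rw [add_div] at hθ'
        linarith
    calc 2 * Real.pi * |θ - i / R| ≤ 7 * (1 / R) :=
          mul_le_mul (by linarith) h1 (abs_nonneg _) (by norm_num)
      _ = _ := by ring
  have hc1 := (lip_cos _ _).trans hang
  have hc2 := (lip_sin _ _).trans hang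
  have hCr : (0 : ℝ) ≤ C := Nat.cast_nonneg _
  have hA0 : (0 : ℝ) ≤ A := Nat.cast_nonneg _
  have hB0 : (0 : ℝ) ≤ B := Nat.cast_nonneg _
  have t1 := term_bound hR1 hXA hY1 hP1 (Real.abs_cos_le_one _) hc1 hA0
  have t2 := term_bound hR1 hXB hY2 hS1 (Real.abs_sin_le_one _) hc2 hB0
  -- the numerator
  obtain ⟨T, hT⟩ : ∃ T : ℝ, T = X1 * (R * Real.cos (2 * Real.pi * (i / R)) + δ1) +
    X2 * (R * Real.sin (2 * Real.pi * (i / R)) + δ2) + L * (R * R) := ⟨_, rfl⟩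
  obtain ⟨U, hU⟩ : ∃ U : ℕ, U = (ip * 2 ^ r + a) * P (r, i) + im * 2 ^ r * 2 ^ r +
    ((jp * 2 ^ r + b) * S (r, i) + jm * 2 ^ r * 2 ^ r) + L * (2 ^ r * 2 ^ r) := ⟨_, rfl⟩
  obtain ⟨W, hW⟩ : ∃ W : ℕ, W = im * 2 ^ r * P (r, i) + (ip * 2 ^ r + a) * 2 ^ r +
      (jm * 2 ^ r * S (r, i) + (jp * 2 ^ r + b) * 2 ^ r) := ⟨_, rfl⟩
  have hUW : (U : ℝ) - W = T := by
    have e1 : (P (r, i) : ℝ) = R * (1 + Real.cos (2 * Real.pi * (i / R))) + δ1 := by rw [hδ1]; ring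
    have e2 : (S (r, i) : ℝ) = R * (1 + Real.sin (2 * Real.pi * (i / R))) + δ2 := by rw [hδ2]; ring
    rw [hU, hW, hT, hX1, hX2]
    push_cast
    rw [← hR, e1, e2]
    ring
  have hT0 : 0 ≤ T := by
    have e1 : |X1 * (R * Real.cos (2 * Real.pi * (i / R)) + δ1)| ≤ A * R * (R + C) := by
      rw [abs_mul]
      refine mul_le_mul hXA ((abs_add_le _ _).trans (add_le_add ?_ hP1)) (abs_nonneg _) (by positivity)
      rw [abs_mul, abs_of_pos hR0]
      exact mul_le_of_le_one_right hR0.le (Real.abs_cos_le_one _)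
    have e2 : |X2 * (R * Real.sin (2 * Real.pi * (i / R)) + δ2)| ≤ B * R * (R + C) := by
      rw [abs_mul]
      refine mul_le_mul hXB ((abs_add_le _ _).trans (add_le_add ?_ hS1)) (abs_nonneg _) (by positivity)
      rw [abs_mul, abs_of_pos hR0]
      exact mul_le_of_le_one_right hR0.le (Real.abs_sin_le_one _)
    have e3 : (L : ℝ) = (A + B) * (C + 1) := by rw [hL]; push_cast; ring
    have e4 : R * (R + C) ≤ R * R * (C + 1) := by
      have h1 : C * 1 ≤ C * R := mul_le_mul_of_nonneg_left hR1 hCr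
      have h2 : R * (R + C) ≤ R * (R + C * R) :=
        mul_le_mul_of_nonneg_left (by linarith) hR0.le
      calc R * (R + C) ≤ R * (R + C * R) := h2
        _ = _ := by ring
    have e5 : (A + B : ℝ) * (R * (R + C)) ≤ (A + B) * (R * R * (C + 1)) :=
      mul_le_mul_of_nonneg_left e4 (by positivity)
    have e1' := (abs_le.1 e1).1
    have e2' := (abs_le.1 e2).1
    have e6 : (A : ℝ) * R * (R + C) + B * R * (R + C) = (A + B) * (R * (R + C)) := by ring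
    have e7 : (A + B : ℝ) * (C + 1) * (R * R) = (A + B) * (R * R * (C + 1)) := by ring
    rw [hT, e3, e7]
    linarith
  have hWU : W ≤ U := by
    have : (W : ℝ) ≤ U := by linarith
    exact_mod_cast this
  have hv : vv P S ip im jp jm L (r, a, b, i) = (U - W) / 2 ^ r := by
    unfold vv
    rw [hU, hW]
  rw [hv]
  have hD : 0 < 2 ^ r := by positivity
  have h4 : (U - W) / 2 ^ r * 2 ^ r ≤ U - W := Nat.div_mul_le_self _ _
  have h5 : U - W < ((U - W) / 2 ^ r + 1) * 2 ^ r :=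
    Nat.lt_mul_of_div_lt (Nat.lt_succ_self _) hD
  obtain ⟨q, hq⟩ : ∃ q, q = (U - W) / 2 ^ r := ⟨_, rfl⟩
  rw [← hq] at h4 h5 ⊢
  have h4' : (q : ℝ) * R ≤ T := by
    rw [← hUW, hR]
    have : ((q * 2 ^ r : ℕ) : ℝ) ≤ ((U - W : ℕ) : ℝ) := by exact_mod_cast h4
    rw [Nat.cast_sub hWU] at this
    push_cast at this
    exact this
  have h5' : T < (q + 1) * R := by
    rw [← hUW, hR]
    have : ((U - W : ℕ) : ℝ) < (((q + 1) * 2 ^ r : ℕ) : ℝ) := by exact_mod_cast h5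
    rw [Nat.cast_sub hWU] at this
    push_cast at this
    exact this
  have hq1 : (q : ℝ) ≤ T / R := by rw [le_div_iff₀ hR0]; exact h4'
  have hq2 : T / R < q + 1 := by rw [div_lt_iff₀ hR0]; exact h5'
  have hTR : T / R = X1 * (R * Real.cos (2 * Real.pi * (i / R)) + δ1) / R +
      X2 * (R * Real.sin (2 * Real.pi * (i / R)) + δ2) / R + L * R := by
    rw [hT]; field_simp
  have t1' := abs_le.1 t1
  have t2' := abs_le.1 t2
  rw [hTR] at hq1 hq2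
  have g1 : R * (y1 * Real.cos (2 * Real.pi * θ) + y2 * Real.sin (2 * Real.pi * θ) + L) =
      R * (y1 * Real.cos (2 * Real.pi * θ)) + R * (y2 * Real.sin (2 * Real.pi * θ)) + L * R := by ring
  have g2 : (((A + B) * (C + 7) + 3 : ℕ) : ℝ) = (A * C + 1 + 7 * A) + (B * C + 1 + 7 * B) + 1 := by
    push_cast; ring
  rw [abs_le, g1, g2]
  constructor
  · linarith [t1'.1, t2'.1]
  · linarith [t1'.2, t2'.2]

end Pool.Agent.X234.PJ
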